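import Pool.Agent.Lib.QDMan.Defs

/-!
# Chunk S3: there are at most continuum many codes

PROOF. `enc : Code → (List ℕ → ((ℕ → ℕ) × (ℕ → Bool)) ⊕ ((ℕ → Bool) × List ℕ))`,
`enc (iso a b) _ = inl (a, b)`, `enc (lpt b t x) [] = inr (b, t)`,
`enc (lpt b t x) (j :: p) = enc (x j) p` is injective (structural induction), and the target has
cardinality `𝔠 ^ ℵ₀ = 𝔠`.
-/

set_option autoImplicit false

open Set Cardinal

namespace QDMan

/-- codes as labelled trees -/
def enc : Code → List ℕ → ((ℕ → ℕ) × (ℕ → Bool)) ⊕ ((ℕ → Bool) × List ℕ)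
  | .iso a b, _ => Sum.inl (a, b)
  | .lpt b t _, [] => Sum.inr (b, t)
  | .lpt _ _ x, j :: p => enc (x j) p

theorem enc_injective : Function.Injective enc := by
  intro y
  induction y with
  | iso a b =>
    intro w h
    cases w with
    | iso a' b' =>
      have h1 := congrFun h []
      simp only [enc, Sum.inl.injEq, Prod.mk.injEq] at h1
      rw [h1.1, h1.2]
    | lpt b' t' x' =>
      have h1 := congrFun h []
      simp [enc] at h1
  | lpt b t x ih =>
    intro w h
    cases w with
    | iso a' b' =>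
      have h1 := congrFun h []
      simp [enc] at h1
    | lpt b' t' x' =>
      have h1 := congrFun h []
      simp only [enc, Sum.inr.injEq, Prod.mk.injEq] at h1
      have h2 : x = x' := by
        funext j
        apply ih j
        funext p
        exact congrFun h (j :: p)
      rw [h1.1, h1.2, h2]

theorem mk_code_le : #Code ≤ 𝔠 := by
  refine (Cardinal.mk_le_of_injective enc_injective).trans ?_
  have h1 : #(((ℕ → ℕ) × (ℕ → Bool)) ⊕ ((ℕ → Bool) × List ℕ)) = 𝔠 := by
    simp
  have h2 : #(List ℕ → ((ℕ → ℕ) × (ℕ → Bool)) ⊕ ((ℕ → Bool) × List ℕ)) = 𝔠 := by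
    rw [← Cardinal.power_def, h1]
    simp
  exact h2.le

/-- the cardinality bound needed for `exists_pes` -/
theorem mk_system_le : #(List ℕ × (List Bool → Code)) ≤ 𝔠 := by
  have h1 : #(List Bool → Code) ≤ 𝔠 := by
    rw [← Cardinal.power_def]
    calc #Code ^ #(List Bool) ≤ 𝔠 ^ #(List Bool) := Cardinal.power_le_power_right mk_code_le
      _ = 𝔠 := by simp
  have h2 : #(List ℕ × (List Bool → Code)) = #(List ℕ) * #(List Bool → Code) := by
    simp [Cardinal.mk_prod]
  rw [h2]
  calc #(List ℕ) * #(List Bool → Code) ≤ ℵ₀ * 𝔠 := by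
        gcongr
        simp
    _ = 𝔠 := by simp

end QDMan
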