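import Pool.Agent.Lib.QDMan.Top

/-!
# Chunk T4: `M` is locally Euclidean

PROOF. `EuclideanSpace ℝ (Fin 2) ≃ₜ ℝ × ℝ` (`(EuclideanSpace.equiv (Fin 2) ℝ).toHomeomorph` and
`Homeomorph.finTwoArrow`).  The chart at `q` is the inverse of the open embedding `Fm q.lc`
(`IsOpenEmbedding.toOpenPartialHomeomorph`, `.symm`, needs `Nonempty`), followed by the
homeomorphism; the atlas is the set of all of them; `q` is in the source by `exists_Fm_eq`.
-/

set_option autoImplicit false

open Set Filter Topology

namespace QDMan

open Code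

/-- the plane as a product -/
noncomputable def planeHomeo : EuclideanSpace ℝ (Fin 2) ≃ₜ ℝ × ℝ :=
  (EuclideanSpace.equiv (Fin 2) ℝ).toHomeomorph.trans Homeomorph.finTwoArrow

/-- the open partial homeomorphism from the plane to `M` given by `Fm y` -/
noncomputable def FmPH (y : LCode) : OpenPartialHomeomorph (ℝ × ℝ) M :=
  (isOpenEmbedding_Fm y).toOpenPartialHomeomorph (Fm y)

/-- the chart with the code `y` -/
noncomputable def chM (y : LCode) : OpenPartialHomeomorph M (EuclideanSpace ℝ (Fin 2)) :=
  (FmPH y).symm.trans planeHomeo.symm.toOpenPartialHomeomorph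

theorem mem_chM_source (q : M) : q ∈ (chM q.lc).source := by
  obtain ⟨p, hp⟩ := exists_Fm_eq q
  unfold chM FmPH
  rw [OpenPartialHomeomorph.trans_source, OpenPartialHomeomorph.symm_source,
    Topology.IsOpenEmbedding.toOpenPartialHomeomorph_target]
  refine ⟨⟨p, hp⟩, ?_⟩
  simp

noncomputable instance chartedSpace_M : ChartedSpace (EuclideanSpace ℝ (Fin 2)) M where
  atlas := Set.range chM
  chartAt q := chM q.lc
  mem_chart_source := mem_chM_source
  chart_mem_atlas q := ⟨q.lc, rfl⟩

end QDMan
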