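import Pool.Agent.Lib.QDMan.Lsc

/-!
# Chunk C6: `M` is countably metacompact

PROOF. `g q =` the least `k` with `q ∈ U k`; `{q | g q ≤ n} = ⋃ k ≤ n, U k` is open.  With `h` from
`exists_lsc_M g` put `W k = U k ∩ {q | k ≤ h q}` (index type `ℕ`): open, `q ∈ W (g q)`, and
`q ∈ W k` implies `k ≤ h q`.
-/

set_option autoImplicit false

open Set Filter Topology

namespace QDMan

theorem cm_M (U : ℕ → Set M) (hU : ∀ k, IsOpen (U k)) (hc : (⋃ k, U k) = Set.univ) :
    ∃ (ι : Type) (V : ι → Set M), (∀ i, IsOpen (V i)) ∧ (⋃ i, V i) = Set.univ ∧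
      (∀ i, ∃ k, V i ⊆ U k) ∧ (∀ x : M, {i : ι | x ∈ V i}.Finite) := by
  classical
  have hex : ∀ q : M, ∃ k, q ∈ U k := by
    intro q
    have : q ∈ ⋃ k, U k := by rw [hc]; trivial
    exact mem_iUnion.1 this
  obtain ⟨h, h1, h2⟩ := exists_lsc_M (fun q => Nat.find (hex q)) (by
    intro n
    have : {q : M | Nat.find (hex q) ≤ n} = ⋃ k ∈ Set.Iic n, U k := by
      ext q
      simp only [mem_ofPred_eq, mem_iUnion, Set.mem_Iic, exists_prop]
      rw [Nat.find_le_iff]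
    rw [this]
    exact isOpen_biUnion fun k _ => hU k)
  refine ⟨ℕ, fun k => U k ∩ {q | k ≤ h q}, fun k => (hU k).inter (h2 k), ?_,
    fun k => ⟨k, inter_subset_left⟩, fun q => ?_⟩
  · rw [Set.eq_univ_iff_forall]
    intro q
    exact mem_iUnion.2 ⟨Nat.find (hex q), Nat.find_spec (hex q), h1 q⟩
  · exact (Set.finite_Iic (h q)).subset fun k hk => hk.2

end QDMan
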