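import Mathlib

/-!
# A countably metacompact quasi-developable manifold which is not a Moore space (in ZFC)

Definitions of the countable level: codes of points, their type (`len`, `co`), their position
`pos` in the Cantor space, and the basic neighbourhoods `V x n`.
See README.md in this folder for the whole proof.
-/

set_option autoImplicit false

open Set

namespace QDMan

/-- Hereditary codes of points. `iso a b` is an isolated point of type `a` and position `b`;
`lpt b t x` is a limit point of position `b` and type `t` with ladder `x 0, x 1, ...`. -/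
inductive Code : Type
  | iso (a : ℕ → ℕ) (b : ℕ → Bool) : Code
  | lpt (b : ℕ → Bool) (t : List ℕ) (x : ℕ → Code) : Code

namespace Code

/-- position in the Cantor space -/
def pos : Code → ℕ → Bool
  | iso _ b => b
  | lpt b _ _ => b

/-- coordinates of the type (only those below `len` matter) -/
def co : Code → ℕ → ℕ
  | iso a _ => a
  | lpt _ t _ => fun i => t.getD i 0

/-- length of the type -/
def len : Code → ℕ∞
  | iso _ _ => ⊤
  | lpt _ t _ => (t.length : ℕ∞)

/-- limit points -/
def IsLim : Code → Prop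
  | iso _ _ => False
  | lpt _ _ _ => True

/-- basic neighbourhoods -/
def V : Code → ℕ → Set Code
  | iso a b, _ => {iso a b}
  | lpt b t x, n => insert (lpt b t x) (⋃ j ∈ Set.Ici n, V (x j) j)

end Code

open Code

/-- points whose type properly extends `t`, whose length is more than `n` and whose coordinate
number `t.length` is at least `n` -/
def Thin (t : List ℕ) (n : ℕ) : Set Code :=
  {x | (n : ℕ∞) < len x ∧ (t.length : ℕ∞) < len x ∧ (∀ i < t.length, co x i = t.getD i 0) ∧
    n ≤ co x t.length}

/-- agreement of the first `n` digits -/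
def Agree (n : ℕ) (b b' : ℕ → Bool) : Prop := ∀ i < n, b i = b' i

/-- the conditions on the ladder `x` of a limit point of position `b` and type `t` -/
def LadOK (b : ℕ → Bool) (t : List ℕ) (x : ℕ → Code) : Prop :=
  (∀ j, x j ∈ Thin t j ∧ Agree j (pos (x j)) b) ∧ StrictMono (fun j => co (x j) t.length)

@[simp] theorem V_iso (a : ℕ → ℕ) (b : ℕ → Bool) (n : ℕ) : V (iso a b) n = {iso a b} := rfl

theorem mem_V_lim {b : ℕ → Bool} {t : List ℕ} {x : ℕ → Code} {n : ℕ} {w : Code} :
    w ∈ V (lpt b t x) n ↔ w = lpt b t x ∨ ∃ j, n ≤ j ∧ w ∈ V (x j) j := by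
  simp [V]

@[simp] theorem isLim_lim (b : ℕ → Bool) (t : List ℕ) (x : ℕ → Code) : IsLim (lpt b t x) :=
  trivial

@[simp] theorem not_isLim_iso (a : ℕ → ℕ) (b : ℕ → Bool) : ¬ IsLim (iso a b) := fun h => h

@[simp] theorem pos_lim (b : ℕ → Bool) (t : List ℕ) (x : ℕ → Code) : pos (lpt b t x) = b := rfl

@[simp] theorem pos_iso (a : ℕ → ℕ) (b : ℕ → Bool) : pos (iso a b) = b := rfl

@[simp] theorem co_lim (b : ℕ → Bool) (t : List ℕ) (x : ℕ → Code) (i : ℕ) :
    co (lpt b t x) i = t.getD i 0 := rfl

@[simp] theorem co_iso (a : ℕ → ℕ) (b : ℕ → Bool) : co (iso a b) = a := rfl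

@[simp] theorem len_lim (b : ℕ → Bool) (t : List ℕ) (x : ℕ → Code) :
    len (lpt b t x) = (t.length : ℕ∞) := rfl

@[simp] theorem len_iso (a : ℕ → ℕ) (b : ℕ → Bool) : len (iso a b) = ⊤ := rfl

theorem Agree.symm {n : ℕ} {b b' : ℕ → Bool} (h : Agree n b b') : Agree n b' b :=
  fun i hi => (h i hi).symm

theorem Agree.trans {n : ℕ} {b b' b'' : ℕ → Bool} (h : Agree n b b') (h' : Agree n b' b'') :
    Agree n b b'' := fun i hi => (h i hi).trans (h' i hi)

theorem Agree.mono {m n : ℕ} {b b' : ℕ → Bool} (h : Agree n b b') (hm : m ≤ n) : Agree m b b' :=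
  fun i hi => h i (lt_of_lt_of_le hi hm)

theorem Agree.refl (n : ℕ) (b : ℕ → Bool) : Agree n b b := fun _ _ => rfl

end QDMan
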