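import Pool.Agent.Lib.QDMan.Legit

/-!
# Basic facts about the neighbourhoods `V x n`
-/

set_option autoImplicit false

open Set

namespace QDMan

open Code

theorem self_mem_V (x : Code) (n : ℕ) : x ∈ V x n := by
  cases x with
  | iso a b => simp
  | lpt b t x => exact mem_V_lim.2 (Or.inl rfl)

theorem V_antitone (x : Code) {m n : ℕ} (h : m ≤ n) : V x n ⊆ V x m := by
  intro w hw
  cases x with
  | iso a b => simpa using hw
  | lpt b t x =>
    rcases mem_V_lim.1 hw with h1 | ⟨j, hj, h1⟩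
    · exact mem_V_lim.2 (Or.inl h1)
    · exact mem_V_lim.2 (Or.inr ⟨j, h.trans hj, h1⟩)

theorem legit_of_mem {x w : Code} {n : ℕ} (hx : Legit x) (hw : w ∈ V x n) : Legit w := by
  induction x generalizing n with
  | iso a b =>
    rw [V_iso, mem_singleton_iff] at hw
    rw [hw]; exact hx
  | lpt b t x ih =>
    rcases mem_V_lim.1 hw with h1 | ⟨j, hj, h1⟩
    · rw [h1]; exact hx
    · exact ih j (hx.1 j) h1

theorem type_of_mem {x w : Code} {n : ℕ} (hx : Legit x) (hw : w ∈ V x n) :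
    len x ≤ len w ∧ ∀ i : ℕ, (i : ℕ∞) < len x → co w i = co x i := by
  induction x generalizing n with
  | iso a b =>
    rw [V_iso, mem_singleton_iff] at hw
    rw [hw]; exact ⟨le_rfl, fun _ _ => rfl⟩
  | lpt b t x ih =>
    rcases mem_V_lim.1 hw with h1 | ⟨j, hj, h1⟩
    · rw [h1]; exact ⟨le_rfl, fun _ _ => rfl⟩
    · obtain ⟨h2, h3⟩ := ih j (hx.1 j) h1
      obtain ⟨⟨h4, h5, h6, h7⟩, -⟩ := hx.2.2.1 j
      refine ⟨?_, fun i hi => ?_⟩
      · rw [len_lim]; exact h5.le.trans h2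
      · rw [len_lim] at hi
        rw [h3 i (hi.trans h5), co_lim]
        exact h6 i (by exact_mod_cast hi)

theorem thin_of_mem_lad {b : ℕ → Bool} {t : List ℕ} {x : ℕ → Code} {w : Code} {j : ℕ}
    (hz : Legit (lpt b t x)) (hw : w ∈ V (x j) j) :
    w ∈ Thin t j ∧ co w t.length = co (x j) t.length := by
  obtain ⟨h2, h3⟩ := type_of_mem (hz.1 j) hw
  obtain ⟨⟨h4, h5, h6, h7⟩, -⟩ := hz.2.2.1 j
  refine ⟨⟨h4.trans_le h2, h5.trans_le h2, fun i hi => ?_, ?_⟩, ?_⟩
  · rw [h3 i (lt_trans (by exact_mod_cast hi) h5)]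
    exact h6 i hi
  · rw [h3 _ h5]; exact h7
  · rw [h3 _ h5]

theorem thin_mono {t : List ℕ} {m n : ℕ} {w : Code} (hw : w ∈ Thin t n) (h : m ≤ n) :
    w ∈ Thin t m := by
  obtain ⟨h4, h5, h6, h7⟩ := hw
  exact ⟨lt_of_le_of_lt (by exact_mod_cast h) h4, h5, h6, h.trans h7⟩

theorem thin_of_mem_ne {b : ℕ → Bool} {t : List ℕ} {x : ℕ → Code} {w : Code} {n : ℕ}
    (hz : Legit (lpt b t x)) (hw : w ∈ V (lpt b t x) n) (hne : w ≠ lpt b t x) : w ∈ Thin t n := by
  rcases mem_V_lim.1 hw with h1 | ⟨j, hj, h1⟩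
  · exact absurd h1 hne
  · exact thin_mono (thin_of_mem_lad hz h1).1 hj

theorem agree_of_mem {x w : Code} {n : ℕ} (hx : Legit x) (hw : w ∈ V x n) :
    Agree n (pos w) (pos x) := by
  induction x generalizing n with
  | iso a b =>
    rw [V_iso, mem_singleton_iff] at hw
    rw [hw]; exact Agree.refl _ _
  | lpt b t x ih =>
    rcases mem_V_lim.1 hw with h1 | ⟨j, hj, h1⟩
    · rw [h1]; exact Agree.refl _ _
    · exact ((ih j (hx.1 j) h1).trans (hx.2.2.1 j).2).mono hj

theorem V_open {x w : Code} {n : ℕ} (hw : w ∈ V x n) : ∃ m, V w m ⊆ V x n := by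
  induction x generalizing n with
  | iso a b =>
    rw [V_iso, mem_singleton_iff] at hw
    rw [hw]; exact ⟨n, Subset.rfl⟩
  | lpt b t x ih =>
    rcases mem_V_lim.1 hw with h1 | ⟨j, hj, h1⟩
    · rw [h1]; exact ⟨n, Subset.rfl⟩
    · obtain ⟨m, hm⟩ := ih j h1
      exact ⟨m, fun v hv => mem_V_lim.2 (Or.inr ⟨j, hj, hm hv⟩)⟩

theorem not_mem_lad {b : ℕ → Bool} {t : List ℕ} {x : ℕ → Code} (hz : Legit (lpt b t x)) (j : ℕ) :
    lpt b t x ∉ V (x j) j := by
  intro h
  have := (thin_of_mem_lad hz h).1.2.1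
  simp at this

theorem disjoint_lad {b : ℕ → Bool} {t : List ℕ} {x : ℕ → Code} (hz : Legit (lpt b t x))
    {i j : ℕ} (h : i ≠ j) : Disjoint (V (x i) i) (V (x j) j) := by
  rw [Set.disjoint_left]
  intro w h1 h2
  have h3 := (thin_of_mem_lad hz h1).2
  have h4 := (thin_of_mem_lad hz h2).2
  exact h (hz.2.2.2.injective (h3.symm.trans h4))

theorem exists_not_mem_V {x w : Code} (hx : Legit x) (h : w ≠ x) : ∃ n, w ∉ V x n := by
  cases x with
  | iso a b => exact ⟨0, by simpa using h⟩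
  | lpt b t x =>
    refine ⟨co w t.length + 1, fun h1 => ?_⟩
    have := (thin_of_mem_ne hx h1 h).2.2.2
    omega

theorem exists_disjoint_V {x w : Code} (hx : Legit x) (hw : Legit w) (h : x ≠ w) :
    ∃ n, Disjoint (V x n) (V w n) := by
  cases x with
  | iso a b =>
    obtain ⟨n, hn⟩ := exists_not_mem_V hw h
    exact ⟨n, by simpa using hn⟩
  | lpt b t x =>
    cases w with
    | iso a' b' =>
      obtain ⟨n, hn⟩ := exists_not_mem_V hx h.symm
      exact ⟨n, by simpa using hn⟩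
    | lpt b' t' x' =>
      have hb : b ≠ b' := fun e => h (eq_of_pos_eq hx hw trivial trivial e)
      obtain ⟨i, hi⟩ := Function.ne_iff.1 hb
      refine ⟨i + 1, Set.disjoint_left.2 fun v h1 h2 => hi ?_⟩
      have h3 := agree_of_mem hx h1 i (Nat.lt_succ_self i)
      have h4 := agree_of_mem hw h2 i (Nat.lt_succ_self i)
      simp only [pos_lim] at h3 h4
      rw [← h3, ← h4]

theorem countable_V (x : Code) (n : ℕ) : (V x n).Countable := by
  induction x generalizing n with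
  | iso a b => simp
  | lpt b t x ih =>
    have : V (lpt b t x) n ⊆ insert (lpt b t x) (⋃ j, V (x j) j) := by
      intro w hw
      rcases mem_V_lim.1 hw with h1 | ⟨j, hj, h1⟩
      · exact Or.inl h1
      · exact Or.inr (mem_iUnion.2 ⟨j, h1⟩)
    exact ((countable_iUnion fun j => ih j j).insert _).mono this

/-- the length of a limit point is strictly smaller than that of the other points of `V` -/
theorem len_lt_of_mem_ne {b : ℕ → Bool} {t : List ℕ} {x : ℕ → Code} {w : Code} {n : ℕ}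
    (hz : Legit (lpt b t x)) (hw : w ∈ V (lpt b t x) n) (hne : w ≠ lpt b t x) :
    (t.length : ℕ∞) < len w := (thin_of_mem_ne hz hw hne).2.1

end QDMan
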