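import Pool.Agent.Lib.QDMan.Plane
import Pool.Agent.Lib.QDMan.VLem

/-!
# The chart maps `F x : ℝ × ℝ → Code × (ℝ × ℝ)`

The own part of a limit point `z` consists of the lower half plane `{s ≤ 0}` and the lines
`s = 1, 2, 3, ...`; the own part of an isolated point is the plane. The chart map `F z` of a limit
point is the identity on `{s ≤ 0}`, maps the line `s = 1/k` to the own line number `k` and the strip
`j < 1/s < j + 1` into the chart of the ladder point `x j`.
-/

set_option autoImplicit false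

open Set Filter Topology

namespace QDMan

open Code

/-- the shift of the chart of `y`: nothing for isolated points, `sig n` for limit points -/
noncomputable def sh : Code → ℕ → ℝ × ℝ → ℝ × ℝ
  | iso _ _, _, q => q
  | lpt _ _ _, n, q => sig n q

/-- the chart maps -/
noncomputable def F : Code → ℝ × ℝ → Code × (ℝ × ℝ)
  | iso a b, q => (iso a b, q)
  | lpt b t x, q =>
    if q.2 ≤ 0 then (lpt b t x, q)
    else if 1 / q.2 = ⌊1 / q.2⌋₊ then (lpt b t x, (q.1, 1 / q.2))
    else F (x ⌊1 / q.2⌋₊) (sh (x ⌊1 / q.2⌋₊) ⌊1 / q.2⌋₊ (embG b ⌊1 / q.2⌋₊ q))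

/-- own points -/
def Own : Code → ℝ × ℝ → Prop
  | iso _ _, _ => True
  | lpt _ _ _, q => q.2 ≤ 0 ∨ ∃ k : ℕ, 1 ≤ k ∧ q.2 = k

/-- low own points -/
def Low : Code → ℝ × ℝ → Prop
  | iso _ _, _ => True
  | lpt _ _ _, q => q.2 ≤ 0

@[simp] theorem sh_iso (a : ℕ → ℕ) (b : ℕ → Bool) (n : ℕ) (q : ℝ × ℝ) : sh (iso a b) n q = q := rfl

@[simp] theorem sh_lim (b : ℕ → Bool) (t : List ℕ) (x : ℕ → Code) (n : ℕ) (q : ℝ × ℝ) :
    sh (lpt b t x) n q = sig n q := rfl

@[simp] theorem F_iso (a : ℕ → ℕ) (b : ℕ → Bool) (q : ℝ × ℝ) : F (iso a b) q = (iso a b, q) := rfl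

theorem sh_low (y : Code) (n : ℕ) {q : ℝ × ℝ} (h : q.2 ≤ 0) : sh y n q = q := by
  cases y with
  | iso a b => rfl
  | lpt b t x => exact sig_low n h

theorem sh_injective (y : Code) (n : ℕ) : Function.Injective (sh y n) := by
  cases y with
  | iso a b => exact fun _ _ h => h
  | lpt b t x => exact sig_injective n

theorem continuous_sh (y : Code) (n : ℕ) : Continuous (sh y n) := by
  cases y with
  | iso a b => exact continuous_id
  | lpt b t x => exact continuous_sig n

theorem isOpen_image_sh (y : Code) (n : ℕ) {O : Set (ℝ × ℝ)} (hO : IsOpen O) :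
    IsOpen (sh y n '' O) := by
  cases y with
  | iso a b =>
    have : sh (iso a b) n '' O = O := by
      ext q; simp
    rw [this]; exact hO
  | lpt b t x => exact isOpen_image_sig n hO

theorem F_lim (b : ℕ → Bool) (t : List ℕ) (x : ℕ → Code) (q : ℝ × ℝ) :
    F (lpt b t x) q =
      if q.2 ≤ 0 then (lpt b t x, q)
      else if 1 / q.2 = ⌊1 / q.2⌋₊ then (lpt b t x, (q.1, 1 / q.2))
      else F (x ⌊1 / q.2⌋₊) (sh (x ⌊1 / q.2⌋₊) ⌊1 / q.2⌋₊ (embG b ⌊1 / q.2⌋₊ q)) := rfl

theorem F_low {y : Code} {q : ℝ × ℝ} (h : q.2 ≤ 0) : F y q = (y, q) := by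
  cases y with
  | iso a b => rfl
  | lpt b t x => rw [F_lim, if_pos h]

theorem F_line {b : ℕ → Bool} {t : List ℕ} {x : ℕ → Code} {q : ℝ × ℝ} {k : ℕ} (h0 : 0 < q.2)
    (h : 1 / q.2 = k) : F (lpt b t x) q = (lpt b t x, (q.1, (k : ℝ))) := by
  rw [F_lim, if_neg (not_le.2 h0), if_pos, h]
  rw [h, Nat.floor_natCast]

theorem F_strip {b : ℕ → Bool} {t : List ℕ} {x : ℕ → Code} {q : ℝ × ℝ} {j : ℕ}
    (h : q ∈ strip j) : F (lpt b t x) q = F (x j) (sh (x j) j (embG b j q)) := by
  obtain ⟨h0, h1, h2⟩ := h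
  have hf : ⌊1 / q.2⌋₊ = j := by
    rw [Nat.floor_eq_iff (by positivity)]
    exact ⟨h1.le, h2⟩
  rw [F_lim, if_neg (not_le.2 h0), if_neg, hf]
  rw [hf]; exact ne_of_gt h1

theorem F_sh_mem_V (y : Code) (n : ℕ) (q : ℝ × ℝ) : (F y (sh y n q)).1 ∈ V y n := by
  induction y generalizing n q with
  | iso a b => simp
  | lpt b t x ih =>
    rw [sh_lim]
    rcases le_or_gt q.2 0 with h | h
    · rw [sig_low n h, F_low h]; exact self_mem_V _ _
    · obtain ⟨h1, h2, h3⟩ := sig_high n h
      rcases cases3 (sig n q) with h4 | ⟨k, hk, h0, h4⟩ | ⟨j, hj⟩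
      · exact absurd h4 (not_le.2 h1)
      · rw [F_line h0 h4]; exact self_mem_V _ _
      · rw [F_strip hj]
        refine mem_V_lim.2 (Or.inr ⟨j, ?_, ih j j _⟩)
        have h5 := hj.2.2
        rw [h2] at h5
        have h6 : 0 < 1 / q.2 := by positivity
        have h7 : (n : ℝ) < j + 1 := by linarith
        have h8 : n < j + 1 := by exact_mod_cast h7
        omega

/-- points of the chart of `y` which are at most at height `1/n` are over `V y n` -/
theorem F_mem_V {y : Code} {q : ℝ × ℝ} {n : ℕ} (h : q.2 ≤ 0 ∨ (n : ℝ) < 1 / q.2) :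
    (F y q).1 ∈ V y n := by
  cases y with
  | iso a b => simp
  | lpt b t x =>
    rcases cases3 q with h4 | ⟨k, hk, h0, h4⟩ | ⟨j, hj⟩
    · rw [F_low h4]; exact self_mem_V _ _
    · rw [F_line h0 h4]; exact self_mem_V _ _
    · rw [F_strip hj]
      refine mem_V_lim.2 (Or.inr ⟨j, ?_, F_sh_mem_V _ _ _⟩)
      rcases h with h | h
      · exact absurd h (not_le.2 hj.1)
      · have h7 : (n : ℝ) < j + 1 := h.trans hj.2.2
        have h8 : n < j + 1 := by exact_mod_cast h7
        omega

theorem F_mem_V_zero (y : Code) (q : ℝ × ℝ) : (F y q).1 ∈ V y 0 := by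
  have h := F_sh_mem_V y 0 q
  cases y with
  | iso a b => simp
  | lpt b t x => rwa [sh_lim, sig_zero] at h

theorem F_legit {y : Code} (hy : Legit y) (q : ℝ × ℝ) : Legit (F y q).1 :=
  legit_of_mem hy (F_mem_V_zero y q)

theorem own_F (y : Code) (q : ℝ × ℝ) : Own (F y q).1 (F y q).2 := by
  induction y generalizing q with
  | iso a b => trivial
  | lpt b t x ih =>
    rcases cases3 q with h4 | ⟨k, hk, h0, h4⟩ | ⟨j, hj⟩
    · rw [F_low h4]; exact Or.inl h4
    · rw [F_line h0 h4]; exact Or.inr ⟨k, hk, rfl⟩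
    · rw [F_strip hj]; exact ih j _

theorem exists_F_eq {y : Code} {q : ℝ × ℝ} (h : Own y q) : ∃ p, F y p = (y, q) := by
  cases y with
  | iso a b => exact ⟨q, rfl⟩
  | lpt b t x =>
    rcases h with h | ⟨k, hk, h⟩
    · exact ⟨q, F_low h⟩
    · refine ⟨(q.1, 1 / (k : ℝ)), ?_⟩
      have hk' : (0 : ℝ) < k := by exact_mod_cast hk
      rw [F_line (k := k) (by simpa using hk') (by simp)]
      rw [← h]

theorem F_injective {y : Code} (hy : Legit y) : Function.Injective (F y) := by
  induction y with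
  | iso a b =>
    intro p q h
    simpa using h
  | lpt b t x ih =>
    have key : ∀ (p : ℝ × ℝ) (j : ℕ), p ∈ strip j → (F (lpt b t x) p).1 ∈ V (x j) j := by
      intro p j hj
      rw [F_strip hj]; exact F_sh_mem_V _ _ _
    intro p q h
    have hs : ∀ (p q : ℝ × ℝ) (j : ℕ), p ∈ strip j → F (lpt b t x) p = F (lpt b t x) q →
        q ∈ strip j := by
      intro p q j hj h
      have h1 := key p j hj
      rcases cases3 q with h4 | ⟨k, hk, h0, h4⟩ | ⟨i, hi⟩
      · rw [h, F_low h4] at h1; exact absurd h1 (not_mem_lad hy j)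
      · rw [h, F_line h0 h4] at h1; exact absurd h1 (not_mem_lad hy j)
      · by_cases hij : i = j
        · rw [← hij]; exact hi
        · rw [h] at h1
          exact absurd h1 (Set.disjoint_left.1 (disjoint_lad hy hij) (key q i hi))
    rcases cases3 p with h4 | ⟨k, hk, h0, h4⟩ | ⟨j, hj⟩
    · rcases cases3 q with h5 | ⟨k', hk', h0', h5⟩ | ⟨i, hi⟩
      · rw [F_low h4, F_low h5] at h
        exact (Prod.ext_iff.1 h).2
      · rw [F_low h4, F_line h0' h5] at h
        have h6 := (Prod.ext_iff.1 (Prod.ext_iff.1 h).2).2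
        simp only at h6
        have h7 : (1 : ℝ) ≤ k' := by exact_mod_cast hk'
        linarith
      · exact absurd (hs q p i hi h.symm).1 (not_lt.2 h4)
    · rcases cases3 q with h5 | ⟨k', hk', h0', h5⟩ | ⟨i, hi⟩
      · rw [F_low h5, F_line h0 h4] at h
        have h6 := (Prod.ext_iff.1 (Prod.ext_iff.1 h).2).2
        simp only at h6
        have h7 : (1 : ℝ) ≤ k := by exact_mod_cast hk
        linarith
      · rw [F_line h0' h5, F_line h0 h4] at h
        have h6 := (Prod.ext_iff.1 h).2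
        simp only [Prod.mk.injEq] at h6
        refine Prod.ext h6.1 ?_
        have h7 : 1 / p.2 = 1 / q.2 := by rw [h4, h5, h6.2]
        field_simp at h7
        exact h7.symm
      · have h6 := (hs q p i hi h.symm)
        have h7 := h6.2.1
        have h8 := h6.2.2
        rw [h4] at h7 h8
        have h9 : i < k := by exact_mod_cast h7
        have h10 : k < i + 1 := by exact_mod_cast h8
        omega
    · have hj' := hs p q j hj h
      rw [F_strip hj, F_strip hj'] at h
      exact injOn_embG b j hj hj' (sh_injective _ _ (ih j (hy.1 j) h))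

/-- a point of the chart of a limit point which is not an own point of it is in a strip -/
theorem mem_strip_of_ne {b : ℕ → Bool} {t : List ℕ} {x : ℕ → Code} {p : ℝ × ℝ}
    (h : (F (lpt b t x) p).1 ≠ lpt b t x) : ∃ j, p ∈ strip j := by
  rcases cases3 p with h1 | ⟨k, hk, h0, h1⟩ | h1
  · exact absurd (by rw [F_low h1]) h
  · exact absurd (by rw [F_line h0 h1]) h
  · exact h1

end QDMan
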