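import Pool.Agent.Lib.QDMan.Nhds

/-!
# Chunk T3: `M` is Hausdorff

PROOF. Let `q ≠ q'`, `x = q.code`, `w = q'.code`. It is enough to find properties holding
eventually at `𝓝 q` and at `𝓝 q'` which exclude each other (`t2_iff_nhds`/`disjoint_iff`, or
`t2Space_iff_disjoint_nhds` with `Filter.disjoint_iff`).
(0) `x = w`: then `q.lc = q'.lc`, both are in the image of the same chart, an open embedding of the
plane: separate the preimages and take images.
(1) `x ≠ w`, both low: `exists_disjoint_V` and `low_nhds`.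
(2) `x ≠ w`, `q` on a line (`line_nhds_M`, ladder `y`, line `k`, constant `C`), `q'` low: choose `n`
such that every one of `x`, `y k`, `y (k-1)` that is different from `w` is not in `V w n`
(`exists_not_mem_V`, `V_antitone`), and `A₀` from `own_bdd_nhds q'`; `A = A₀ + 1`. A common point
`v` has `v.code ∈ V w n`, so `v.code = y j = w` and `A ≤ |v.crd.1| ≤ A₀`.
(3) `x ≠ w`, both on lines, directions `theta b ≠ theta b'` (`eq_of_pos_eq`, `theta_injective`),
constants `C`, `C'`. A common point `v` is in the second alternative for both (sign of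
`v.crd.2`; codes), so `|theta b - theta b'| * |v.crd.1| ≤ C + C'`; choose `A` larger.
-/

set_option autoImplicit false

open Set Filter Topology

namespace QDMan

open Code

theorem disjoint_of_ev {q q' : M} {P P' : M → Prop} (h : ∀ᶠ v in 𝓝 q, P v)
    (h' : ∀ᶠ v in 𝓝 q', P' v) (H : ∀ v, P v → P' v → False) : Disjoint (𝓝 q) (𝓝 q') :=
  Filter.disjoint_iff.2 ⟨{v | P v}, h, {v | P' v}, h', Set.disjoint_left.2 fun v h1 h2 => H v h1 h2⟩

/-- a point on a line and a low point over another code -/
theorem disjoint_line_low {q q' : M} (hne : q.code ≠ q'.code) (h : ¬ Low q.code q.crd)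
    (h' : Low q'.code q'.crd) : Disjoint (𝓝 q) (𝓝 q') := by
  obtain ⟨b, t, x, k, C, hq, hk, hk2, H⟩ := line_nhds_M h
  obtain ⟨A₀, hA₀⟩ := own_bdd_nhds q'
  -- a neighbourhood of the code of q' avoiding the relevant codes
  have hav : ∀ y : Code, ∃ n, y ≠ q'.code → y ∉ V q'.code n := by
    intro y
    by_cases hy : y = q'.code
    · exact ⟨0, fun h => absurd hy h⟩
    · obtain ⟨n, hn⟩ := exists_not_mem_V q'.legit hy
      exact ⟨n, fun _ => hn⟩
  obtain ⟨n₀, hn₀⟩ := hav q.code
  obtain ⟨n₁, hn₁⟩ := hav (x k)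
  obtain ⟨n₂, hn₂⟩ := hav (x (k - 1))
  set n := max n₀ (max n₁ n₂) with hn
  refine disjoint_of_ev (H (A₀ + 1)) ((low_nhds h' n).and hA₀) ?_
  rintro v (⟨h1, -⟩ | ⟨j, hj, h1, h2, -, -⟩) ⟨h3, h4⟩
  · rw [h1] at h3
    exact hn₀ hne (V_antitone _ (le_max_left _ _) h3)
  · have h5 : x j = q'.code := by
      by_contra hc
      rw [h1] at h3
      rcases hj with rfl | hj
      · exact hn₁ hc (V_antitone _ ((le_max_left _ _).trans (le_max_right _ _)) h3)
      · have : j = k - 1 := by omega
        subst this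
        exact hn₂ hc (V_antitone _ ((le_max_right _ _).trans (le_max_right _ _)) h3)
    have h6 := h4 (h1.trans h5)
    linarith

theorem disjoint_line_line {q q' : M} (hne : q.code ≠ q'.code) (h : ¬ Low q.code q.crd)
    (h' : ¬ Low q'.code q'.crd) : Disjoint (𝓝 q) (𝓝 q') := by
  obtain ⟨b, t, x, k, C, hq, hk, hk2, H⟩ := line_nhds_M h
  obtain ⟨b', t', x', k', C', hq', hk', hk2', H'⟩ := line_nhds_M h'
  have hbb : b ≠ b' := by
    intro hb
    apply hne
    apply eq_of_pos_eq q.legit q'.legit
    · rw [hq]; trivial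
    · rw [hq']; trivial
    · rw [hq, hq']; exact hb
  have hθ : 0 < |theta b - theta b'| := abs_pos.2 (sub_ne_zero.2 (theta_injective.ne hbb))
  have hk0 : (1 : ℝ) ≤ k := by exact_mod_cast hk
  have hk0' : (1 : ℝ) ≤ k' := by exact_mod_cast hk'
  refine disjoint_of_ev (H ((C + C') / |theta b - theta b'| + 1)) (H' 0) ?_
  rintro v (⟨h1, h2⟩ | ⟨j, hj, h1, h2, h3, h4⟩) (⟨h1', h2'⟩ | ⟨j', hj', h1', h2', h3', h4'⟩)
  · exact hne (h1.symm.trans h1')
  · rw [h2] at h3'; linarith
  · rw [h2'] at h3; linarith
  · have h5 : |theta b - theta b'| * |v.crd.1| ≤ C + C' := by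
      have h6 : (theta b - theta b') * |v.crd.1| =
          (v.crd.2 + theta b * |v.crd.1|) - (v.crd.2 + theta b' * |v.crd.1|) := by ring
      have h7 : |(theta b - theta b') * abs v.crd.1| = |theta b - theta b'| * |v.crd.1| := by
        rw [abs_mul, abs_abs]
      rw [← h7, h6]
      refine (abs_sub _ _).trans (add_le_add h4 h4')
    have h8 : |theta b - theta b'| * ((C + C') / |theta b - theta b'| + 1) ≤
        |theta b - theta b'| * |v.crd.1| := mul_le_mul_of_nonneg_left h2 hθ.le
    have h9 : |theta b - theta b'| * ((C + C') / |theta b - theta b'| + 1) =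
        C + C' + |theta b - theta b'| := by
      field_simp
    linarith

instance t2_M : T2Space M := by
  rw [t2Space_iff_disjoint_nhds]
  intro q q' hne
  by_cases hc : q.code = q'.code
  · -- same chart
    obtain ⟨p, hp⟩ := exists_Fm_eq q
    obtain ⟨p', hp'⟩ := exists_Fm_eq q'
    have hlc : q.lc = q'.lc := Subtype.ext hc
    rw [← hlc] at hp'
    have hpp : p ≠ p' := by
      rintro rfl
      exact hne (hp.symm.trans hp')
    rw [← hp, ← hp', nhds_Fm, nhds_Fm]
    exact (Filter.disjoint_map (Fm_injective _)).2 (disjoint_nhds_nhds.2 hpp)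
  · by_cases h : Low q.code q.crd
    · by_cases h' : Low q'.code q'.crd
      · obtain ⟨n, hn⟩ := exists_disjoint_V q.legit q'.legit hc
        exact disjoint_of_ev (low_nhds h n) (low_nhds h' n) fun v h1 h2 =>
          Set.disjoint_left.1 hn h1 h2
      · exact (disjoint_line_low (Ne.symm hc) h' h).symm
    · by_cases h' : Low q'.code q'.crd
      · exact disjoint_line_low hc h h'
      · exact disjoint_line_line hc h h'

end QDMan
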