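import Pool.Agent.Lib.QDMan.FMap

/-!
# Chunk C1: the key inequality and the reachable points

PROOF of `key`: structural induction on `y`, for all `n`, `p`. Let `ρ` be the radius of
`F y (sh y n p)`. `y = iso`: `sh y n p = p`, `F y p = (y, p)`, `ρ = max |p.1| |p.2|`. Let
`y = lpt b t x`. If `p.2 ≤ 0`: `sh y n p = p`, `F y p = (y, p)` (`sh_low`, `F_low`),
`ρ = max |p.1| (-p.2)`. Let `p.2 > 0` and `q = sig n p` (`sig_high`: `1/q.2 = 1/p.2 + n`,
`q.1 = p.1`). By `cases3 q`: on a line `1/q.2 = k`: `F y q = (y, (p.1, k))`, `ρ ≥ |p.1|`,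
`1/p.2 = k - n` is a positive integer so `p.2 ≤ 1 ≤ 3 max 1 ρ`.
In a strip `j` (`j ≥ n`): `F y q = F (x j) (sh (x j) j (τ, s))` with `r = 1/q.2 - j ∈ (0,1)`,
`τ = tau r`, `s = psi p.1 - theta b * |τ|`. By induction `|τ| ≤ max 1 ρ`, `s ≤ 3 max 1 ρ`,
`-s ≤ ρ`. If `p.1 ≥ 0` then `psi p.1 = 4 p.1 ≤ 3 max 1 ρ + |τ| ≤ 4 max 1 ρ`. If `p.1 < 0` then
`psi p.1 = p.1`, `-p.1 = -s - theta b * |τ| ≤ ρ`.  Bound for `p.2`: if `j > n` then
`1/p.2 = r + j - n ≥ 1`. If `j = n` then `p.2 = 1/r` and `1/r ≤ 2 + |τ|`: if `r ≥ 1/2` then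
`1/r ≤ 2`, otherwise `1/(1-r) ≤ 2` and `1/r = τ + 1/(1-r)`.  (`-p.2 ≤ 0 ≤ ρ`.)

PROOF of `exists_F_sh_eq`: structural induction on `y`. `w = y`: `p = q` (`Low`), by `sh_low`,
`F_low` (or `iso`). `w ∈ V (x j) j`, `j ≥ n`: by induction `F (x j) (sh (x j) j p) = (w, q)`,
`exists_embG_eq`: `p = embG b j p'`, `p' ∈ strip j`, `F_strip`, and `p' = sig n p''` by
`exists_sig_eq` as `1 / p'.2 > j ≥ n`.
-/

set_option autoImplicit false

open Set Filter Topology

namespace QDMan

open Code

/-- radius of a point in its own part -/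
noncomputable def rad : Code → ℝ × ℝ → ℝ
  | iso _ _, q => max |q.1| |q.2|
  | lpt _ _ _, q => max |q.1| (-q.2)

@[simp] theorem rad_iso (a : ℕ → ℕ) (b : ℕ → Bool) (q : ℝ × ℝ) :
    rad (iso a b) q = max |q.1| |q.2| := rfl

@[simp] theorem rad_lpt (b : ℕ → Bool) (t : List ℕ) (x : ℕ → Code) (q : ℝ × ℝ) :
    rad (lpt b t x) q = max |q.1| (-q.2) := rfl

theorem abs_fst_le_rad (y : Code) (q : ℝ × ℝ) : |q.1| ≤ rad y q := by
  cases y with
  | iso a b => exact le_max_left _ _
  | lpt b t x => exact le_max_left _ _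

theorem rad_nonneg (y : Code) (q : ℝ × ℝ) : 0 ≤ rad y q :=
  (abs_nonneg _).trans (abs_fst_le_rad y q)

theorem key (y : Code) (n : ℕ) (p : ℝ × ℝ) :
    |p.1| ≤ max 1 (rad (F y (sh y n p)).1 (F y (sh y n p)).2) ∧
    p.2 ≤ 3 * max 1 (rad (F y (sh y n p)).1 (F y (sh y n p)).2) ∧
    -p.2 ≤ rad (F y (sh y n p)).1 (F y (sh y n p)).2 := by
  induction y generalizing n p with
  | iso a b =>
    simp only [sh_iso, F_iso, rad_iso]
    have h1 : |p.1| ≤ max |p.1| |p.2| := le_max_left _ _
    have h2 : |p.2| ≤ max |p.1| |p.2| := le_max_right _ _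
    have h3 : max |p.1| |p.2| ≤ max 1 (max |p.1| |p.2|) := le_max_right _ _
    have h4 : (0 : ℝ) ≤ max 1 (max |p.1| |p.2|) := le_trans zero_le_one (le_max_left _ _)
    refine ⟨h1.trans h3, ?_, ?_⟩
    · linarith [le_abs_self p.2]
    · linarith [neg_abs_le p.2]
  | lpt b t x ih =>
    rcases le_or_gt p.2 0 with hlow | hhigh
    · rw [sh_low _ _ hlow, F_low hlow]
      simp only [rad_lpt]
      have h1 : |p.1| ≤ max |p.1| (-p.2) := le_max_left _ _
      have h2 : -p.2 ≤ max |p.1| (-p.2) := le_max_right _ _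
      have h3 : max |p.1| (-p.2) ≤ max 1 (max |p.1| (-p.2)) := le_max_right _ _
      have h4 : (0 : ℝ) ≤ max 1 (max |p.1| (-p.2)) := le_trans zero_le_one (le_max_left _ _)
      exact ⟨h1.trans h3, by linarith, h2⟩
    · rw [sh_lim]
      obtain ⟨h1, h2, h3⟩ := sig_high n hhigh
      set q := sig n p with hq
      set ρ := rad (F (lpt b t x) q).1 (F (lpt b t x) q).2 with hρ
      have hρ0 : 0 ≤ ρ := rad_nonneg _ _
      have hM1 : (1 : ℝ) ≤ max 1 ρ := le_max_left _ _
      have hMρ : ρ ≤ max 1 ρ := le_max_right _ _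
      set Mx := max 1 ρ with hMx
      have h0 : -p.2 ≤ ρ := by linarith
      have hinv : 0 < 1 / p.2 := by positivity
      have hle1 : 1 ≤ 1 / p.2 → p.2 ≤ 1 := by
        intro h
        rwa [le_div_iff₀ hhigh, one_mul] at h
      rcases cases3 q with h4 | ⟨k, hk, hpos, h4⟩ | ⟨j, hj⟩
      · exact absurd h4 (not_le.2 h1)
      · have h5 : ρ = max |q.1| (-(k : ℝ)) := by
          rw [hρ, F_line hpos h4, rad_lpt]
        have h6 : |p.1| ≤ ρ := by rw [h5, ← h3]; exact le_max_left _ _
        refine ⟨h6.trans hMρ, ?_, h0⟩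
        have h7 : 1 / p.2 = (k : ℝ) - n := by rw [← h4, h2]; ring
        have h8 : (n : ℝ) < k := by linarith
        have h9 : n < k := by exact_mod_cast h8
        have h10 : (n : ℝ) + 1 ≤ k := by exact_mod_cast h9
        have h11 : p.2 ≤ 1 := hle1 (by rw [h7]; linarith)
        linarith
      · obtain ⟨i1, i2, i3⟩ := ih j j (embG b j q)
        have h5 : ρ = rad (F (x j) (sh (x j) j (embG b j q))).1
            (F (x j) (sh (x j) j (embG b j q))).2 := by
          rw [hρ, F_strip hj]
        rw [← h5] at i1 i2 i3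
        have hr0 := hj.2.1
        have hr1 := hj.2.2
        have hth := theta_pos b
        have hth1 := theta_lt_one b
        set r := 1 / q.2 - j with hr
        have e1 : (embG b j q).1 = tau r := rfl
        have e2 : (embG b j q).2 = psi q.1 - theta b * |tau r| := rfl
        rw [e1] at i1
        rw [e2] at i2 i3
        have hτ : 0 ≤ |tau r| := abs_nonneg _
        have hθτ : theta b * |tau r| ≤ Mx := by nlinarith
        have hθτ0 : 0 ≤ theta b * |tau r| := by positivity
        refine ⟨?_, ?_, h0⟩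
        · rw [← h3]
          rcases le_or_gt 0 q.1 with hu | hu
          · have h6 : psi q.1 = 4 * q.1 := by
              unfold psi; exact max_eq_right (by linarith)
            rw [h6] at i2
            rw [abs_of_nonneg hu]
            change 4 * q.1 - theta b * |tau r| ≤ 3 * Mx at i2
            linarith
          · have h6 : psi q.1 = q.1 := by
              unfold psi; exact max_eq_left (by linarith)
            rw [h6] at i3
            rw [abs_of_neg hu]
            linarith
        · have h6 : (n : ℝ) < j + 1 := by linarith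
          have h7 : n < j + 1 := by exact_mod_cast h6
          have h8 : n ≤ j := Nat.lt_succ_iff.1 h7
          rcases h8.lt_or_eq with h9 | h9
          · have h10 : (n : ℝ) + 1 ≤ j := by exact_mod_cast h9
            have h11 : p.2 ≤ 1 := hle1 (by linarith)
            linarith
          · have h10 : 1 / p.2 = r := by
              rw [hr, h2, h9]; ring
            have hrpos : 0 < r := by rw [← h10]; exact hinv
            have hr1' : r < 1 := by rw [hr]; linarith
            have h11 : p.2 = 1 / r := by rw [← h10, one_div_one_div]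
            have h12 : 1 / r ≤ 2 + |tau r| := by
              rcases le_or_gt (1 / 2) r with h13 | h13
              · have : 1 / r ≤ 2 := by
                  rw [div_le_iff₀ hrpos]; linarith
                linarith
              · have h14 : 1 / (1 - r) ≤ 2 := by
                  rw [div_le_iff₀ (by linarith)]; linarith
                have h15 : tau r = 1 / r - 1 / (1 - r) := rfl
                have h16 := le_abs_self (tau r)
                linarith
            change |tau r| ≤ Mx at i1
            linarith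

theorem key_F (y : Code) (p : ℝ × ℝ) : |p.1| ≤ max 1 (rad (F y p).1 (F y p).2) := by
  have h := (key y 0 p).1
  cases y with
  | iso a b => exact h
  | lpt b t x => rwa [sh_lim, sig_zero] at h

theorem exists_F_sh_eq {y w : Code} {n : ℕ} (hw : w ∈ V y n) {q : ℝ × ℝ} (hq : Low w q) :
    ∃ p, F y (sh y n p) = (w, q) := by
  induction y generalizing n with
  | iso a b =>
    rw [V_iso, mem_singleton_iff] at hw
    exact ⟨q, by rw [hw]; rfl⟩
  | lpt b t x ih =>
    rcases mem_V_lim.1 hw with h1 | ⟨j, hj, h1⟩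
    · subst h1
      have hq' : q.2 ≤ 0 := hq
      exact ⟨q, by rw [sh_low _ _ hq', F_low hq']⟩
    · obtain ⟨p, hp⟩ := ih j h1
      obtain ⟨p', hp', he⟩ := exists_embG_eq b j p
      have h2 : (n : ℝ) < 1 / p'.2 :=
        lt_of_le_of_lt (by exact_mod_cast hj) hp'.2.1
      obtain ⟨p'', hp''⟩ := exists_sig_eq (q := p') (Or.inr h2)
      exact ⟨p'', by rw [sh_lim, hp'', F_strip hp', he, hp]⟩

end QDMan
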