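import Pool.Agent.Lib.QDMan.VLem

/-!
# Chunk K2: normal points and the bound `R`

PROOF. For `t : List ℕ`, `n : ℕ` let
`Fs t n = {x | Legit x ∧ IsLim x ∧ x ∈ Thin t n ∧ n ≤ G x}` (antitone in `n`) and
`P t = {b | ∀ n, ∃ x ∈ Fs t n, Agree n (pos x) b}`.

(0) `P t` is countable: otherwise `catch_lim t (Fs t)` gives a legitimate `z = lpt b t x` with
`x j ∈ Fs t j`, so `x j ∈ V z n` for `j ≥ n`, `IsLim (x j)` and `j ≤ G (x j)`, against `hG z`.

(1) For `b ∉ P t` let `N t b` be the least `n` such that `¬ ∃ x ∈ Fs t n, Agree n (pos x) b`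
(`Nat.find`, or `sInf`). If `b ∉ P t` and `Agree (N t b) b' b`, then `b' ∉ P t` and `N t b' = N t b`.

(2) If `b ∉ P t`, `x` is a legitimate limit point in `Thin t (N t b)` and `pos x = b` then
`G x < N t b`.

Let `pre x k = (List.range k).map (co x)` (first `k` coordinates of the type). Let
`Stop x k` be: `pos x ∈ P (pre x k)` or `len x ≤ k` or `N (pre x k) (pos x) ≤ co x k`.
For `x` with `Stop x k` for some `k` (e.g. all limit points: `len x` is finite) let `v x` be the
least such `k`; so `v x ≤ len x`.  `x` is normal (`x ∈ Nrm`) if some `Stop x k` holds and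
`pos x ∉ P (pre x (v x))`. Put `A x = N (pre x (v x)) (pos x)` and `R x = max (A x) (v x)`.

(3) The legitimate limit points that are not normal have `pos x ∈ ⋃ t, P t`, a countable set, and
`pos` is injective on legitimate limit points (`eq_of_pos_eq`): so there are countably many.

(4) Let `x = lpt b t y` be legitimate and normal, `n ≥ N (pre x k) (pos x)` for all `k ≤ v x`, and
`w ∈ V x n`.  By `type_of_mem` and `agree_of_mem`: `pre w k = pre x k` for `k ≤ v x ≤ len x`, and
`N (pre x k) (pos w) = N (pre x k) (pos x)`, `pos w ∉ P (pre x k)` by (1). For `k < v x`: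
`¬ Stop x k`, so `k < len x ≤ len w`, `co w k = co x k`, so `¬ Stop w k`.
For `k = v x`: if `k < len x` then `co w k = co x k` and `Stop w k`. If `k = len x = t.length` and
`w ≠ x` then `w ∈ Thin t n` (`thin_of_mem_ne`), so `co w k ≥ n ≥ N (pre x k) (pos w)`, `Stop w k`.
Hence `v w = v x`, `w` is normal and `A w = A x`, `R w = R x`.

(5) Let `x` be a legitimate normal limit point, `k = v x`. If `k = len x` then `len x ≤ R x`.
Otherwise `A x ≤ co x k`. If `len x > R x` then `x ∈ Thin (pre x k) (A x)`, so `G x < A x` by (2).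
-/

set_option autoImplicit false

open Set

namespace QDMan

open Code

/-- the points counted for the type `t` at level `n` -/
def Fs (G : Code → ℕ) (t : List ℕ) (n : ℕ) : Set Code :=
  {x | Legit x ∧ IsLim x ∧ x ∈ Thin t n ∧ n ≤ G x}

/-- their limit positions -/
def Ps (G : Code → ℕ) (t : List ℕ) : Set (ℕ → Bool) :=
  {b | ∀ n, ∃ x ∈ Fs G t n, Agree n (pos x) b}

theorem Fs_antitone (G : Code → ℕ) (t : List ℕ) : Antitone (Fs G t) := by
  intro m n hmn x hx
  exact ⟨hx.1, hx.2.1, thin_mono hx.2.2.1 hmn, hmn.trans hx.2.2.2⟩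

theorem countable_Ps {G : Code → ℕ}
    (hG : ∀ z, Legit z → IsLim z → ∃ n B : ℕ, ∀ w ∈ V z n, IsLim w → G w ≤ B) (t : List ℕ) :
    (Ps G t).Countable := by
  by_contra hu
  obtain ⟨b, x, hL, hx⟩ := catch_lim t (Fs G t) (Fs_antitone G t) (fun n x hx => hx.2.2.1)
    (fun n x hx => hx.1) hu
  obtain ⟨n, B, hB⟩ := hG (lpt b t x) hL trivial
  have h1 := hB (x (max n (B + 1)))
    (mem_V_lim.2 (Or.inr ⟨max n (B + 1), le_max_left _ _, self_mem_V _ _⟩)) (hx _).2.1
  have h2 := (hx (max n (B + 1))).2.2.2
  omega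

/-- the locally constant bound -/
noncomputable def Nn (G : Code → ℕ) (t : List ℕ) (b : ℕ → Bool) : ℕ :=
  sInf {n | ¬ ∃ x ∈ Fs G t n, Agree n (pos x) b}

theorem Nn_spec {G : Code → ℕ} {t : List ℕ} {b : ℕ → Bool} (h : b ∉ Ps G t) :
    ¬ ∃ x ∈ Fs G t (Nn G t b), Agree (Nn G t b) (pos x) b := by
  have hne : {n | ¬ ∃ x ∈ Fs G t n, Agree n (pos x) b}.Nonempty := by
    by_contra hc
    rw [Set.not_nonempty_iff_eq_empty] at hc
    apply h
    intro n
    by_contra hn
    have : n ∈ {n | ¬ ∃ x ∈ Fs G t n, Agree n (pos x) b} := hn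
    rw [hc] at this
    exact this
  exact Nat.sInf_mem hne

theorem Nn_min {G : Code → ℕ} {t : List ℕ} {b : ℕ → Bool} {n : ℕ} (h : n < Nn G t b) :
    ∃ x ∈ Fs G t n, Agree n (pos x) b := by
  by_contra hc
  exact Nat.notMem_of_lt_sInf h hc

theorem Nn_le {G : Code → ℕ} {t : List ℕ} {b : ℕ → Bool} {n : ℕ}
    (h : ¬ ∃ x ∈ Fs G t n, Agree n (pos x) b) : Nn G t b ≤ n := Nat.sInf_le h

theorem Nn_local {G : Code → ℕ} {t : List ℕ} {b b' : ℕ → Bool} (h : b ∉ Ps G t)
    (ha : Agree (Nn G t b) b' b) : b' ∉ Ps G t ∧ Nn G t b' = Nn G t b := by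
  have h1 : ¬ ∃ x ∈ Fs G t (Nn G t b), Agree (Nn G t b) (pos x) b' := by
    rintro ⟨x, hx, hxa⟩
    exact Nn_spec h ⟨x, hx, hxa.trans ha⟩
  have h2 : b' ∉ Ps G t := fun hc => h1 (hc _)
  refine ⟨h2, le_antisymm (Nn_le h1) ?_⟩
  by_contra hc
  push Not at hc
  obtain ⟨x, hx, hxa⟩ := Nn_min hc
  exact Nn_spec h2 ⟨x, hx, hxa.trans ((ha.mono hc.le).symm)⟩

theorem lt_Nn {G : Code → ℕ} {t : List ℕ} {x : Code} (h : pos x ∉ Ps G t) (hL : Legit x)
    (hl : IsLim x) (hT : x ∈ Thin t (Nn G t (pos x))) : G x < Nn G t (pos x) := by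
  by_contra hc
  push Not at hc
  exact Nn_spec h ⟨x, ⟨hL, hl, hT, hc⟩, Agree.refl _ _⟩

/-- the first `k` coordinates of the type -/
def pre (x : Code) (k : ℕ) : List ℕ := (List.range k).map (co x)

@[simp] theorem length_pre (x : Code) (k : ℕ) : (pre x k).length = k := by simp [pre]

theorem getD_pre (x : Code) {k i : ℕ} (h : i < k) : (pre x k).getD i 0 = co x i := by
  simp [pre, List.getD_eq_getElem?_getD, h]

theorem pre_congr {x w : Code} {k : ℕ} (h : ∀ i < k, co w i = co x i) : pre w k = pre x k := by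
  apply List.map_congr_left
  intro i hi
  exact h i (List.mem_range.1 hi)

/-- stopping levels -/
def Stop (G : Code → ℕ) (x : Code) (k : ℕ) : Prop :=
  pos x ∈ Ps G (pre x k) ∨ len x ≤ (k : ℕ∞) ∨ Nn G (pre x k) (pos x) ≤ co x k

/-- the first stopping level -/
noncomputable def vv (G : Code → ℕ) (x : Code) : ℕ := sInf {k | Stop G x k}

theorem Stop_vv {G : Code → ℕ} {x : Code} (h : ∃ k, Stop G x k) : Stop G x (vv G x) :=
  Nat.sInf_mem (s := {k | Stop G x k}) h

theorem not_Stop {G : Code → ℕ} {x : Code} {k : ℕ} (h : k < vv G x) : ¬ Stop G x k :=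
  Nat.notMem_of_lt_sInf h

theorem vv_eq {G : Code → ℕ} {x : Code} {k : ℕ} (h : Stop G x k) (h' : ∀ i < k, ¬ Stop G x i) :
    vv G x = k := by
  apply le_antisymm (Nat.sInf_le h)
  by_contra hc
  push Not at hc
  exact h' _ hc (Stop_vv ⟨k, h⟩)

theorem exists_normal (G : Code → ℕ)
    (hG : ∀ z, Legit z → IsLim z → ∃ n B : ℕ, ∀ w ∈ V z n, IsLim w → G w ≤ B) :
    ∃ (Nrm : Set Code) (R : Code → ℕ),
      {x | Legit x ∧ IsLim x ∧ x ∉ Nrm}.Countable ∧
      ∀ x ∈ Nrm, Legit x → IsLim x →
        (∃ n, ∀ w ∈ V x n, w ∈ Nrm ∧ R w = R x) ∧ (G x ≤ R x ∨ len x ≤ (R x : ℕ∞)) := by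
  refine ⟨{x | (∃ k, Stop G x k) ∧ pos x ∉ Ps G (pre x (vv G x))},
    fun x => max (Nn G (pre x (vv G x)) (pos x)) (vv G x), ?_, ?_⟩
  · -- countably many points are not normal
    have h1 : (⋃ t : List ℕ, Ps G t).Countable := countable_iUnion fun t => countable_Ps hG t
    have h2 : Set.InjOn pos {x | Legit x ∧ IsLim x ∧
        x ∉ {x | (∃ k, Stop G x k) ∧ pos x ∉ Ps G (pre x (vv G x))}} := by
      intro x hx w hw h
      exact eq_of_pos_eq hx.1 hw.1 hx.2.1 hw.2.1 h
    refine Set.MapsTo.countable_of_injOn (t := ⋃ t : List ℕ, Ps G t) ?_ h2 h1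
    rintro x ⟨hL, hl, hx⟩
    have h3 : ∃ k, Stop G x k := by
      cases x with
      | iso a b => exact absurd hl (by simp)
      | lpt b t y => exact ⟨t.length, Or.inr (Or.inl (by simp))⟩
    have h4 : pos x ∈ Ps G (pre x (vv G x)) := by
      by_contra hc
      exact hx ⟨h3, hc⟩
    exact mem_iUnion.2 ⟨_, h4⟩
  · rintro x ⟨hS, hP⟩ hL hl
    cases x with
    | iso a b => exact absurd hl (by simp)
    | lpt b t y =>
    set x : Code := lpt b t y with hx
    have hlen : len x = (t.length : ℕ∞) := by rw [hx, len_lim]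
    have hvle : vv G x ≤ t.length := Nat.sInf_le (Or.inr (Or.inl (by rw [hlen])))
    have hStop := Stop_vv hS
    constructor
    · refine ⟨∑ k ∈ Finset.range (vv G x + 1), Nn G (pre x k) (pos x), ?_⟩
      set n := ∑ k ∈ Finset.range (vv G x + 1), Nn G (pre x k) (pos x) with hn
      have hNn : ∀ k ≤ vv G x, Nn G (pre x k) (pos x) ≤ n := by
        intro k hk
        exact Finset.single_le_sum (f := fun k => Nn G (pre x k) (pos x)) (fun _ _ => Nat.zero_le _)
          (Finset.mem_range.2 (Nat.lt_succ_of_le hk))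
      intro w hw
      obtain ⟨hle, hco⟩ := type_of_mem hL hw
      have hag := agree_of_mem hL hw
      have hpre : ∀ k ≤ vv G x, pre w k = pre x k := by
        intro k hk
        apply pre_congr
        intro i hi
        apply hco
        rw [hlen]
        exact_mod_cast (lt_of_lt_of_le hi (hk.trans hvle))
      have hnP : ∀ k ≤ vv G x, pos x ∉ Ps G (pre x k) := by
        intro k hk
        rcases hk.lt_or_eq with h1 | h1
        · intro hc
          exact not_Stop h1 (Or.inl hc)
        · rw [h1]; exact hP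
      have hloc : ∀ k ≤ vv G x, pos w ∉ Ps G (pre x k) ∧
          Nn G (pre x k) (pos w) = Nn G (pre x k) (pos x) := by
        intro k hk
        exact Nn_local (hnP k hk) (hag.mono (hNn k hk))
      have hvv : vv G w = vv G x := by
        apply vv_eq
        · right
          rcases hvle.lt_or_eq with h1 | h1
          · right
            rw [hpre _ le_rfl, (hloc _ le_rfl).2, hco _ (by rw [hlen]; exact_mod_cast h1)]
            rcases hStop with h2 | h2 | h2
            · exact absurd h2 hP
            · rw [hlen] at h2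
              have h3 : t.length ≤ vv G x := by exact_mod_cast h2
              omega
            · exact h2
          · by_cases hwx : w = x
            · left
              rw [hwx, hlen, h1]
            · right
              rw [hpre _ le_rfl, (hloc _ le_rfl).2, h1]
              have h2 := (thin_of_mem_ne hL hw hwx).2.2.2
              rw [← h1] at h2 ⊢
              exact (hNn _ le_rfl).trans h2
        · intro i hi hc
          have h0 := not_Stop hi
          have hil : (i : ℕ∞) < len x := by
            rw [hlen]; exact_mod_cast (lt_of_lt_of_le hi hvle)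
          rcases hc with h2 | h2 | h2
          · rw [hpre i hi.le] at h2
            exact (hloc i hi.le).1 h2
          · exact absurd (hil.trans_le hle) (not_lt.2 h2)
          · rw [hpre i hi.le, (hloc i hi.le).2, hco i hil] at h2
            exact h0 (Or.inr (Or.inr h2))
      have hSw : ∃ k, Stop G w k := by
        refine ⟨vv G x, ?_⟩
        rw [← hvv]
        by_contra hc
        -- `vv G w` is the infimum of a nonempty set
        rcases hvle.lt_or_eq with h1 | h1
        · apply hc
          rw [hvv]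
          right; right
          rw [hpre _ le_rfl, (hloc _ le_rfl).2, hco _ (by rw [hlen]; exact_mod_cast h1)]
          rcases hStop with h2 | h2 | h2
          · exact absurd h2 hP
          · rw [hlen] at h2
            have h3 : t.length ≤ vv G x := by exact_mod_cast h2
            omega
          · exact h2
        · apply hc
          rw [hvv]
          by_cases hwx : w = x
          · rw [hwx]; exact hStop
          · right; right
            rw [hpre _ le_rfl, (hloc _ le_rfl).2, h1]
            have h2 := (thin_of_mem_ne hL hw hwx).2.2.2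
            rw [← h1] at h2 ⊢
            exact (hNn _ le_rfl).trans h2
      refine ⟨⟨hSw, ?_⟩, ?_⟩
      · rw [hvv, hpre _ le_rfl]
        exact (hloc _ le_rfl).1
      · show max (Nn G (pre w (vv G w)) (pos w)) (vv G w) = _
        rw [hvv, hpre _ le_rfl, (hloc _ le_rfl).2]
    · rcases hStop with h2 | h2 | h2
      · exact absurd h2 hP
      · right
        exact h2.trans (by exact_mod_cast le_max_right _ _)
      · by_cases hR : len x ≤ ((max (Nn G (pre x (vv G x)) (pos x)) (vv G x) : ℕ) : ℕ∞)
        · exact Or.inr hR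
        · left
          push Not at hR
          have h3 : ((Nn G (pre x (vv G x)) (pos x) : ℕ) : ℕ∞) < len x :=
            lt_of_le_of_lt (by exact_mod_cast le_max_left _ _) hR
          have h4 : ((vv G x : ℕ) : ℕ∞) < len x :=
            lt_of_le_of_lt (by exact_mod_cast le_max_right _ _) hR
          have h5 : G x < Nn G (pre x (vv G x)) (pos x) := by
            apply lt_Nn hP hL hl
            refine ⟨h3, by rwa [length_pre], ?_, by rwa [length_pre]⟩
            intro i hi
            rw [length_pre] at hi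
            rw [getD_pre x hi]
          exact h5.le.trans (le_max_left _ _)

end QDMan
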