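import Pool.Agent.Lib.QDMan.PtFin
import Pool.Agent.Lib.QDMan.Normal

/-!
# Chunk K3: locally bounded functions on the limit points have lower semicontinuous majorants

PROOF. Take `Nrm`, `R` from `exists_normal G hG`; `Q = {x | Legit x ∧ IsLim x ∧ x ∉ Nrm}`
countable, `m` from `exists_pointFinite Q`.  Put

`E₂ x = sup {G q | q ∈ Q, x ∈ V q (m q)}` (a finite set; e.g. `sSup (G '' ...)` in `ℕ`, or the
`Finset.sup` over `(hm x).toFinset`),
`c' x i = if (i : ℕ∞) < len x then co x i else 0`,
`E₁ x = if x ∈ Nrm then max (R x) (max (sup_{i ≤ R x} c' x i) (if len x ≤ R x then G x else 0)) else 0`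
`E x = max (E₁ x) (E₂ x)`.

`G z ≤ E z` for legitimate limit points `z`: if `z ∈ Nrm` then `G z ≤ R z` or `len z ≤ R z`.
Otherwise `z ∈ Q` and `z ∈ V z (m z)`.

Lower semicontinuity at a legitimate `z`: if `z = iso ..` then `V z 0 = {z}`. Let `z = lpt b t x`.
For every `q` in the finite set of `q ∈ Q` with `z ∈ V q (m q)` there is `n` with
`V z n ⊆ V q (m q)` (`V_open`, `V_antitone`), so `E₂ w ≥ E₂ z` for `w ∈ V z n`, `n` large.
If `z ∉ Nrm` then `E₁ z = 0`, done.  Let `z ∈ Nrm`, `n` large (also `n ≥ E z` and `n` as in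
`exists_normal`), `w ∈ V z n`, `w ≠ z`; `w ∈ Nrm`, `R w = R z`. By `type_of_mem` `c' w i = c' z i`
for `i < len z`, and `c' z i = 0` for `i ≥ len z`. If `len z = t.length ≤ R z`: `w ∈ Thin t n`
so `c' w t.length = co w t.length ≥ n ≥ E z` and `E w ≥ E z`.  If `len z > R z` then
`E₁ z = max (R z) (sup_{i ≤ R z} c' z i) ≤ E₁ w`.
-/

set_option autoImplicit false

open Set

namespace QDMan

open Code

/-- coordinate number `i` of the type, zero beyond the length -/
noncomputable def cc' (x : Code) (i : ℕ) : ℕ := by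
  classical exact if (i : ℕ∞) < len x then co x i else 0

theorem cc'_of_lt {x : Code} {i : ℕ} (h : (i : ℕ∞) < len x) : cc' x i = co x i := if_pos h

theorem cc'_of_le {x : Code} {i : ℕ} (h : len x ≤ (i : ℕ∞)) : cc' x i = 0 := if_neg (not_lt.2 h)

theorem cc'_le {z w : Code} {n : ℕ} (hz : Legit z) (hw : w ∈ V z n) (i : ℕ) : cc' z i ≤ cc' w i := by
  obtain ⟨h1, h2⟩ := type_of_mem hz hw
  rcases lt_or_ge (i : ℕ∞) (len z) with h | h
  · rw [cc'_of_lt h, cc'_of_lt (h.trans_le h1), h2 i h]
  · rw [cc'_of_le h]; exact Nat.zero_le _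

/-- the part of the majorant at normal points -/
noncomputable def maj1 (G R : Code → ℕ) (x : Code) : ℕ := by
  classical exact max (R x) (max ((Finset.range (R x + 1)).sup (cc' x))
    (if len x ≤ (R x : ℕ∞) then G x else 0))

theorem exists_lsc (G : Code → ℕ)
    (hG : ∀ z, Legit z → IsLim z → ∃ n B : ℕ, ∀ w ∈ V z n, IsLim w → G w ≤ B) :
    ∃ E : Code → ℕ, (∀ z, Legit z → IsLim z → G z ≤ E z) ∧
      ∀ z, Legit z → ∃ n, ∀ w ∈ V z n, E z ≤ E w := by
  classical
  obtain ⟨Nrm, R, hcount, hnrm⟩ := exists_normal G hG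
  obtain ⟨m, hm⟩ := exists_pointFinite {x | Legit x ∧ IsLim x ∧ x ∉ Nrm} hcount
    fun q hq => hq.1
  set E1 : Code → ℕ := fun x => if x ∈ Nrm then maj1 G R x else 0 with hE1
  set E2 : Code → ℕ := fun x => (hm x).toFinset.sup G with hE2
  have hE1n : ∀ x ∈ Nrm, E1 x = maj1 G R x := fun x hx => if_pos hx
  have hE1z : ∀ x, x ∉ Nrm → E1 x = 0 := fun x hx => if_neg hx
  refine ⟨fun x => max (E1 x) (E2 x), ?_, ?_⟩
  · intro z hz hl
    by_cases hN : z ∈ Nrm
    · refine le_max_of_le_left ?_
      rw [hE1n z hN]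
      rcases (hnrm z hN hz hl).2 with h | h
      · exact le_max_of_le_left h
      · refine le_max_of_le_right (le_max_of_le_right ?_)
        rw [if_pos h]
    · refine le_max_of_le_right ?_
      refine Finset.le_sup (f := G) ?_
      rw [Set.Finite.mem_toFinset]
      exact ⟨⟨hz, hl, hN⟩, self_mem_V _ _⟩
  · intro z hz
    cases z with
    | iso a b =>
      refine ⟨0, fun w hw => ?_⟩
      rw [V_iso, mem_singleton_iff] at hw
      rw [hw]
    | lpt b t x =>
      -- the countable part
      have hE2le : ∃ n, ∀ w ∈ V (lpt b t x) n, E2 (lpt b t x) ≤ E2 w := by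
        have h1 : ∀ q : Code, ∃ n, lpt b t x ∈ V q (m q) → V (lpt b t x) n ⊆ V q (m q) := by
          intro q
          by_cases hq : lpt b t x ∈ V q (m q)
          · obtain ⟨n, hn⟩ := V_open hq
            exact ⟨n, fun _ => hn⟩
          · exact ⟨0, fun h => absurd h hq⟩
        choose n hn using h1
        refine ⟨(hm (lpt b t x)).toFinset.sup n, fun w hw => ?_⟩
        refine Finset.sup_mono fun q hq => ?_
        have hq' := hq
        rw [Set.Finite.mem_toFinset] at hq ⊢
        exact ⟨hq.1, hn q hq.2 (V_antitone _ (Finset.le_sup (f := n) hq') hw)⟩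
      obtain ⟨n2, hn2⟩ := hE2le
      by_cases hN : lpt b t x ∈ Nrm
      · obtain ⟨n1, hn1⟩ := (hnrm _ hN hz trivial).1
        refine ⟨max (max n1 n2) (max (E1 (lpt b t x)) (E2 (lpt b t x))), fun w hw => ?_⟩
        have hw1 : w ∈ V (lpt b t x) n1 :=
          V_antitone _ ((le_max_left _ _).trans (le_max_left _ _)) hw
        have hw2 : w ∈ V (lpt b t x) n2 :=
          V_antitone _ ((le_max_right _ _).trans (le_max_left _ _)) hw
        by_cases hwz : w = lpt b t x
        · rw [hwz]
        obtain ⟨hwN, hwR⟩ := hn1 w hw1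
        have hE1w : E1 w = maj1 G R w := hE1n w hwN
        by_cases hlen : len (lpt b t x) ≤ (R (lpt b t x) : ℕ∞)
        · -- a large coordinate
          have hthin := thin_of_mem_ne hz hw hwz
          have h3 : t.length ≤ R (lpt b t x) := by
            rw [len_lim] at hlen; exact_mod_cast hlen
          refine le_max_of_le_left ?_
          rw [hE1w]
          refine le_max_of_le_right (le_max_of_le_left ?_)
          have h4 : cc' w t.length ≤ (Finset.range (R w + 1)).sup (cc' w) := by
            refine Finset.le_sup (f := cc' w) (Finset.mem_range.2 ?_)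
            rw [hwR]; exact Nat.lt_succ_of_le h3
          refine le_trans ?_ h4
          rw [cc'_of_lt hthin.2.1]
          exact (le_max_right _ _).trans hthin.2.2.2
        · refine max_le_max ?_ (hn2 w hw2)
          rw [hE1w, hE1n _ hN]
          unfold maj1
          rw [if_neg hlen, hwR]
          refine max_le_max le_rfl (max_le_max ?_ (Nat.zero_le _))
          exact Finset.sup_mono_fun fun i _ => cc'_le hz hw i
      · refine ⟨n2, fun w hw => ?_⟩
        have h5 : E1 (lpt b t x) = 0 := hE1z _ hN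
        exact max_le_max (h5.trans_le (Nat.zero_le _)) (hn2 w hw)

end QDMan
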