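import Pool.Agent.Lib.QDMan.Psi

/-!
# The points of the space: legitimate codes
-/

set_option autoImplicit false

open Set

namespace QDMan

open Code

/-- the universal ladder assignment -/
noncomputable def Psi : (ℕ → Bool) → List ℕ × (ℕ → Code) := Classical.choose exists_psi

theorem Psi_spec (t : List ℕ) (A : ℕ → Set Code) (hA : Antitone A) (hT : ∀ n, A n ⊆ Thin t n)
    (hu : ¬ {b : ℕ → Bool | ∀ n, ∃ x ∈ A n, Agree n (pos x) b}.Countable) :
    ∃ (b : ℕ → Bool) (x : ℕ → Code), Psi b = (t, x) ∧ LadOK b t x ∧ ∀ j, x j ∈ A j :=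
  Classical.choose_spec exists_psi t A hA hT hu

/-- legitimate codes: the points of the space `X` -/
def Legit : Code → Prop
  | iso _ _ => True
  | lpt b t x => (∀ j, Legit (x j)) ∧ Psi b = (t, x) ∧ LadOK b t x

@[simp] theorem legit_iso (a : ℕ → ℕ) (b : ℕ → Bool) : Legit (iso a b) := trivial

theorem legit_lim {b : ℕ → Bool} {t : List ℕ} {x : ℕ → Code} :
    Legit (lpt b t x) ↔ (∀ j, Legit (x j)) ∧ Psi b = (t, x) ∧ LadOK b t x := Iff.rfl

/-- the position is injective on legitimate limit points -/
theorem eq_of_pos_eq {z w : Code} (hz : Legit z) (hw : Legit w) (lz : IsLim z) (lw : IsLim w)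
    (h : pos z = pos w) : z = w := by
  cases z with
  | iso a b => exact absurd lz (by simp)
  | lpt b t x =>
    cases w with
    | iso a b => exact absurd lw (by simp)
    | lpt b' t' x' =>
      simp only [pos_lim] at h
      subst h
      have h1 := hz.2.1
      have h2 := hw.2.1
      rw [h1] at h2
      simp only [Prod.mk.injEq] at h2
      obtain ⟨rfl, rfl⟩ := h2
      rfl

/-- The catching principle: every antitone family of sets of legitimate codes which is thin of
type `t` and whose limit positions are uncountable catches a legitimate limit point. -/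
theorem catch_lim (t : List ℕ) (A : ℕ → Set Code) (hA : Antitone A) (hT : ∀ n, A n ⊆ Thin t n)
    (hL : ∀ n, ∀ x ∈ A n, Legit x)
    (hu : ¬ {b : ℕ → Bool | ∀ n, ∃ x ∈ A n, Agree n (pos x) b}.Countable) :
    ∃ (b : ℕ → Bool) (x : ℕ → Code), Legit (lpt b t x) ∧ ∀ j, x j ∈ A j := by
  obtain ⟨b, x, h1, h2, h3⟩ := Psi_spec t A hA hT hu
  exact ⟨b, x, legit_lim.2 ⟨fun j => hL j _ (h3 j), h1, h2⟩, h3⟩

end QDMan
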