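import Pool.Agent.Lib.QDMan.FMap

/-!
# Chunk P2: neighbourhoods of the points of a line

PROOF. Let `z = lpt b t x`, `k ≥ 1`. Near `(a, 1/k)` every `p` has `p.2 > 0`, `|p.1 - a| < 1` and
`1 / p.2` close to `k` (in `(k-1, k+1)`).  If `1 / p.2 = k` use `F_line`.  If `k < 1 / p.2` then
`p ∈ strip k` and `r = 1 / p.2 - k` is small positive, `tau r → +∞`.  If `1 / p.2 < k` then
`p ∈ strip (k-1)` and `r = 1 / p.2 - (k - 1)` is close to `1`, `tau r → -∞`.  In both cases
`embG b j p = (τ, s)` with `|τ|` large, `|s + theta b * |τ|| = |psi p.1| ≤ 4 (|a| + 1) =: C`, so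
`s < 0` when `theta b * |τ| > C`, hence `sh (x j) j (τ, s) = (τ, s)` and `F (x j) (τ, s) =
(x j, (τ, s))` by `sh_low`, `F_low`.
-/

set_option autoImplicit false

open Set Filter Topology

namespace QDMan

open Code

theorem tau_big {r T : ℝ} (hT : 0 < T) (h0 : 0 < r) (h1 : r < 1 / (T + 2)) : T < tau r := by
  have h2 : r < 1 / 2 := h1.trans_le (by
    apply one_div_le_one_div_of_le (by norm_num); linarith)
  have h3 : 1 / (1 - r) < 2 := by
    rw [div_lt_iff₀ (by linarith)]; linarith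
  have h4 : T + 2 < 1 / r := by
    rw [lt_div_iff₀ h0]
    rw [lt_div_iff₀ (by linarith)] at h1
    linarith
  unfold tau
  linarith

theorem tau_symm (r : ℝ) : tau (1 - r) = -tau r := by
  unfold tau
  rw [sub_sub_cancel]
  ring

theorem abs_psi_le (u : ℝ) : |psi u| ≤ 4 * |u| := by
  unfold psi
  rcases le_total u 0 with h | h
  · rw [max_eq_left (by linarith)]
    have := abs_nonneg u
    linarith
  · rw [max_eq_right (by linarith), abs_of_nonneg (by linarith), abs_of_nonneg h]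

theorem line_nhds (b : ℕ → Bool) (t : List ℕ) (x : ℕ → Code) {k : ℕ} (hk : 1 ≤ k) (a : ℝ) :
    ∃ C : ℝ, ∀ A : ℝ, ∀ᶠ p : ℝ × ℝ in 𝓝 (a, 1 / (k : ℝ)),
      (1 / p.2 = k ∧ F (lpt b t x) p = (lpt b t x, (p.1, (k : ℝ)))) ∨
      ∃ (j : ℕ) (τ s : ℝ), (j = k ∨ j + 1 = k) ∧ F (lpt b t x) p = (x j, (τ, s)) ∧
        A ≤ |τ| ∧ s < 0 ∧ |s + theta b * abs τ| ≤ C := by
  have hk' : (0 : ℝ) < k := by exact_mod_cast hk
  have hθ := theta_pos b
  refine ⟨4 * (|a| + 1), fun A => ?_⟩
  set C := 4 * (|a| + 1) with hC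
  have hC0 : 0 < C := by positivity
  set T := max A (C / theta b + 1) with hT
  have hT1 : C / theta b + 1 ≤ T := le_max_right _ _
  have hT0 : 0 < T := lt_of_lt_of_le (by positivity) hT1
  have hTA : A ≤ T := le_max_left _ _
  have hTC : C < theta b * T := by
    have h1 : theta b * (C / theta b + 1) ≤ theta b * T := mul_le_mul_of_nonneg_left hT1 hθ.le
    have h2 : theta b * (C / theta b + 1) = C + theta b := by field_simp
    linarith
  set δ := 1 / (T + 2) with hδ
  have hδ0 : 0 < δ := by positivity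
  have hδ1 : δ < 1 := by
    rw [hδ, div_lt_one (by linarith)]; linarith
  -- the common end of the proof
  have main : ∀ (p : ℝ × ℝ) (j : ℕ), |p.1 - a| < 1 → p ∈ strip j → (j = k ∨ j + 1 = k) →
      T < |tau (1 / p.2 - j)| →
      ∃ (j : ℕ) (τ s : ℝ), (j = k ∨ j + 1 = k) ∧ F (lpt b t x) p = (x j, (τ, s)) ∧
        A ≤ |τ| ∧ s < 0 ∧ |s + theta b * abs τ| ≤ C := by
    intro p j hp hs hj hbig
    have h1 : |p.1| ≤ |a| + 1 := by
      have := abs_sub_abs_le_abs_sub p.1 a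
      linarith
    have h2 : |psi p.1| ≤ C := (abs_psi_le _).trans (by linarith)
    have h3 : theta b * T ≤ theta b * |tau (1 / p.2 - j)| := mul_le_mul_of_nonneg_left hbig.le hθ.le
    have h4 : psi p.1 - theta b * |tau (1 / p.2 - j)| < 0 := by
      have := le_abs_self (psi p.1)
      linarith
    refine ⟨j, tau (1 / p.2 - j), psi p.1 - theta b * |tau (1 / p.2 - j)|, hj, ?_,
      hTA.trans hbig.le, h4, ?_⟩
    · rw [F_strip hs]
      have h5 : embG b j p = (tau (1 / p.2 - j), psi p.1 - theta b * |tau (1 / p.2 - j)|) := rfl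
      rw [h5, sh_low _ _ (by exact h4.le), F_low (by exact h4.le)]
    · rw [sub_add_cancel]; exact h2
  have hcont : ContinuousAt (fun p : ℝ × ℝ => 1 / p.2) (a, 1 / (k : ℝ)) := by
    refine ContinuousAt.div continuousAt_const continuousAt_snd ?_
    simp only
    positivity
  have e1 : ∀ᶠ p : ℝ × ℝ in 𝓝 (a, 1 / (k : ℝ)), 0 < p.2 :=
    continuousAt_snd.eventually (lt_mem_nhds (by positivity))
  have e2 : ∀ᶠ p : ℝ × ℝ in 𝓝 (a, 1 / (k : ℝ)), |p.1 - a| < 1 := by
    have h : ContinuousAt (fun p : ℝ × ℝ => |p.1 - a|) (a, 1 / (k : ℝ)) := by fun_prop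
    refine h.eventually (gt_mem_nhds ?_)
    simp
  have e3 : ∀ᶠ p : ℝ × ℝ in 𝓝 (a, 1 / (k : ℝ)), (k : ℝ) - δ < 1 / p.2 := by
    refine hcont.eventually (lt_mem_nhds ?_)
    simp only [one_div_one_div]; linarith
  have e4 : ∀ᶠ p : ℝ × ℝ in 𝓝 (a, 1 / (k : ℝ)), 1 / p.2 < (k : ℝ) + δ := by
    refine hcont.eventually (gt_mem_nhds ?_)
    simp only [one_div_one_div]; linarith
  filter_upwards [e1, e2, e3, e4] with p h1 h2 h3 h4
  rcases lt_trichotomy (1 / p.2) k with h5 | h5 | h5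
  · right
    obtain ⟨m, rfl⟩ : ∃ m, k = m + 1 := ⟨k - 1, by omega⟩
    push_cast at h3 h5
    refine main p m h2 ⟨h1, by linarith, by linarith⟩ (Or.inr rfl) ?_
    have h6 : T < tau (1 - (1 / p.2 - m)) := tau_big hT0 (by linarith) (by linarith)
    rw [tau_symm] at h6
    exact h6.trans_le (neg_le_abs _)
  · left
    exact ⟨h5, F_line h1 h5⟩
  · right
    refine main p k h2 ⟨h1, h5, by linarith⟩ (Or.inl rfl) ?_
    exact (tau_big hT0 (by linarith) (by linarith)).trans_le (le_abs_self _)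

end QDMan
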