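import Pool.Agent.Lib.QDMan.FMap

/-!
# The manifold `M` and its topology
-/

set_option autoImplicit false

open Set Filter Topology

namespace QDMan

open Code

/-- the points of the manifold -/
def M : Type := {q : Code × (ℝ × ℝ) // Legit q.1 ∧ Own q.1 q.2}

/-- the points of the countable level -/
abbrev LCode : Type := {y : Code // Legit y}

/-- the chart maps into `M` -/
noncomputable def Fm (y : LCode) (p : ℝ × ℝ) : M := ⟨F y.1 p, F_legit y.2 p, own_F y.1 p⟩

/-- the code under a point of `M` -/
def M.code (q : M) : Code := q.1.1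

theorem M.legit (q : M) : Legit q.code := q.2.1

/-- the coordinates of a point of `M` in its own part -/
def M.crd (q : M) : ℝ × ℝ := q.1.2

theorem M.own (q : M) : Own q.code q.crd := q.2.2

/-- the code under `q`, as a legitimate code -/
def M.lc (q : M) : LCode := ⟨q.code, q.legit⟩

@[simp] theorem code_Fm (y : LCode) (p : ℝ × ℝ) : (Fm y p).code = (F y.1 p).1 := rfl

@[simp] theorem crd_Fm (y : LCode) (p : ℝ × ℝ) : (Fm y p).crd = (F y.1 p).2 := rfl

theorem M.ext {q q' : M} (h1 : q.code = q'.code) (h2 : q.crd = q'.crd) : q = q' :=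
  Subtype.ext (Prod.ext h1 h2)

theorem Fm_injective (y : LCode) : Function.Injective (Fm y) := by
  intro p q h
  exact F_injective y.2 (Subtype.ext_iff.1 h)

theorem exists_Fm_eq (q : M) : ∃ p, Fm q.lc p = q := by
  obtain ⟨p, hp⟩ := exists_F_eq q.own
  exact ⟨p, Subtype.ext hp⟩

/-- the topology: the finest one making all chart maps continuous -/
noncomputable instance : TopologicalSpace M := ⨆ y : LCode, TopologicalSpace.coinduced (Fm y) inferInstance

theorem isOpen_iff_M {U : Set M} : IsOpen U ↔ ∀ y : LCode, IsOpen (Fm y ⁻¹' U) := by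
  rw [isOpen_iSup_iff]
  exact forall_congr' fun y => isOpen_coinduced

theorem continuous_Fm (y : LCode) : Continuous (Fm y) := by
  constructor
  intro U hU
  exact isOpen_iff_M.1 hU y

end QDMan
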