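import Pool.Agent.Lib.QDMan.MetricLsc
import Pool.Agent.Lib.QDMan.Mfd

/-!
# Chunk C4: the local majorant off the boundary lines

PROOF. For an isolated `z` take the majorant of `g ∘ Fm z` on the plane from `metric_lsc_on` with
`O = univ`; for a limit point `z` take one on `O = {p | p.2 < 0}`, and for every `k ≥ 1` one of
`u ↦ g (Fm z (u, 1/k))` on `ℝ` (`metric_lsc`). For `q : M`: `loc q` is the value of the first one at
`q.crd` if `q.code` is isolated or `q.crd.2 < 0` (then `Fm q.lc q.crd = q` by `F_iso`, `F_low`),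
`0` if `q.code` is a limit point and `q.crd.2 = 0`, and the value of the one with `k = ⌊q.crd.2⌋₊` at
`q.crd.1` otherwise (then `q.crd.2 = k`, `1 ≤ k` by `q.own` and `Fm q.lc (q.crd.1, 1/k) = q` by
`F_line`).
-/

set_option autoImplicit false

open Set Filter Topology

namespace QDMan

open Code

/-- the local majorant in the own open part of a code -/
theorem exists_own_maj (g : M → ℕ) (hg : ∀ n, IsOpen {q | g q ≤ n}) (z : LCode) :
    ∃ h : ℝ × ℝ → ℕ, (∀ p : ℝ × ℝ, (IsLim z.1 → p.2 < 0) → g (Fm z p) ≤ h p) ∧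
      ∀ p : ℝ × ℝ, (IsLim z.1 → p.2 < 0) → ∀ᶠ p' in 𝓝 p, h p ≤ h p' := by
  by_cases hz : IsLim z.1
  · have hO : IsOpen {p : ℝ × ℝ | p.2 < 0} := isOpen_lt continuous_snd continuous_const
    obtain ⟨h, h1, h2⟩ := metric_lsc_on hO (fun p => g (Fm z p)) (by
      intro n
      exact ((hg n).preimage (continuous_Fm z)).inter hO)
    exact ⟨h, fun p hp => h1 p (hp hz), fun p hp => h2 p (hp hz)⟩
  · obtain ⟨h, h1, h2⟩ := metric_lsc_on (O := univ) isOpen_univ (fun p : ℝ × ℝ => g (Fm z p)) (by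
      intro n
      exact ((hg n).preimage (continuous_Fm z)).inter isOpen_univ)
    exact ⟨h, fun p _ => h1 p trivial, fun p _ => h2 p trivial⟩

/-- the local majorant on a line -/
theorem exists_line_maj (g : M → ℕ) (hg : ∀ n, IsOpen {q | g q ≤ n}) (z : LCode) (k : ℕ) :
    ∃ h : ℝ → ℕ, (∀ u : ℝ, g (Fm z (u, 1 / (k : ℝ))) ≤ h u) ∧
      ∀ u : ℝ, ∀ᶠ u' in 𝓝 u, h u ≤ h u' := by
  have hc : Continuous fun u : ℝ => Fm z (u, 1 / (k : ℝ)) :=
    (continuous_Fm z).comp (continuous_id.prodMk continuous_const)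
  obtain ⟨h, h1, h2⟩ := metric_lsc_on (O := univ) isOpen_univ
    (fun u : ℝ => g (Fm z (u, 1 / (k : ℝ)))) (by
      intro n
      exact ((hg n).preimage hc).inter isOpen_univ)
  exact ⟨h, fun u => h1 u trivial, fun u => h2 u trivial⟩

theorem Fm_own {z : LCode} {p : ℝ × ℝ} (h : IsLim z.1 → p.2 < 0) :
    (Fm z p).lc = z ∧ (Fm z p).crd = p := by
  have h1 : F z.1 p = (z.1, p) := by
    rcases hz : z.1 with ⟨a, b⟩ | ⟨b, t, x⟩
    · rfl
    · exact F_low (h (by rw [hz]; trivial)).le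
  constructor
  · apply Subtype.ext
    show (F z.1 p).1 = z.1
    rw [h1]
  · rw [crd_Fm, h1]

theorem Fm_line {z : LCode} (hz : IsLim z.1) {k : ℕ} (hk : 1 ≤ k) (u : ℝ) :
    (Fm z (u, 1 / (k : ℝ))).lc = z ∧ (Fm z (u, 1 / (k : ℝ))).crd = (u, (k : ℝ)) := by
  have hk' : (0 : ℝ) < k := by exact_mod_cast hk
  have h1 : F z.1 (u, 1 / (k : ℝ)) = (z.1, (u, (k : ℝ))) := by
    rcases hz' : z.1 with ⟨a, b⟩ | ⟨b, t, x⟩
    · rw [hz'] at hz; exact absurd hz (by simp)
    · rw [F_line (k := k) (by simpa using hk') (by simp)]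
  constructor
  · apply Subtype.ext
    show (F z.1 _).1 = z.1
    rw [h1]
  · rw [crd_Fm, h1]

theorem exists_loc (g : M → ℕ) (hg : ∀ n, IsOpen {q | g q ≤ n}) :
    ∃ loc : M → ℕ,
      (∀ q : M, (IsLim q.code → q.crd.2 ≠ 0) → g q ≤ loc q) ∧
      (∀ q : M, IsLim q.code → q.crd.2 = 0 → loc q = 0) ∧
      (∀ (z : LCode) (p : ℝ × ℝ), (IsLim z.1 → p.2 < 0) →
        ∀ᶠ p' : ℝ × ℝ in 𝓝 p, loc (Fm z p) ≤ loc (Fm z p')) ∧
      (∀ (z : LCode) (k : ℕ) (u : ℝ), IsLim z.1 → 1 ≤ k →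
        ∀ᶠ u' : ℝ in 𝓝 u, loc (Fm z (u, 1 / (k : ℝ))) ≤ loc (Fm z (u', 1 / (k : ℝ)))) := by
  classical
  choose A hA1 hA2 using exists_own_maj g hg
  choose L hL1 hL2 using exists_line_maj g hg
  set loc : M → ℕ := fun q =>
    if IsLim q.code → q.crd.2 < 0 then A q.lc q.crd
    else if q.crd.2 = 0 then 0 else L q.lc ⌊q.crd.2⌋₊ q.crd.1 with hloc
  have own1 : ∀ (z : LCode) (p : ℝ × ℝ), (IsLim z.1 → p.2 < 0) → loc (Fm z p) = A z p := by
    intro z p h
    obtain ⟨h1, h2⟩ := Fm_own h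
    have h3 : (Fm z p).code = z.1 := by
      have := congrArg Subtype.val h1
      exact this
    simp only [hloc]
    rw [if_pos (by rw [h3, h2]; exact h), h1, h2]
  have line1 : ∀ (z : LCode) (k : ℕ) (u : ℝ), IsLim z.1 → 1 ≤ k →
      loc (Fm z (u, 1 / (k : ℝ))) = L z k u := by
    intro z k u hz hk
    obtain ⟨h1, h2⟩ := Fm_line hz hk u
    have hk' : (0 : ℝ) < k := by exact_mod_cast hk
    have h3 : (Fm z (u, 1 / (k : ℝ))).code = z.1 := by
      have := congrArg Subtype.val h1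
      exact this
    simp only [hloc]
    rw [if_neg, if_neg, h1, h2]
    · simp
    · rw [h2]; exact hk'.ne'
    · rw [h3, h2]
      intro h
      exact absurd (h hz) (not_lt.2 hk'.le)
  refine ⟨loc, ?_, ?_, ?_, ?_⟩
  · intro q hq
    by_cases h : IsLim q.code → q.crd.2 < 0
    · have h1 : F q.code q.crd = (q.code, q.crd) := by
        rcases hz : q.code with ⟨a, b⟩ | ⟨b, t, x⟩
        · rfl
        · exact F_low (h (by rw [hz]; trivial)).le
      have h2 : Fm q.lc q.crd = q := Subtype.ext h1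
      rw [← h2, own1 q.lc q.crd h]
      exact hA1 q.lc q.crd h
    · push Not at h
      obtain ⟨hl, h0⟩ := h
      have h3 := hq hl
      obtain ⟨k, hk, hk2⟩ : ∃ k : ℕ, 1 ≤ k ∧ q.crd.2 = k := by
        have ho := q.own
        rcases hz : q.code with ⟨a, b⟩ | ⟨b, t, x⟩
        · rw [hz] at hl; exact absurd hl (by simp)
        · rw [hz] at ho
          rcases ho with ho | ho
          · exact absurd (le_antisymm ho h0) h3
          · exact ho
      have h4 : Fm q.lc (q.crd.1, 1 / (k : ℝ)) = q := by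
        obtain ⟨h5, h6⟩ := Fm_line (z := q.lc) hl hk q.crd.1
        apply M.ext
        · exact congrArg Subtype.val h5
        · rw [h6]; exact Prod.ext rfl hk2.symm
      rw [← h4, line1 q.lc k q.crd.1 hl hk]
      exact hL1 q.lc k q.crd.1
  · intro q hl h0
    simp only [hloc]
    rw [if_neg, if_pos h0]
    intro h
    exact absurd (h hl) (by rw [h0]; simp)
  · intro z p h
    rw [own1 z p h]
    have e : ∀ᶠ p' : ℝ × ℝ in 𝓝 p, IsLim z.1 → p'.2 < 0 := by
      by_cases hz : IsLim z.1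
      · have : ∀ᶠ p' : ℝ × ℝ in 𝓝 p, p'.2 < 0 := continuousAt_snd.eventually (gt_mem_nhds (h hz))
        filter_upwards [this] with p' hp' _ using hp'
      · exact Filter.Eventually.of_forall fun p' h' => absurd h' hz
    filter_upwards [e, hA2 z p h] with p' h1 h2
    rw [own1 z p' h1]
    exact h2
  · intro z k u hz hk
    rw [line1 z k u hz hk]
    filter_upwards [hL2 z k u] with u' h2
    rw [line1 z k u' hz hk]
    exact h2

end QDMan
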