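import Pool.Agent.Lib.QDMan.Key
import Pool.Agent.Lib.QDMan.Mfd
import Pool.Agent.Lib.QDMan.Kill

/-!
# Chunk C3: the functions `E_c`

PROOF. For a legitimate limit point `z` the set `{(u, 0) : |u| ≤ c}` is compact and
`{p | g (Fm z p) ≤ n}` is open and increasing in `n`, so `g (Fm z (u, 0)) ≤ G z` for `|u| ≤ c` for
some number `G z` (take the least one, or any choice such that `G z` is attained or `0`: take
the least `B` such that `g (Fm z (u, 0)) ≤ B` for all `|u| ≤ c`). `G = 0` elsewhere.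

`G` is locally bounded: let `z` be a legitimate limit point. For some `B` the open set
`O = {p | g (Fm z p) ≤ B}` contains the compact set `{(u, 0) : |u| ≤ max 1 c}`, so it contains
`{(u, s) : |u| ≤ max 1 c, |s| < ε}` for some `ε > 0` (tube lemma `generalized_tube_lemma`). Take
`n` with `1/n < ε`, `n ≥ 1`. Let `w ∈ V z n` be a limit point (legitimate, `legit_of_mem`) and
`|u| ≤ c`. By `exists_F_sh_eq` (`Low w (u, 0)`) and `z = lpt ..` there is `p` with
`F z (sig n p) = (w, (u, 0))`; let `p' = sig n p`.  By `key_F`, `|p'.1| ≤ max 1 (rad w (u, 0)) =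
max 1 |u| ≤ max 1 c`. If `p'.2 ≤ 0` then `F z p' = (z, p')`, so `p' = (u, 0) ∈ O`. If `p'.2 > 0` then
`p.2 > 0` and `1/p'.2 = 1/p.2 + n > n`, so `|p'.2| < ε` and `p' ∈ O`.  So `g (Fm w (u, 0)) ≤ B`
(`Fm w (u,0) = Fm z p'` by `Subtype.ext`, `F w (u, 0) = (w, (u, 0))` by `F_low`).
Hence `G w ≤ B`. Apply `exists_lsc G`.
-/

set_option autoImplicit false

open Set Filter Topology

namespace QDMan

open Code

theorem exists_bound (g : M → ℕ) (hg : ∀ n, IsOpen {q | g q ≤ n}) (z : LCode) (c : ℝ) :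
    ∃ B : ℕ, ∀ u : ℝ, |u| ≤ c → g (Fm z (u, 0)) ≤ B := by
  have hK : IsCompact (Icc (-c) c) := isCompact_Icc
  let U : ℕ → Set ℝ := fun n => {u | g (Fm z (u, 0)) ≤ n}
  have hU : ∀ n, IsOpen (U n) := by
    intro n
    have h1 : Continuous fun u : ℝ => Fm z (u, (0 : ℝ)) :=
      (continuous_Fm z).comp (by fun_prop)
    exact (hg n).preimage h1
  have hcov : Icc (-c) c ⊆ ⋃ n, U n := fun u _ =>
    mem_iUnion.2 ⟨g (Fm z (u, 0)), le_refl (g (Fm z (u, 0)))⟩
  have hdir : Directed (· ⊆ ·) U := by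
    have hmono : Monotone U := fun m n hmn u (hu : g (Fm z (u, 0)) ≤ m) => le_trans hu hmn
    exact hmono.directed_le
  obtain ⟨B, hB⟩ := hK.elim_directed_cover U hU hcov hdir
  exact ⟨B, fun u hu => hB (abs_le.1 hu)⟩

open Classical in
theorem exists_E (g : M → ℕ) (hg : ∀ n, IsOpen {q | g q ≤ n}) (c : ℕ) :
    ∃ E : Code → ℕ, (∀ (z : LCode) (u : ℝ), IsLim z.1 → |u| ≤ c → g (Fm z (u, 0)) ≤ E z.1) ∧
      ∀ z, Legit z → ∃ n, ∀ w ∈ V z n, E z ≤ E w := by
  let S : LCode → Set ℕ := fun z => {B | ∀ u : ℝ, |u| ≤ c → g (Fm z (u, 0)) ≤ B}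
  have hS : ∀ z, (S z).Nonempty := fun z => exists_bound g hg z c
  let G : Code → ℕ := fun z => if h : Legit z then sInf (S ⟨z, h⟩) else 0
  have hG1 : ∀ (z : LCode) (u : ℝ), |u| ≤ c → g (Fm z (u, 0)) ≤ G z.1 := by
    intro z u hu
    have h1 : G z.1 = sInf (S z) := by simp only [G, dif_pos z.2]
    rw [h1]
    exact Nat.sInf_mem (hS z) u hu
  have hG2 : ∀ (z : LCode) (B : ℕ), (∀ u : ℝ, |u| ≤ c → g (Fm z (u, 0)) ≤ B) → G z.1 ≤ B := by
    intro z B hB
    have h1 : G z.1 = sInf (S z) := by simp only [G, dif_pos z.2]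
    rw [h1]
    exact Nat.sInf_le hB
  obtain ⟨E, hE1, hE2⟩ := exists_lsc G (by
    intro z hz hlim
    cases z with
    | iso a b => exact absurd hlim (by simp)
    | lpt b t x =>
      obtain ⟨B, hB⟩ := exists_bound g hg ⟨lpt b t x, hz⟩ (max 1 c)
      have hO : IsOpen {p : ℝ × ℝ | g (Fm ⟨lpt b t x, hz⟩ p) ≤ B} :=
        (hg B).preimage (continuous_Fm _)
      have hsub : Icc (-(max 1 (c : ℝ))) (max 1 (c : ℝ)) ×ˢ ({0} : Set ℝ) ⊆
          {p : ℝ × ℝ | g (Fm ⟨lpt b t x, hz⟩ p) ≤ B} := by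
        rintro ⟨u, s⟩ ⟨hu, hs⟩
        rw [mem_singleton_iff] at hs
        simp only at hs hu
        subst hs
        exact hB u (abs_le.2 hu)
      obtain ⟨U, W, hU, hW, hKU, h0W, hUW⟩ :=
        generalized_tube_lemma isCompact_Icc isCompact_singleton hO hsub
      obtain ⟨ε, hε, hball⟩ := Metric.isOpen_iff.1 hW 0 (h0W rfl)
      obtain ⟨n, hn⟩ := exists_nat_one_div_lt hε
      refine ⟨n + 1, B, fun w hw hwl => ?_⟩
      have hwL : Legit w := legit_of_mem hz hw
      refine hG2 ⟨w, hwL⟩ B fun u hu => ?_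
      have hlow : Low w (u, (0 : ℝ)) := by
        cases w with
        | iso a b => trivial
        | lpt b' t' x' => exact le_refl (0 : ℝ)
      obtain ⟨p, hp⟩ := exists_F_sh_eq hw hlow
      rw [sh_lim] at hp
      have hrad : rad w (u, (0 : ℝ)) = |u| := by
        cases w with
        | iso a b => exact absurd hwl (by simp)
        | lpt b' t' x' =>
          rw [rad_lpt, neg_zero]
          exact max_eq_left (abs_nonneg u)
      have hkey := key_F (lpt b t x) (sig (n + 1) p)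
      rw [hp] at hkey
      simp only [hrad] at hkey
      have h1 : sig (n + 1) p ∈ U ×ˢ W := by
        refine ⟨hKU (abs_le.1 (hkey.trans (max_le_max le_rfl hu))), ?_⟩
        apply hball
        rw [Metric.mem_ball, dist_zero_right, Real.norm_eq_abs]
        rcases le_or_gt p.2 0 with h2 | h2
        · rw [sig_low (n + 1) h2] at hp ⊢
          rw [F_low h2] at hp
          have h3 : p.2 = 0 := (Prod.ext_iff.1 (Prod.ext_iff.1 hp).2).2
          rw [h3, abs_zero]; exact hε
        · obtain ⟨h3, h4, h5⟩ := sig_high (n + 1) h2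
          rw [abs_of_pos h3]
          refine lt_trans ?_ hn
          have h6 : ((n : ℝ) + 1) < 1 / (sig (n + 1) p).2 := by
            rw [h4]
            have h7 : 0 < 1 / p.2 := by positivity
            push_cast
            linarith
          have h8 : (0 : ℝ) < n + 1 := by positivity
          rw [lt_div_iff₀ h3] at h6
          rw [lt_div_iff₀ h8]
          linarith
      have h2 : Fm ⟨w, hwL⟩ (u, 0) = Fm ⟨lpt b t x, hz⟩ (sig (n + 1) p) := by
        apply Subtype.ext
        show F w (u, 0) = F (lpt b t x) (sig (n + 1) p)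
        rw [hp, F_low (le_refl (0 : ℝ))]
      rw [h2]
      exact hUW h1)
  refine ⟨E, fun z u hz hu => (hG1 z u hu).trans (hE1 z.1 z.2 hz), hE2⟩

end QDMan
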