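import Pool.Agent.Lib.QDMan.Mfd

/-!
# Chunk T1: the chart maps are open embeddings

PROOF of `open_trans`: induction on `x`, inside it induction on `w` (structural). Let
`x ≠ w` (if `x = w` the set is `O`, by `F_injective`). Let `F w p₀ = F x p₁`, `p₁ ∈ O`; find an
open set containing `p₀` and contained in `{p | F w p ∈ F x '' O}`.
(a) If `(F x p₁).1 ≠ x`, then `x = lpt ..` (not `iso`) and `p₁ ∈ strip j` by `mem_strip_of_ne`; with
`O' = sh (y j) j '' (embG b j '' (O ∩ strip j))` (open; `y` the ladder of `x`), `F x '' (O ∩ strip j)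
= F (y j) '' O'` by `F_strip`, and `{p | F w p ∈ F (y j) '' O'}` is open by induction, contains `p₀`.
(b) If `(F x p₁).1 = x ≠ w`, then `w = lpt ..` with ladder `y` and `p₀ ∈ strip j`, and on the open
set `strip j` one has `F w p = F (y j) (sh (y j) j (embG b j p))`, a continuous map followed by
`F (y j)`; by the inner induction `{p' | F (y j) p' ∈ F x '' O}` is open.
-/

set_option autoImplicit false

open Set Filter Topology

namespace QDMan

open Code

theorem open_trans_aux {x : Code} (hx : Legit x)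
    (hsub : ∀ w, Legit w → ∀ O : Set (ℝ × ℝ), IsOpen O → ∀ p₀, F w p₀ ∈ F x '' O →
      (F w p₀).1 ≠ x → ∃ U ⊆ {p : ℝ × ℝ | F w p ∈ F x '' O}, IsOpen U ∧ p₀ ∈ U)
    {w : Code} (hw : Legit w) {O : Set (ℝ × ℝ)} (hO : IsOpen O) :
    IsOpen {p : ℝ × ℝ | F w p ∈ F x '' O} := by
  induction w with
  | iso a b =>
    by_cases hxw : iso a b = x
    · have h1 : {p : ℝ × ℝ | F (iso a b) p ∈ F x '' O} = O := by
        rw [hxw]; exact (F_injective hx).preimage_image O
      rw [h1]; exact hO
    · rw [isOpen_iff_forall_mem_open]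
      intro p₀ hp₀
      exact hsub _ hw O hO p₀ hp₀ hxw
  | lpt b t y ih =>
    by_cases hxw : lpt b t y = x
    · have h1 : {p : ℝ × ℝ | F (lpt b t y) p ∈ F x '' O} = O := by
        rw [hxw]; exact (F_injective hx).preimage_image O
      rw [h1]; exact hO
    · rw [isOpen_iff_forall_mem_open]
      intro p₀ hp₀
      by_cases h1 : (F (lpt b t y) p₀).1 = x
      · obtain ⟨j, hj⟩ := mem_strip_of_ne (b := b) (t := t) (x := y) (p := p₀)
          (fun h => hxw (h.symm.trans h1))
        have hc : ContinuousOn (fun p => sh (y j) j (embG b j p)) (strip j) :=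
          (continuous_sh (y j) j).comp_continuousOn (continuousOn_embG b j)
        refine ⟨strip j ∩ (fun p => sh (y j) j (embG b j p)) ⁻¹'
          {p | F (y j) p ∈ F x '' O}, ?_, hc.isOpen_inter_preimage (isOpen_strip j)
            (ih j (hw.1 j)), hj, ?_⟩
        · rintro p ⟨hp, hp'⟩
          show F (lpt b t y) p ∈ F x '' O
          rw [F_strip hp]
          exact hp'
        · show F (y j) (sh (y j) j (embG b j p₀)) ∈ F x '' O
          rw [← F_strip (t := t) (x := y) hj]
          exact hp₀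
      · exact hsub _ hw O hO p₀ hp₀ h1

theorem open_trans {x w : Code} (hx : Legit x) (hw : Legit w) {O : Set (ℝ × ℝ)} (hO : IsOpen O) :
    IsOpen {p : ℝ × ℝ | F w p ∈ F x '' O} := by
  induction x generalizing w O with
  | iso a b =>
    refine open_trans_aux hx ?_ hw hO
    rintro w hw O hO p₀ ⟨p₁, hp₁, h⟩ hne
    rw [← h] at hne
    exact absurd rfl hne
  | lpt b t y ih =>
    refine open_trans_aux hx ?_ hw hO
    rintro w hw O hO p₀ ⟨p₁, hp₁, h⟩ hne
    rw [← h] at hne
    obtain ⟨j, hj⟩ := mem_strip_of_ne hne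
    have h1 : F (lpt b t y) '' (O ∩ strip j) =
        F (y j) '' (sh (y j) j '' (embG b j '' (O ∩ strip j))) := by
      rw [image_image, image_image]
      exact image_congr fun p hp => F_strip hp.2
    refine ⟨{p | F w p ∈ F (lpt b t y) '' (O ∩ strip j)}, ?_, ?_, ⟨p₁, ⟨hp₁, hj⟩, h⟩⟩
    · intro p hp
      exact image_mono inter_subset_left hp
    · rw [h1]
      exact ih j (hx.1 j) hw (isOpen_image_sh _ _ (isOpen_image_embG b j hO))

theorem isOpenMap_Fm (y : LCode) : IsOpenMap (Fm y) := by
  intro O hO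
  rw [isOpen_iff_M]
  intro w
  convert open_trans y.2 w.2 hO using 1
  ext p
  simp only [mem_preimage, mem_image, mem_ofPred_eq]
  constructor
  · rintro ⟨q, hq, h⟩
    exact ⟨q, hq, Subtype.ext_iff.1 h⟩
  · rintro ⟨q, hq, h⟩
    exact ⟨q, hq, Subtype.ext h⟩

theorem isOpenEmbedding_Fm (y : LCode) : IsOpenEmbedding (Fm y) :=
  .of_continuous_injective_isOpenMap (continuous_Fm y) (Fm_injective y) (isOpenMap_Fm y)

/-- neighbourhoods in `M` are seen in a chart -/
theorem nhds_Fm (y : LCode) (p : ℝ × ℝ) : 𝓝 (Fm y p) = (𝓝 p).map (Fm y) :=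
  ((isOpenEmbedding_Fm y).map_nhds_eq p).symm

end QDMan
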