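import Pool.Agent.Lib.QDMan.LocalE
import Pool.Agent.Lib.QDMan.Loc
import Pool.Agent.Lib.QDMan.Line
import Pool.Agent.Lib.QDMan.Top

/-!
# Chunk C5: every upper semicontinuous `g : M → ℕ` has a lower semicontinuous majorant

PROOF. Let `E₀ c` be as in `exists_E g hg c` and `E c x = max c (sup_{i ≤ c} E₀ i x)`: monotone in
`c`, `E c x ≥ c`, `g (Fm z (u, 0)) ≤ E c z` for `|u| ≤ c`, and for every legitimate `z` and `c` there
is `n` with `E c z ≤ E c w` for all `w ∈ V z n` (finitely many `i`, use `V_antitone`).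
`cc q = ⌈max 1 (rad q.code q.crd)⌉₊`, `h q = max (E (cc q) q.code) (loc q)`, `loc` from `exists_loc`.

`g ≤ h`: if `q.code` is a limit point and `q.crd.2 = 0` then `q = Fm q.lc (u, 0)`, `u = q.crd.1`,
`|u| ≤ rad ≤ cc q`; otherwise by `loc`.

`h` is lsc. It is enough: for all `y : LCode`, `p`, with `q = Fm y p` and `q.code = y` (every point
is of this form, `exists_Fm_eq`), `∀ᶠ p' in 𝓝 p, h (Fm y p) ≤ h (Fm y p')`; then `{q | n ≤ h q}` is
open by `nhds_Fm` and `isOpen_iff_mem_nhds`.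
(a) `y` isolated, or `y` a limit point and `p.2 < 0`: near `p` the code is `y` and the coordinates
are `p'` (`F_low`); `rad` is continuous, `⌈·⌉₊` is lsc (if `⌈r⌉₊ = m` then `r > m - 1`, so
`⌈r'⌉₊ ≥ m` for `r'` near `r`), `E` is monotone in `c`, `loc` by the third property.
(b) `y` a limit point, `p.2 = 0`: `h q = E (cc q) y`, `cc q = ⌈max 1 |p.1|⌉₊`. For `p'` near `p` the
code of `Fm y p'` is in `V y n` (`F_mem_V`), and `max 1 (rad (Fm y p')) ≥ max 1 |p'.1|` by `key_F`, so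
`cc (Fm y p') ≥ cc q`. Hence `h (Fm y p') ≥ E (cc (Fm y p')) w ≥ E (cc q) w ≥ E (cc q) y`.
(c) `y` a limit point, `p = (a, 1/k)`: by `line_nhds` with `A = h q`: for `p'` near `p` either
`p'.2 = 1/k` and `F y p' = (y, (p'.1, k))`: `rad = |p'.1|` (as `-k < 0`), so as in (a), with the
fourth property of `loc` (pull back along the first coordinate, `continuous_fst`); or
`F y p' = (x j, (τ, s))` with `|τ| ≥ A`, and `rad (x j) (τ, s) ≥ |τ|`, so
`h (Fm y p') ≥ E (cc ..) .. ≥ cc .. ≥ |τ| ≥ h q`.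
-/

set_option autoImplicit false

open Set Filter Topology

namespace QDMan

open Code

theorem ceil_lsc (r : ℝ) : ∀ᶠ r' : ℝ in 𝓝 r, ⌈r⌉₊ ≤ ⌈r'⌉₊ := by
  rcases Nat.eq_zero_or_pos ⌈r⌉₊ with h | h
  · exact Eventually.of_forall fun r' => by rw [h]; exact Nat.zero_le _
  · obtain ⟨m, hm⟩ := Nat.exists_eq_succ_of_ne_zero h.ne'
    have h1 : (m : ℝ) < r := by
      rw [← Nat.lt_ceil, hm]; exact Nat.lt_succ_self m
    filter_upwards [lt_mem_nhds h1] with r' hr'
    rw [hm]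
    exact Nat.lt_ceil.2 hr'

theorem le_rad (y : Code) (q : ℝ × ℝ) : |q.1| ≤ rad y q := by
  cases y with
  | iso a b => exact le_max_left _ _
  | lpt b t x => exact le_max_left _ _

theorem continuous_rad (y : Code) : Continuous (rad y) := by
  cases y with
  | iso a b =>
    have : rad (iso a b) = fun q : ℝ × ℝ => max |q.1| |q.2| := rfl
    rw [this]; fun_prop
  | lpt b t x =>
    have : rad (lpt b t x) = fun q : ℝ × ℝ => max |q.1| (-q.2) := rfl
    rw [this]; fun_prop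

/-- the radius of a point of `M` (at least one), rounded up -/
noncomputable def cc (q : M) : ℕ := ⌈max 1 (rad q.code q.crd)⌉₊

/-- the majorant -/
noncomputable def majo (E : ℕ → Code → ℕ) (loc : M → ℕ) (q : M) : ℕ :=
  max (E (cc q) q.code) (loc q)

theorem exists_E_mono (g : M → ℕ) (hg : ∀ n, IsOpen {q | g q ≤ n}) :
    ∃ E : ℕ → Code → ℕ, (∀ z, Monotone fun c => E c z) ∧ (∀ c z, c ≤ E c z) ∧
      (∀ (z : LCode) (u : ℝ) (c : ℕ), IsLim z.1 → |u| ≤ c → g (Fm z (u, 0)) ≤ E c z.1) ∧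
      ∀ c z, Legit z → ∃ n, ∀ w ∈ V z n, E c z ≤ E c w := by
  choose E0 hE1 hE2 using exists_E g hg
  refine ⟨fun c z => max c ((Finset.range (c + 1)).sup fun i => E0 i z), ?_, ?_, ?_, ?_⟩
  · intro z c c' hc
    refine max_le_max hc (Finset.sup_mono ?_)
    exact Finset.range_subset_range.2 (Nat.succ_le_succ hc)
  · intro c z
    exact le_max_left _ _
  · intro z u c hz hu
    refine (hE1 c z u hz hu).trans (le_max_of_le_right ?_)
    exact Finset.le_sup (f := fun i => E0 i z.1) (Finset.mem_range.2 (Nat.lt_succ_self c))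
  · intro c z hz
    have h1 : ∀ i, ∃ n, ∀ w ∈ V z n, E0 i z ≤ E0 i w := fun i => hE2 i z hz
    choose n hn using h1
    refine ⟨(Finset.range (c + 1)).sup n, fun w hw => max_le_max le_rfl ?_⟩
    refine Finset.sup_mono_fun fun i hi => ?_
    exact hn i w (V_antitone z (Finset.le_sup (f := n) hi) hw)

theorem majo_lsc {E : ℕ → Code → ℕ} {loc : M → ℕ} (hm : ∀ z, Monotone fun c => E c z)
    (hc : ∀ c z, c ≤ E c z) (ho : ∀ c z, Legit z → ∃ n, ∀ w ∈ V z n, E c z ≤ E c w)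
    (h0 : ∀ q : M, IsLim q.code → q.crd.2 = 0 → loc q = 0)
    (h1 : ∀ (z : LCode) (p : ℝ × ℝ), (IsLim z.1 → p.2 < 0) →
        ∀ᶠ p' : ℝ × ℝ in 𝓝 p, loc (Fm z p) ≤ loc (Fm z p'))
    (h2 : ∀ (z : LCode) (k : ℕ) (u : ℝ), IsLim z.1 → 1 ≤ k →
        ∀ᶠ u' : ℝ in 𝓝 u, loc (Fm z (u, 1 / (k : ℝ))) ≤ loc (Fm z (u', 1 / (k : ℝ))))
    (y : Code) (hy : Legit y) (p : ℝ × ℝ) (hp : (F y p).1 = y) :
    ∀ᶠ p' : ℝ × ℝ in 𝓝 p, majo E loc (Fm ⟨y, hy⟩ p) ≤ majo E loc (Fm ⟨y, hy⟩ p') := by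
  have hfst : ∀ᶠ p' : ℝ × ℝ in 𝓝 p, ⌈max 1 |p.1|⌉₊ ≤ ⌈max 1 |p'.1|⌉₊ := by
    have hcont : Continuous fun p' : ℝ × ℝ => max 1 |p'.1| := by fun_prop
    exact (hcont.tendsto p).eventually (ceil_lsc _)
  have hrad : ∀ᶠ p' : ℝ × ℝ in 𝓝 p, ⌈max 1 (rad y p)⌉₊ ≤ ⌈max 1 (rad y p')⌉₊ := by
    have hcont : Continuous fun p' : ℝ × ℝ => max 1 (rad y p') :=
      continuous_const.max (continuous_rad y)
    exact (hcont.tendsto p).eventually (ceil_lsc _)
  -- the easy case: the code and the coordinates are those of the plane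
  have easy : (IsLim y → p.2 < 0) → (∀ᶠ p' : ℝ × ℝ in 𝓝 p, F y p' = (y, p')) →
      ∀ᶠ p' : ℝ × ℝ in 𝓝 p, majo E loc (Fm ⟨y, hy⟩ p) ≤ majo E loc (Fm ⟨y, hy⟩ p') := by
    intro hl hF
    have hp0 : F y p = (y, p) := hF.self_of_nhds
    filter_upwards [hF, hrad, h1 ⟨y, hy⟩ p hl] with p' hF' hr' hl'
    refine max_le_max ?_ hl'
    simp only [cc, code_Fm, crd_Fm, hp0, hF']
    exact hm y hr'
  cases y with
  | iso a b =>
    exact easy (fun h => absurd h (by simp)) (Eventually.of_forall fun p' => rfl)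
  | lpt b t x =>
    rcases cases3 p with h3 | ⟨k, hk, hpos, h3⟩ | ⟨j, hj⟩
    · rcases h3.lt_or_eq with h4 | h4
      · refine easy (fun _ => h4) ?_
        have : ∀ᶠ p' : ℝ × ℝ in 𝓝 p, p'.2 < 0 :=
          (continuous_snd.tendsto p).eventually (gt_mem_nhds h4)
        filter_upwards [this] with p' hp'
        exact F_low hp'.le
      · obtain ⟨n, hn⟩ := ho ⌈max 1 |p.1|⌉₊ (lpt b t x) hy
        have hnear : ∀ᶠ p' : ℝ × ℝ in 𝓝 p, p'.2 < 1 / ((n : ℝ) + 1) := by
          refine (continuous_snd.tendsto p).eventually (gt_mem_nhds ?_)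
          rw [h4]; positivity
        filter_upwards [hfst, hnear] with p' hp1 hp2
        have hV : (F (lpt b t x) p').1 ∈ V (lpt b t x) n := by
          apply F_mem_V
          rcases le_or_gt p'.2 0 with h5 | h5
          · exact Or.inl h5
          · right
            rw [lt_div_iff₀ (by positivity)] at hp2
            rw [lt_div_iff₀ h5]
            nlinarith
        have hq : cc (Fm ⟨lpt b t x, hy⟩ p) = ⌈max 1 |p.1|⌉₊ := by
          simp only [cc, code_Fm, crd_Fm, F_low h3, rad_lpt, h4, neg_zero]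
          rw [max_eq_left (abs_nonneg p.1)]
        have hq' : ⌈max 1 |p.1|⌉₊ ≤ cc (Fm ⟨lpt b t x, hy⟩ p') := by
          refine hp1.trans (Nat.ceil_le_ceil ?_)
          exact max_le (le_max_left _ _) (key_F _ _)
        have hlc : loc (Fm ⟨lpt b t x, hy⟩ p) = 0 := by
          apply h0
          · simp only [code_Fm, F_low h3]; trivial
          · simp only [crd_Fm, F_low h3]; exact h4
        refine max_le ?_ (by rw [hlc]; exact Nat.zero_le _)
        refine le_max_of_le_left ?_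
        rw [hq]
        simp only [code_Fm, F_low h3]
        exact (hn _ hV).trans (hm _ hq')
    · have hk0 : (0 : ℝ) < k := by exact_mod_cast hk
      have hp2 : p.2 = 1 / (k : ℝ) := by
        rw [← h3, one_div_one_div]
      have hpe : p = (p.1, 1 / (k : ℝ)) := Prod.ext rfl hp2
      obtain ⟨C, hC⟩ := line_nhds b t x hk p.1
      have hC1 := hC (majo E loc (Fm ⟨lpt b t x, hy⟩ p) : ℝ)
      rw [← hpe] at hC1
      have hl2 : ∀ᶠ p' : ℝ × ℝ in 𝓝 p, loc (Fm ⟨lpt b t x, hy⟩ (p.1, 1 / (k : ℝ))) ≤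
          loc (Fm ⟨lpt b t x, hy⟩ (p'.1, 1 / (k : ℝ))) :=
        (continuous_fst.tendsto p).eventually (h2 ⟨lpt b t x, hy⟩ k p.1 trivial hk)
      have hFp : F (lpt b t x) p = (lpt b t x, (p.1, (k : ℝ))) := F_line hpos h3
      have hmax : ∀ u : ℝ, max |u| (-(k : ℝ)) = |u| := fun u =>
        max_eq_left (by linarith [abs_nonneg u])
      filter_upwards [hfst, hC1, hl2] with p' hp1 hp2' hp3
      rcases hp2' with ⟨h5, h6⟩ | ⟨j, τ, s, hj, h6, h7, h8, h9⟩
      · have hp'2 : p'.2 = 1 / (k : ℝ) := by rw [← h5, one_div_one_div]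
        have hpe' : p' = (p'.1, 1 / (k : ℝ)) := Prod.ext rfl hp'2
        refine max_le_max ?_ ?_
        · simp only [cc, code_Fm, crd_Fm, hFp, h6, rad_lpt, hmax]
          exact hm _ hp1
        · rw [hpe, hpe']
          exact hp3
      · refine le_max_of_le_left ?_
        refine le_trans ?_ (hc _ _)
        have h10 : (majo E loc (Fm ⟨lpt b t x, hy⟩ p) : ℝ) ≤ max 1 (rad (x j) (τ, s)) :=
          h7.trans ((le_rad (x j) (τ, s)).trans (le_max_right _ _))
        simp only [cc, code_Fm, crd_Fm, h6]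
        exact_mod_cast h10.trans (Nat.le_ceil _)
    · rw [F_strip hj] at hp
      exact absurd (hp ▸ F_sh_mem_V (x j) j (embG b j p)) (not_mem_lad hy j)

theorem exists_lsc_M (g : M → ℕ) (hg : ∀ n, IsOpen {q | g q ≤ n}) :
    ∃ h : M → ℕ, (∀ q, g q ≤ h q) ∧ ∀ n, IsOpen {q | n ≤ h q} := by
  obtain ⟨E, hm, hc, hE, ho⟩ := exists_E_mono g hg
  obtain ⟨loc, hl1, hl2, hl3, hl4⟩ := exists_loc g hg
  refine ⟨majo E loc, ?_, ?_⟩
  · intro q
    by_cases hq : IsLim q.code ∧ q.crd.2 = 0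
    · refine le_max_of_le_left ?_
      have h1 : Fm q.lc (q.crd.1, 0) = q := by
        apply Subtype.ext
        show F q.code (q.crd.1, 0) = q.1
        rw [F_low (le_refl (0 : ℝ))]
        exact Prod.ext rfl (Prod.ext rfl hq.2.symm)
      have h2 : |q.crd.1| ≤ (cc q : ℝ) :=
        (le_rad q.code q.crd).trans ((le_max_right _ _).trans (Nat.le_ceil _))
      have h3 := hE q.lc q.crd.1 (cc q) hq.1 h2
      rwa [h1] at h3
    · refine le_max_of_le_right (hl1 q fun h h' => hq ⟨h, h'⟩)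
  · intro n
    rw [isOpen_iff_mem_nhds]
    intro q hq
    obtain ⟨p, hp⟩ := exists_Fm_eq q
    have h1 : (F q.code p).1 = q.code := by
      have := congrArg M.code hp
      exact this
    have h2 := majo_lsc hm hc ho hl2 hl3 hl4 q.code q.legit p h1
    have h3 : 𝓝 q = (𝓝 p).map (Fm q.lc) := by
      rw [← nhds_Fm, hp]
    rw [h3, Filter.mem_map]
    filter_upwards [h2] with p' hp'
    have h4 : majo E loc (Fm ⟨q.code, q.legit⟩ p) = majo E loc q := congrArg _ hp
    rw [h4] at hp'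
    exact le_trans hq hp'

end QDMan
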