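import Pool.Agent.Lib.QDMan.NonMoore
import Pool.Agent.Lib.QDMan.Top

/-!
# Chunk Q2: `M` is not developable

PROOF. Let `G` be a development. For an isolated code `y` let `P y = Set.range (Fm y)` (open: `isOpenMap_Fm`),
the set of points with code `y`, and `ctr y = Fm y (0, 0)`. Let `c y` be the least `m` such that all
`g ∈ G m` containing `ctr y` are contained in `P y`. By `exists_const_ladder c` there is a legitimate
`z = lpt b t x` with all `x j` isolated and `c (x j) = m`. `Fm z (0, s j) = ctr (x j)` with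
`s j = 1 / (j + 1/2)`: `(0, s j) ∈ strip j`, `embG b j (0, s j) = (tau (1/2), psi 0 - theta b * |tau (1/2)|)
= (0, 0)`.  As `(0, s j) → (0, 0)`, `ctr (x j) → Fm z (0, 0) = (z, (0, 0))`.  Some `g ∈ G m` contains
`Fm z (0, 0)`, is open, so contains `ctr (x j)` for large `j`; so `g ⊆ P (x j)`, but
`Fm z (0, 0) ∈ g` has code `z ≠ x j`.
-/

set_option autoImplicit false

open Set Filter Topology

namespace QDMan

open Code

theorem F_center {b : ℕ → Bool} {t : List ℕ} {x : ℕ → Code} (j : ℕ) :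
    F (lpt b t x) (0, 1 / ((j : ℝ) + 1 / 2)) = (x j, (0, 0)) := by
  have h1 : (0 : ℝ) < (j : ℝ) + 1 / 2 := by positivity
  have hs : ((0 : ℝ), 1 / ((j : ℝ) + 1 / 2)) ∈ strip j := by
    refine ⟨?_, ?_, ?_⟩
    · show (0 : ℝ) < 1 / ((j : ℝ) + 1 / 2)
      positivity
    · show (j : ℝ) < 1 / (1 / ((j : ℝ) + 1 / 2))
      rw [one_div_one_div]; linarith
    · show 1 / (1 / ((j : ℝ) + 1 / 2)) < (j : ℝ) + 1
      rw [one_div_one_div]; linarith
  rw [F_strip hs]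
  have h2 : embG b j ((0 : ℝ), 1 / ((j : ℝ) + 1 / 2)) = (0, 0) := by
    unfold embG emb
    simp only [one_div_one_div]
    have h3 : (j : ℝ) + 1 / 2 - j = 1 / 2 := by ring
    rw [h3]
    have h4 : tau (1 / 2) = 0 := by unfold tau; norm_num
    have h5 : psi 0 = 0 := by unfold psi; norm_num
    rw [h4, h5]
    simp
  rw [h2, sh_low _ _ (le_refl (0 : ℝ)), F_low (le_refl (0 : ℝ))]

theorem not_developable_M :
    ¬ ∃ G : ℕ → Set (Set M), (∀ k, (∀ g ∈ G k, IsOpen g) ∧ ⋃₀ G k = Set.univ) ∧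
      ∀ (x : M) (U : Set M), IsOpen U → x ∈ U → ∃ k, ∀ g ∈ G k, x ∈ g → g ⊆ U := by
  rintro ⟨G, hG1, hG2⟩
  have h1 : ∀ y : Code, ∃ m : ℕ, ∀ hy : Legit y, ∀ g ∈ G m, Fm ⟨y, hy⟩ (0, 0) ∈ g →
      g ⊆ range (Fm ⟨y, hy⟩) := by
    intro y
    by_cases hy : Legit y
    · obtain ⟨m, hm⟩ := hG2 (Fm ⟨y, hy⟩ (0, 0)) (range (Fm ⟨y, hy⟩))
        (isOpenMap_Fm _).isOpen_range ⟨_, rfl⟩
      exact ⟨m, fun _ => hm⟩
    · exact ⟨0, fun h => absurd h hy⟩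
  choose c hc using h1
  obtain ⟨b, t, x, m, hL, hx⟩ := exists_const_ladder c
  obtain ⟨g, hg, hgz⟩ : ∃ g ∈ G m, Fm ⟨lpt b t x, hL⟩ (0, 0) ∈ g := by
    have h2 : Fm ⟨lpt b t x, hL⟩ (0, 0) ∈ ⋃₀ G m := by
      rw [(hG1 m).2]; exact mem_univ _
    obtain ⟨g, hg, h3⟩ := h2
    exact ⟨g, hg, h3⟩
  have hlim : Tendsto (fun j : ℕ => ((0 : ℝ), 1 / ((j : ℝ) + 1 / 2))) atTop (𝓝 (0, 0)) := by
    refine tendsto_const_nhds.prodMk_nhds ?_
    have h4 : Tendsto (fun j : ℕ => (j : ℝ) + 1 / 2) atTop atTop :=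
      tendsto_atTop_add_const_right _ _ tendsto_natCast_atTop_atTop
    have h4' := h4.inv_tendsto_atTop
    refine h4'.congr fun j => ?_
    simp [one_div]
  have h5 : Tendsto (fun j : ℕ => Fm ⟨lpt b t x, hL⟩ ((0 : ℝ), 1 / ((j : ℝ) + 1 / 2))) atTop
      (𝓝 (Fm ⟨lpt b t x, hL⟩ (0, 0))) :=
    ((continuous_Fm _).tendsto _).comp hlim
  have h6 := h5.eventually (((hG1 m).1 g hg).mem_nhds hgz)
  obtain ⟨j, hj⟩ := h6.exists
  obtain ⟨⟨a, b', hxj⟩, hcm⟩ := hx j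
  have hLj : Legit (x j) := hL.1 j
  have h7 : Fm ⟨lpt b t x, hL⟩ ((0 : ℝ), 1 / ((j : ℝ) + 1 / 2)) = Fm ⟨x j, hLj⟩ (0, 0) := by
    apply Subtype.ext
    show F (lpt b t x) ((0 : ℝ), 1 / ((j : ℝ) + 1 / 2)) = F (x j) (0, 0)
    rw [F_center, F_low (le_refl (0 : ℝ))]
  have h8 : Fm ⟨x j, hLj⟩ (0, 0) ∈ g := by rw [← h7]; exact hj
  have hg' : g ∈ G (c (x j)) := by rw [hcm]; exact hg
  have h9 := hc (x j) hLj g hg' h8 hgz
  obtain ⟨p, hp⟩ := h9
  have h10 : (F (x j) p).1 = lpt b t x := by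
    have h11 := congrArg M.code hp
    rw [code_Fm, code_Fm] at h11
    have h12 : F (lpt b t x) (0, 0) = (lpt b t x, ((0 : ℝ), (0 : ℝ))) := F_low (le_refl (0 : ℝ))
    rw [h11]
    show (F (lpt b t x) (0, 0)).1 = lpt b t x
    rw [h12]
  rw [hxj, F_iso] at h10
  exact absurd h10 (by simp)

end QDMan
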