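import Pool.Agent.Lib.QDMan.Top

/-!
# Chunk Q1: `M` is quasi-developable

PROOF. (1) Abstract part. Suppose `D i y ⊆ ℝ × ℝ` is open for `i` in a countable type and
`y : LCode` and for every `q : M` there are `i`, `y` with `q ∈ Fm y '' D i y` and
`∀ y', q ∈ Fm y' '' D i y' → y' = y`.  Then `G (i, N) = {Fm y '' (ball p (1/(N+1)) ∩ D i y)}`
(all `y`, `p`) works: for `q = Fm y p₀`, `U` open, take `ε` with `ball p₀ ε ⊆ Fm y ⁻¹' U` and
`2/(N+1) < ε`; a member containing `q` has the same `y`, and `p₀ ∈ ball p (1/(N+1))` (injectivity).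
(Reindex the countable type by `ℕ` with `Encodable.decode` or `exists_surjective_nat`.)
(2) The families (`Option ℕ`): `D none y = univ` for isolated `y`, empty for limit points: catches
the points with isolated code (`F_iso`).
`D (some m) y = univ` if `IsLim y` and `len y = m`, else empty: catches all points `q` with `q.code`
a limit point of length `m` (also those on lines): if `q = Fm y' p` then `q.code ∈ V y' 0`
(`F_mem_V_zero`) and `len y' = len q.code`, so `q.code = y'` by `len_lt_of_mem_ne`.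
-/

set_option autoImplicit false

open Set Filter Topology

namespace QDMan

open Code

/-- the families of planes: number `0` for isolated points, number `m + 1` for limit points of
length `m` -/
def Fam (i : ℕ) (y : Code) : Prop :=
  (i = 0 ∧ ¬ IsLim y) ∨ ∃ m, i = m + 1 ∧ IsLim y ∧ len y = (m : ℕ∞)

theorem exists_fam (q : M) :
    ∃ i, Fam i q.code ∧ ∀ y : LCode, Fam i y.1 → q ∈ range (Fm y) → y = q.lc := by
  by_cases hq : IsLim q.code
  · obtain ⟨b, t, x, hx⟩ : ∃ b t x, q.code = lpt b t x := by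
      cases hc : q.code with
      | iso a b => rw [hc] at hq; exact absurd hq (by simp)
      | lpt b t x => exact ⟨b, t, x, rfl⟩
    refine ⟨t.length + 1, Or.inr ⟨t.length, rfl, hq, by rw [hx, len_lim]⟩, ?_⟩
    rintro y hy ⟨p, hp⟩
    rcases hy with ⟨h0, -⟩ | ⟨m, hm, hyl, hlen⟩
    · exact absurd h0 (Nat.succ_ne_zero _)
    have hm' : m = t.length := by omega
    subst hm'
    have hmem : q.code ∈ V y.1 0 := by
      rw [← hp]; exact F_mem_V_zero y.1 p
    apply Subtype.ext
    show y.1 = q.code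
    by_contra hne
    obtain ⟨y, hyL⟩ := y
    cases y with
    | iso a b => exact absurd hyl (by simp)
    | lpt b' t' x' =>
      have h1 := len_lt_of_mem_ne hyL hmem (fun h => hne h.symm)
      rw [hx, len_lim] at h1
      simp only [len_lim] at hlen
      rw [hlen] at h1
      exact lt_irrefl _ h1
  · refine ⟨0, Or.inl ⟨rfl, hq⟩, ?_⟩
    rintro y hy ⟨p, hp⟩
    rcases hy with ⟨-, hy⟩ | ⟨m, hm, -⟩
    · apply Subtype.ext
      show y.1 = q.code
      rw [← hp, code_Fm]
      obtain ⟨y, hyL⟩ := y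
      cases y with
      | iso a b => rfl
      | lpt b' t' x' => exact absurd trivial hy
    · exact absurd hm (Nat.succ_ne_zero _).symm

theorem qd_M : ∃ G : ℕ → Set (Set M), (∀ k, ∀ g ∈ G k, IsOpen g) ∧
    ∀ (x : M) (U : Set M), IsOpen U → x ∈ U →
      ∃ k, (∃ g ∈ G k, x ∈ g) ∧ ∀ g ∈ G k, x ∈ g → g ⊆ U := by
  refine ⟨fun k => {g | ∃ (y : LCode) (p : ℝ × ℝ), Fam k.unpair.1 y.1 ∧
    g = Fm y '' Metric.ball p (1 / ((k.unpair.2 : ℝ) + 1))}, ?_, ?_⟩
  · rintro k g ⟨y, p, -, rfl⟩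
    exact isOpenMap_Fm y _ Metric.isOpen_ball
  · intro q U hU hq
    obtain ⟨i, hi, hi'⟩ := exists_fam q
    obtain ⟨p₀, hp₀⟩ := exists_Fm_eq q
    have h1 : IsOpen (Fm q.lc ⁻¹' U) := hU.preimage (continuous_Fm _)
    have h2 : p₀ ∈ Fm q.lc ⁻¹' U := by
      show Fm q.lc p₀ ∈ U
      rw [hp₀]; exact hq
    obtain ⟨ε, hε, hball⟩ := Metric.isOpen_iff.1 h1 p₀ h2
    obtain ⟨N, hN⟩ := exists_nat_one_div_lt (half_pos hε)
    have hpos : (0 : ℝ) < 1 / ((N : ℝ) + 1) := by positivity
    refine ⟨Nat.pair i N, ⟨Fm q.lc '' Metric.ball p₀ (1 / ((N : ℝ) + 1)), ?_, ?_⟩, ?_⟩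
    · refine ⟨q.lc, p₀, ?_, ?_⟩
      · rw [Nat.unpair_pair]; exact hi
      · rw [Nat.unpair_pair]
    · exact ⟨p₀, Metric.mem_ball_self hpos, hp₀⟩
    · rintro g ⟨y, p, hy, rfl⟩ hqg
      rw [Nat.unpair_pair] at hy hqg ⊢
      simp only at hy hqg ⊢
      obtain ⟨p', hp', hp'q⟩ := hqg
      have h3 : y = q.lc := hi' y hy ⟨p', hp'q⟩
      subst h3
      have h4 : p' = p₀ := Fm_injective _ (hp'q.trans hp₀.symm)
      subst h4
      rintro _ ⟨p'', hp'', rfl⟩
      apply hball
      rw [Metric.mem_ball] at hp' hp'' ⊢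
      have h5 := dist_triangle p'' p p'
      rw [dist_comm p' p] at hp'
      linarith

end QDMan
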