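import Pool.Agent.Lib.QDMan.Haus
import Pool.Agent.Lib.QDMan.Charted
import Pool.Agent.Lib.QDMan.Cm
import Pool.Agent.Lib.QDMan.QD
import Pool.Agent.Lib.QDMan.NonDev

/-!
# The final theorem: `M` is a countably metacompact, quasi-developable 2-manifold which is not
developable
-/

set_option autoImplicit false

open Set

namespace QDMan

theorem main :
    ¬ (∀ (X : Type) [TopologicalSpace X] [T2Space X] (n : ℕ)
      [ChartedSpace (EuclideanSpace ℝ (Fin n)) X],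
      (∀ U : ℕ → Set X, (∀ k, IsOpen (U k)) → (⋃ k, U k) = Set.univ →
        ∃ (ι : Type) (V : ι → Set X), (∀ i, IsOpen (V i)) ∧ (⋃ i, V i) = Set.univ ∧
          (∀ i, ∃ k, V i ⊆ U k) ∧ (∀ x : X, {i : ι | x ∈ V i}.Finite)) →
      (∃ G : ℕ → Set (Set X), (∀ k, ∀ g ∈ G k, IsOpen g) ∧
        ∀ (x : X) (U : Set X), IsOpen U → x ∈ U →
          ∃ k, (∃ g ∈ G k, x ∈ g) ∧ ∀ g ∈ G k, x ∈ g → g ⊆ U) →
      (RegularSpace X ∧
        ∃ G : ℕ → Set (Set X), (∀ k, (∀ g ∈ G k, IsOpen g) ∧ ⋃₀ G k = Set.univ) ∧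
          ∀ (x : X) (U : Set X), IsOpen U → x ∈ U →
            ∃ k, ∀ g ∈ G k, x ∈ g → g ⊆ U)) := by
  intro h
  exact not_developable_M (h M 2 cm_M qd_M).2

end QDMan
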