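import Mathlib

/-!
# Chunk C2: upper semicontinuous functions on metric spaces have lsc majorants

PROOF. Let `W n = {x | g x ≤ n}` (open, increasing, covering `E`) and
`C n = {x | ENNReal.ofReal (1/(n+1)) ≤ Metric.infEDist x (W n)ᶜ}` (closed, contained in `W n`,
increasing, and every `x` is in some `C n`, since `infEDist x (W m)ᶜ > 0` for `x ∈ W m`). Put
`h x =` the least `n` with `x ∈ C n`. Then `g x ≤ h x` and `{x | n ≤ h x} = (⋃ i < n, C i)ᶜ`.
-/

set_option autoImplicit false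

open Set Filter Topology

namespace QDMan

theorem metric_lsc {E : Type*} [PseudoMetricSpace E] (g : E → ℕ) (hg : ∀ n, IsOpen {x | g x ≤ n}) :
    ∃ h : E → ℕ, (∀ x, g x ≤ h x) ∧ ∀ n, IsOpen {x | n ≤ h x} := by
  classical
  set W : ℕ → Set E := fun n => {x | g x ≤ n} with hW
  set C : ℕ → Set E := fun n =>
    {x | ENNReal.ofReal (1 / ((n : ℝ) + 1)) ≤ Metric.infEDist x (W n)ᶜ} with hC
  have hWm : Monotone W := fun m n hmn x hx => le_trans hx hmn
  have hclosed : ∀ n, IsClosed (C n) := fun n =>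
    isClosed_le continuous_const Metric.continuous_infEDist
  have hCW : ∀ n, C n ⊆ W n := by
    intro n x hx
    by_contra hc
    have h1 : Metric.infEDist x (W n)ᶜ = 0 := Metric.infEDist_zero_of_mem hc
    have h2 : ENNReal.ofReal (1 / ((n : ℝ) + 1)) ≤ Metric.infEDist x (W n)ᶜ := hx
    rw [h1] at h2
    have h3 : 0 < ENNReal.ofReal (1 / ((n : ℝ) + 1)) := by
      rw [ENNReal.ofReal_pos]; positivity
    exact absurd h2 (not_le.2 h3)
  have hex : ∀ x, ∃ n, x ∈ C n := by
    intro x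
    have h1 : x ∈ W (g x) := by
      show g x ≤ g x
      exact le_rfl
    have h2 : Metric.infEDist x (W (g x))ᶜ ≠ 0 := by
      intro h0
      have h3 : x ∈ closure (W (g x))ᶜ := Metric.mem_closure_iff_infEDist_zero.2 h0
      rw [(hg (g x)).isClosed_compl.closure_eq] at h3
      exact h3 h1
    obtain ⟨m, hm⟩ := ENNReal.exists_inv_nat_lt h2
    refine ⟨max (g x) m, ?_⟩
    show ENNReal.ofReal _ ≤ _
    have h4 : Metric.infEDist x (W (g x))ᶜ ≤ Metric.infEDist x (W (max (g x) m))ᶜ :=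
      Metric.infEDist_anti (compl_subset_compl.2 (hWm (le_max_left _ _)))
    refine le_trans ?_ (hm.le.trans h4)
    have h5 : ((m : ENNReal))⁻¹ ≥ ENNReal.ofReal (1 / ((max (g x) m : ℕ) + 1 : ℝ)) := by
      rw [ge_iff_le, one_div, ENNReal.ofReal_inv_of_pos (by positivity)]
      apply ENNReal.inv_le_inv.2
      rw [← ENNReal.ofReal_natCast m]
      apply ENNReal.ofReal_le_ofReal
      have : (m : ℝ) ≤ ((max (g x) m : ℕ) : ℝ) := by exact_mod_cast le_max_right _ _
      linarith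
    exact h5
  refine ⟨fun x => Nat.find (hex x), fun x => ?_, fun n => ?_⟩
  · exact hCW _ (Nat.find_spec (hex x))
  · have : {x | n ≤ Nat.find (hex x)} = (⋃ i ∈ Set.Iio n, C i)ᶜ := by
      ext x
      simp only [mem_ofPred_eq, mem_compl_iff, mem_iUnion, Set.mem_Iio, exists_prop, not_exists,
        not_and, Nat.le_find_iff]
    rw [this, isOpen_compl_iff]
    exact (Set.finite_Iio n).isClosed_biUnion fun i _ => hclosed i

/-- version on an open subset of a metric space -/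
theorem metric_lsc_on {E : Type*} [PseudoMetricSpace E] {O : Set E} (hO : IsOpen O) (g : E → ℕ)
    (hg : ∀ n, IsOpen ({x | g x ≤ n} ∩ O)) :
    ∃ h : E → ℕ, (∀ x ∈ O, g x ≤ h x) ∧ ∀ x ∈ O, ∀ᶠ y in 𝓝 x, h x ≤ h y := by
  classical
  obtain ⟨h, h1, h2⟩ := metric_lsc (E := O) (fun x => g x.1) (by
    intro n
    have : {x : O | g x.1 ≤ n} = Subtype.val ⁻¹' ({x | g x ≤ n} ∩ O) := by
      ext x; simp
    rw [this]
    exact (hg n).preimage continuous_subtype_val)
  refine ⟨fun x => if hx : x ∈ O then h ⟨x, hx⟩ else 0, fun x hx => ?_, fun x hx => ?_⟩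
  · simp only [dif_pos hx]; exact h1 ⟨x, hx⟩
  · have h3 : ∀ᶠ y : O in 𝓝 (⟨x, hx⟩ : O), h ⟨x, hx⟩ ≤ h y :=
      (h2 (h ⟨x, hx⟩)).mem_nhds (by show h ⟨x, hx⟩ ≤ h ⟨x, hx⟩; exact le_rfl)
    rw [nhds_subtype_eq_comap, Filter.eventually_comap] at h3
    filter_upwards [h3, hO.mem_nhds hx] with y hy hyO
    simp only [dif_pos hx, dif_pos hyO]
    exact hy ⟨y, hyO⟩ rfl

end QDMan
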