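import Pool.Agent.Lib.QDMan.Top
import Pool.Agent.Lib.QDMan.Line

/-!
# Chunk T2: neighbourhoods in `M` of low points and of points on lines

PROOF. Everything is read in the chart `Fm q.lc` through `exists_Fm_eq` and `nhds_Fm`
(`Filter.eventually_map`).
`low_nhds`: if `q.code` is `iso` then `V = {q.code}` and `Fm q.lc p'` has code `q.code`. If
`q.code = lpt ..` then `q = Fm q.lc p` with `p = q.crd`, `p.2 ≤ 0` (`F_low`), and for `p'` near `p`
either `p'.2 ≤ 0` or `n < 1 / p'.2`; use `F_mem_V`.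
`own_bdd_nhds`: `A = |p.1| + 1`; `p'` near `p`; for `iso` clear, for `lpt` by `cases3 p'`:
if `p'` is low or on a line then the first coordinate of `F` is `p'.1`; in a strip the code is in
`V (x j) j` (`F_strip`, `F_sh_mem_V`) which does not contain `q.code` (`not_mem_lad`).
`line_nhds_M`: from `line_nhds` (not low and own: `q.crd.2 = k`, `1 ≤ k`; `p = (q.crd.1, 1/k)`).
-/

set_option autoImplicit false

open Set Filter Topology

namespace QDMan

open Code

theorem low_nhds {q : M} (h : Low q.code q.crd) (n : ℕ) :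
    ∀ᶠ q' : M in 𝓝 q, q'.code ∈ V q.code n := by
  obtain ⟨p, hp⟩ := exists_Fm_eq q
  rw [← hp, nhds_Fm, Filter.eventually_map]
  have hcode : (Fm q.lc p).code = q.code := by rw [hp]
  rw [hcode]
  have hlc : q.lc.1 = q.code := rfl
  rcases hq : q.code with ⟨a, b⟩ | ⟨b, t, x⟩
  · refine Filter.Eventually.of_forall fun p' => ?_
    rw [code_Fm, hlc, hq, F_iso]
    exact self_mem_V _ _
  · -- the coordinate of a low point
    have h1 : p.2 ≤ 0 := by
      by_contra hc
      push Not at hc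
      have h2 : (F q.lc.1 p) = (q.code, q.crd) := Subtype.ext_iff.1 hp
      rw [hlc, hq] at h2
      rw [hq] at h
      rcases cases3 p with h3 | ⟨k, hk, h0, h3⟩ | ⟨j, hj⟩
      · exact absurd h3 (not_le.2 hc)
      · rw [F_line h0 h3] at h2
        have h4 : q.crd.2 ≤ 0 := h
        have h6 : (p.1, (k : ℝ)) = q.crd := (Prod.ext_iff.1 h2).2
        rw [← h6] at h4
        have h5 : (1 : ℝ) ≤ k := by exact_mod_cast hk
        have h7 : (k : ℝ) ≤ 0 := h4
        linarith
      · have h4 := F_sh_mem_V (x j) j (embG b j p)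
        rw [← F_strip (b := b) (t := t) (x := x) hj, h2] at h4
        have h5 : Legit (lpt b t x) := hq ▸ q.legit
        exact not_mem_lad h5 j h4
    have e : ∀ᶠ p' : ℝ × ℝ in 𝓝 p, p'.2 < 1 / ((n : ℝ) + 1) := by
      refine continuousAt_snd.eventually (gt_mem_nhds ?_)
      have : (0 : ℝ) < 1 / ((n : ℝ) + 1) := by positivity
      linarith
    filter_upwards [e] with p' hp'
    rw [code_Fm, hlc, hq]
    apply F_mem_V
    rcases le_or_gt p'.2 0 with h2 | h2
    · exact Or.inl h2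
    · right
      rw [lt_div_iff₀ (by positivity)] at hp'
      rw [lt_div_iff₀ h2]
      nlinarith

theorem own_bdd_nhds (q : M) : ∃ A : ℝ, ∀ᶠ q' : M in 𝓝 q, q'.code = q.code → |q'.crd.1| ≤ A := by
  obtain ⟨p, hp⟩ := exists_Fm_eq q
  refine ⟨|p.1| + 1, ?_⟩
  have e : ∀ᶠ p' : ℝ × ℝ in 𝓝 p, |p'.1| < |p.1| + 1 := by
    have h : ContinuousAt (fun p' : ℝ × ℝ => |p'.1|) p := by fun_prop
    exact h.eventually (gt_mem_nhds (by linarith))
  rw [← hp, nhds_Fm, Filter.eventually_map]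
  have hcode : (Fm q.lc p).code = q.code := by rw [hp]
  rw [hcode]
  filter_upwards [e] with p' hp' hc
  rw [crd_Fm]
  rw [code_Fm] at hc
  have hlc : q.lc.1 = q.code := rfl
  rw [hlc] at hc ⊢
  rcases hq : q.code with ⟨a, b⟩ | ⟨b, t, x⟩
  · rw [F_iso]; exact hp'.le
  · rw [hq] at hc
    rcases cases3 p' with h3 | ⟨k, hk, h0, h3⟩ | ⟨j, hj⟩
    · rw [F_low h3]; exact hp'.le
    · rw [F_line h0 h3]; exact hp'.le
    · have h4 := F_sh_mem_V (x j) j (embG b j p')
      rw [← F_strip (b := b) (t := t) (x := x) hj, hc] at h4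
      have h5 : Legit (lpt b t x) := hq ▸ q.legit
      exact absurd h4 (not_mem_lad h5 j)

theorem line_nhds_M {q : M} (h : ¬ Low q.code q.crd) :
    ∃ (b : ℕ → Bool) (t : List ℕ) (x : ℕ → Code) (k : ℕ) (C : ℝ), q.code = lpt b t x ∧ 1 ≤ k ∧
      q.crd.2 = k ∧ ∀ A : ℝ, ∀ᶠ q' : M in 𝓝 q, (q'.code = q.code ∧ q'.crd.2 = k) ∨
        ∃ j : ℕ, (j = k ∨ j + 1 = k) ∧ q'.code = x j ∧ A ≤ |q'.crd.1| ∧ q'.crd.2 < 0 ∧
          |q'.crd.2 + theta b * abs q'.crd.1| ≤ C := by
  have hlc : q.lc.1 = q.code := rfl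
  rcases hq : q.code with ⟨a, b⟩ | ⟨b, t, x⟩
  · rw [hq] at h; exact absurd trivial h
  · have ho := q.own
    rw [hq] at ho h
    obtain ⟨k, hk, hk2⟩ := ho.resolve_left h
    have hk' : (0 : ℝ) < k := by exact_mod_cast hk
    obtain ⟨C, hC⟩ := line_nhds b t x hk q.crd.1
    refine ⟨b, t, x, k, C, rfl, hk, hk2, fun A => ?_⟩
    have hp : Fm q.lc (q.crd.1, 1 / (k : ℝ)) = q := by
      apply Subtype.ext
      show F q.lc.1 _ = (q.code, q.crd)
      rw [hlc, hq, F_line (k := k) (by simpa using hk') (by simp)]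
      exact Prod.ext rfl (Prod.ext rfl hk2.symm)
    have hn : 𝓝 q = (𝓝 (q.crd.1, 1 / (k : ℝ))).map (Fm q.lc) := by
      rw [← nhds_Fm, hp]
    rw [hn, Filter.eventually_map]
    filter_upwards [hC A] with p' hp'
    have hF : (Fm q.lc p').code = (F (lpt b t x) p').1 := by rw [code_Fm, hlc, hq]
    have hF2 : (Fm q.lc p').crd = (F (lpt b t x) p').2 := by rw [crd_Fm, hlc, hq]
    rcases hp' with ⟨h1, h2⟩ | ⟨j, τ, s, hj, h2, h3, h4, h5⟩
    · left
      rw [hF, hF2, h2]
      exact ⟨rfl, rfl⟩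
    · right
      refine ⟨j, hj, ?_, ?_, ?_, ?_⟩
      · rw [hF, h2]
      · rw [hF2, h2]; exact h3
      · rw [hF2, h2]; exact h4
      · rw [hF2, h2]; exact h5

end QDMan
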