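import Pool.Agent.Lib.QDMan.VLem

/-!
# Chunk K4: every countable colouring of the isolated points is constant on some ladder

PROOF. (1) For every `b` there are `m`, `t` such that for all `n` there is `a : ℕ → ℕ` with
`∀ i < t.length, a i = t.getD i 0`, `n ≤ a t.length` and `c (iso a b) = m`.  Otherwise there is
`f : ℕ → List ℕ → ℕ` such that all `a` extending `t` with `c (iso a b) = m` have
`a t.length < f m t`. Define lists `l 0 = []`, `l (k+1) = l k ++ [sup_{m ≤ k} f m (l k)]` and
`a k = sup_{m ≤ k} f m (l k)`. Then `l k` is the list of the first `k` values of `a`; with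
`m = c (iso a b)` and `t = l m` we get `a m ≥ f m (l m)`, contradiction.
(2) There are countably many pairs `(m, t)` and `ℕ → Bool` is uncountable, so for some `(m, t)`
the set of `b` satisfying (1) with `(m, t)` is uncountable.
(3) Apply `catch_lim t A` with `A n = {x | ∃ a b, x = iso a b ∧ (∀ i < t.length, a i = t.getD i 0) ∧
n ≤ a t.length ∧ c x = m}`.
-/

set_option autoImplicit false

open Set

namespace QDMan

open Code

/-- the lists of the diagonal argument -/
def nmL (g : ℕ → List ℕ → ℕ) : ℕ → List ℕ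
  | 0 => []
  | k + 1 => nmL g k ++ [g k (nmL g k)]

lemma nmL_length (g : ℕ → List ℕ → ℕ) (k : ℕ) : (nmL g k).length = k := by
  induction k with
  | zero => rfl
  | succ k ih =>
    have h : nmL g (k + 1) = nmL g k ++ [g k (nmL g k)] := rfl
    rw [h, List.length_append, ih]
    rfl

lemma nmL_getD (g : ℕ → List ℕ → ℕ) (k i : ℕ) (hi : i < k) :
    (nmL g k).getD i 0 = g i (nmL g i) := by
  induction k with
  | zero => omega
  | succ k ih =>
    have h : nmL g (k + 1) = nmL g k ++ [g k (nmL g k)] := rfl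
    rw [h]
    rcases Nat.lt_or_ge i k with h1 | h1
    · rw [List.getD_append _ _ _ _ (by rw [nmL_length]; exact h1)]
      exact ih h1
    · have h2 : i = k := by omega
      subst h2
      rw [List.getD_append_right _ _ _ _ (by rw [nmL_length])]
      simp [nmL_length]

lemma nm_diag (c : Code → ℕ) (b : ℕ → Bool) :
    ∃ (m : ℕ) (t : List ℕ), ∀ n, ∃ a : ℕ → ℕ, (∀ i < t.length, a i = t.getD i 0) ∧
      n ≤ a t.length ∧ c (iso a b) = m := by
  by_contra hcon
  push Not at hcon
  choose f hf using hcon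
  let g : ℕ → List ℕ → ℕ := fun k s => (Finset.range (k + 1)).sup (fun m => f m s)
  let a : ℕ → ℕ := fun k => g k (nmL g k)
  have h1 := hf (c (iso a b)) (nmL g (c (iso a b))) a (by
    intro i hi
    rw [nmL_length] at hi
    rw [nmL_getD g _ i hi])
  apply h1 _ rfl
  rw [nmL_length]
  exact Finset.le_sup (f := fun m => f m (nmL g (c (iso a b))))
    (Finset.mem_range.2 (Nat.lt_succ_self _))

theorem exists_const_ladder (c : Code → ℕ) :
    ∃ (b : ℕ → Bool) (t : List ℕ) (x : ℕ → Code) (m : ℕ), Legit (lpt b t x) ∧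
      ∀ j, (∃ a b', x j = iso a b') ∧ c (x j) = m := by
  let B : ℕ × List ℕ → Set (ℕ → Bool) := fun p => {b | ∀ n, ∃ a : ℕ → ℕ,
    (∀ i < p.2.length, a i = p.2.getD i 0) ∧ n ≤ a p.2.length ∧ c (iso a b) = p.1}
  have hunion : (⋃ p, B p) = Set.univ := by
    rw [Set.eq_univ_iff_forall]
    intro b
    obtain ⟨m, t, h⟩ := nm_diag c b
    exact Set.mem_iUnion.2 ⟨(m, t), h⟩
  have hunc : ¬ (Set.univ : Set (ℕ → Bool)).Countable := by
    rw [Set.countable_univ_iff, ← Cardinal.mk_le_aleph0_iff]
    have h2 : Cardinal.mk (ℕ → Bool) = Cardinal.continuum := by simp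
    rw [h2]
    exact not_le.2 Cardinal.aleph0_lt_continuum
  obtain ⟨⟨m, t⟩, hp⟩ : ∃ p, ¬ (B p).Countable := by
    by_contra hcon
    push Not at hcon
    apply hunc
    rw [← hunion]
    exact Set.countable_iUnion hcon
  let A : ℕ → Set Code := fun n => {x | ∃ (a : ℕ → ℕ) (b : ℕ → Bool), x = iso a b ∧
    (∀ i < t.length, a i = t.getD i 0) ∧ n ≤ a t.length ∧ c x = m}
  obtain ⟨b, x, hleg, hx⟩ := catch_lim t A
    (by
      intro n k hnk x hx
      obtain ⟨a, b, h1, h2, h3, h4⟩ := hx
      exact ⟨a, b, h1, h2, le_trans hnk h3, h4⟩)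
    (by
      intro n x hx
      obtain ⟨a, b, rfl, h2, h3, h4⟩ := hx
      refine ⟨?_, ?_, ?_, ?_⟩
      · rw [len_iso]; exact ENat.natCast_lt_top n
      · rw [len_iso]; exact ENat.natCast_lt_top _
      · intro i hi; rw [co_iso]; exact h2 i hi
      · rw [co_iso]; exact h3)
    (by
      intro n x hx
      obtain ⟨a, b, rfl, h2, h3, h4⟩ := hx
      exact legit_iso a b)
    (by
      intro hc
      apply hp
      refine hc.mono ?_
      intro b hb n
      obtain ⟨a, h1, h2, h3⟩ := hb n
      exact ⟨iso a b, ⟨a, b, rfl, h1, h2, h3⟩, Agree.refl _ _⟩)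
  refine ⟨b, t, x, m, hleg, fun j => ?_⟩
  obtain ⟨a, b', h1, h2, h3, h4⟩ := hx j
  exact ⟨⟨a, b', h1⟩, h4⟩

end QDMan
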