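import Pool.Agent.Lib.QDMan.Sdr

/-!
# Chunk S2: a function which is surjective on every uncountable closed subset of the Cantor space

PROOF. `I` = set of pairs `(P, s)` with `P` closed and uncountable, `s : S`.  `#I ≤ 𝔠 * 𝔠`: the
Cantor space has a countable basis so at most `𝔠` closed sets (`TopologicalSpace.exists_countable_basis`,
an open set is determined by the set of basic sets inside it; or use the map
`P ↦ {σ : List Bool | ∃ b ∈ P, ∀ i < σ.length, b i = σ.getD i false}`, injective on closed sets).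
`#P ≥ 𝔠` by `IsClosed.exists_nat_bool_injection_of_not_countable`.  Apply `exists_sdr` to
`A (P, s) = P`, and put `Φ (f (P, s)) = s`, arbitrary elsewhere.
-/

set_option autoImplicit false

open Set Cardinal

namespace QDMan

/-- the tree of a set -/
def pesTree (P : Set (ℕ → Bool)) : Set (List Bool) :=
  {σ | ∃ b ∈ P, ∀ i < σ.length, b i = σ.getD i false}

lemma pes_subset {P Q : Set (ℕ → Bool)} (hQ : IsClosed Q) (h : pesTree P = pesTree Q) :
    P ⊆ Q := by
  intro x hx
  have h1 : ∀ n : ℕ, ∃ b ∈ Q, ∀ i < n, b i = x i := by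
    intro n
    have h2 : (List.range n).map x ∈ pesTree P := by
      refine ⟨x, hx, fun i hi => ?_⟩
      rw [List.length_map, List.length_range] at hi
      simp [List.getD_eq_getElem?_getD, hi]
    rw [h] at h2
    obtain ⟨b, hb, hbi⟩ := h2
    refine ⟨b, hb, fun i hi => ?_⟩
    have h3 := hbi i (by simpa using hi)
    rw [h3]
    simp [List.getD_eq_getElem?_getD, hi]
  choose b hb hbx using h1
  have hlim : Filter.Tendsto b Filter.atTop (nhds x) := by
    rw [tendsto_pi_nhds]
    intro i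
    refine tendsto_const_nhds.congr' ?_
    filter_upwards [Filter.eventually_gt_atTop i] with n hn
    exact (hbx n i hn).symm
  exact hQ.mem_of_tendsto hlim (Filter.Eventually.of_forall hb)

lemma pes_mk_closed : #{P : Set (ℕ → Bool) // IsClosed P ∧ ¬ P.Countable} ≤ 𝔠 := by
  have h1 : Function.Injective
      (fun P : {P : Set (ℕ → Bool) // IsClosed P ∧ ¬ P.Countable} => pesTree P.1) := by
    intro P Q h
    exact Subtype.ext (Subset.antisymm (pes_subset Q.2.1 h) (pes_subset P.2.1 h.symm))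
  have h2 := Cardinal.mk_le_of_injective h1
  refine h2.trans ?_
  rw [Cardinal.mk_set]
  have h3 : #(List Bool) = ℵ₀ := Cardinal.mk_eq_aleph0 _
  rw [h3, Cardinal.two_power_aleph0]

instance pesPolish : PolishSpace (ℕ → Bool) := {}

theorem exists_pes {S : Type} [Nonempty S] (hS : #S ≤ 𝔠) :
    ∃ Φ : (ℕ → Bool) → S, ∀ P : Set (ℕ → Bool), IsClosed P → ¬ P.Countable →
      ∀ s, ∃ b ∈ P, Φ b = s := by
  classical
  let I : Type := {P : Set (ℕ → Bool) // IsClosed P ∧ ¬ P.Countable} × S
  have hI : #I ≤ 𝔠 := by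
    have h1 : #I = #{P : Set (ℕ → Bool) // IsClosed P ∧ ¬ P.Countable} * #S := by
      simp [I]
    rw [h1]
    calc #{P : Set (ℕ → Bool) // IsClosed P ∧ ¬ P.Countable} * #S ≤ 𝔠 * 𝔠 :=
          mul_le_mul' pes_mk_closed hS
      _ = 𝔠 := Cardinal.continuum_mul_self
  obtain ⟨f, hf, hfA⟩ := exists_sdr (I := I) (B := ℕ → Bool) (fun i => i.1.1) hI (by
    rintro ⟨⟨P, hP, hc⟩, s⟩
    obtain ⟨g, hg1, -, hg3⟩ := hP.exists_nat_bool_injection_of_not_countable hc
    have h1 : #(ℕ → Bool) ≤ #P := by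
      refine Cardinal.mk_le_of_injective (f := fun x => (⟨g x, hg1 ⟨x, rfl⟩⟩ : P)) ?_
      intro x y hxy
      exact hg3 (congrArg Subtype.val hxy)
    have h2 : #(ℕ → Bool) = 𝔠 := by simp
    rw [← h2]
    exact h1)
  refine ⟨Function.extend f Prod.snd (fun _ => Classical.arbitrary S), ?_⟩
  intro P hP hc s
  refine ⟨f (⟨P, hP, hc⟩, s), hfA (⟨P, hP, hc⟩, s), ?_⟩
  rw [hf.extend_apply]

end QDMan
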