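import Mathlib

/-!
# The maps between strips and planes (definitions, and chunk P1)

`emb b r u = (tau r, psi u - theta b * |tau r|)` maps `(0,1) × ℝ` (coordinates `r`, `u`)
homeomorphically onto the plane; `sig n (u,s) = (u, s / (1 + n s⁺))` maps the plane onto
`{s < 1/n}`, and `1/s' = 1/s + n` for `s > 0`.

PROOFS (chunk P1).  `tau` is a decreasing homeomorphism of `(0,1)` onto `ℝ` with inverse
`a ↦ 2 / (a + 2 + √(a² + 4))` (in `(0,1)` for every `a`), `psi` is a homeomorphism of `ℝ` with
inverse `d ↦ min d (d/4)`.  `sigG n` is injective, continuous and open: the image of an open `O` is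
`{q | 0 < 1 - n q.2⁺ ∧ (q.1, q.2 / (1 - n q.2⁺)) ∈ O}`.
`theta`: `#(ℕ → Bool) = 𝔠 = #(Ioo 0 1)`.
-/

set_option autoImplicit false

open Set Filter Topology

namespace QDMan

noncomputable def tau (r : ℝ) : ℝ := 1 / r - 1 / (1 - r)

noncomputable def psi (u : ℝ) : ℝ := max u (4 * u)

theorem exists_theta : ∃ θ : (ℕ → Bool) → ℝ, Function.Injective θ ∧ ∀ b, 0 < θ b ∧ θ b < 1 := by
  have h1 : Cardinal.mk (ℕ → Bool) = Cardinal.mk (Set.Ioo (0 : ℝ) 1) := by
    rw [Cardinal.mk_Ioo_real zero_lt_one]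
    simp
  obtain ⟨e⟩ := Cardinal.eq.1 h1
  exact ⟨fun b => (e b : ℝ), fun b b' h => e.injective (Subtype.ext h), fun b => (e b).2⟩

/-- direction of the port of a limit point of position `b` -/
noncomputable def theta : (ℕ → Bool) → ℝ := Classical.choose exists_theta

theorem theta_injective : Function.Injective theta := (Classical.choose_spec exists_theta).1

theorem theta_pos (b : ℕ → Bool) : 0 < theta b := ((Classical.choose_spec exists_theta).2 b).1

theorem theta_lt_one (b : ℕ → Bool) : theta b < 1 := ((Classical.choose_spec exists_theta).2 b).2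

/-- from the strip to the plane; `r` is the fractional part of `1/s` -/
noncomputable def emb (b : ℕ → Bool) (r u : ℝ) : ℝ × ℝ := (tau r, psi u - theta b * |tau r|)

noncomputable def sig (n : ℕ) (q : ℝ × ℝ) : ℝ × ℝ := (q.1, q.2 / (1 + n * max q.2 0))

/-- the strip number `j` of the plane: `1/s` is between `j` and `j+1` -/
def strip (j : ℕ) : Set (ℝ × ℝ) := {p | 0 < p.2 ∧ (j : ℝ) < 1 / p.2 ∧ 1 / p.2 < j + 1}

/-- the map from strip `j` to the plane -/
noncomputable def embG (b : ℕ → Bool) (j : ℕ) (p : ℝ × ℝ) : ℝ × ℝ := emb b (1 / p.2 - j) p.1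

theorem isOpen_strip (j : ℕ) : IsOpen (strip j) := by
  have h : strip j = {p : ℝ × ℝ | 0 < p.2} ∩ {p | (j : ℝ) * p.2 < 1} ∩
      {p | 1 < (j + 1) * p.2} := by
    ext p
    simp only [strip, mem_ofPred_eq, mem_inter_iff]
    constructor
    · rintro ⟨h1, h2, h3⟩
      rw [lt_div_iff₀ h1] at h2
      rw [div_lt_iff₀ h1] at h3
      exact ⟨⟨h1, h2⟩, h3⟩
    · rintro ⟨⟨h1, h2⟩, h3⟩
      exact ⟨h1, by rw [lt_div_iff₀ h1]; exact h2, by rw [div_lt_iff₀ h1]; exact h3⟩
  rw [h]
  refine ((isOpen_lt continuous_const continuous_snd).inter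
    (isOpen_lt (continuous_const.mul continuous_snd) continuous_const)).inter
    (isOpen_lt continuous_const (continuous_const.mul continuous_snd))

theorem strip_disjoint {i j : ℕ} (h : i ≠ j) : Disjoint (strip i) (strip j) := by
  rw [Set.disjoint_left]
  rintro p ⟨h1, h2, h3⟩ ⟨h4, h5, h6⟩
  have h7 : (i : ℝ) < j + 1 := h2.trans h6
  have h8 : (j : ℝ) < i + 1 := h5.trans h3
  have h9 : i < j + 1 := by exact_mod_cast h7
  have h10 : j < i + 1 := by exact_mod_cast h8
  omega

/-- inverse of `tau` -/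
noncomputable def tinv (a : ℝ) : ℝ := 2 / (a + 2 + √(a ^ 2 + 4))

theorem abs_lt_sqrt (a : ℝ) : |a| < √(a ^ 2 + 4) := by
  rw [← Real.sqrt_sq_eq_abs]
  exact Real.sqrt_lt_sqrt (sq_nonneg a) (by linarith)

theorem tinv_den (a : ℝ) : 2 < a + 2 + √(a ^ 2 + 4) := by
  have h1 := abs_lt_sqrt a
  have h2 := neg_abs_le a
  linarith

theorem tinv_mem (a : ℝ) : 0 < tinv a ∧ tinv a < 1 := by
  have h := tinv_den a
  constructor
  · unfold tinv; positivity
  · unfold tinv
    rw [div_lt_one (by linarith)]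
    exact h

theorem continuous_tinv : Continuous tinv := by
  unfold tinv
  refine continuous_const.div (by fun_prop) fun a => ?_
  have := tinv_den a
  linarith

theorem tau_tinv (a : ℝ) : tau (tinv a) = a := by
  have h1 := tinv_den a
  set s := √(a ^ 2 + 4) with hs
  have h2 : s ^ 2 = a ^ 2 + 4 := Real.sq_sqrt (by positivity)
  have h3 : 0 < a + 2 + s := by linarith
  have h4 : 0 < a + s := by linarith
  have h5 : 1 - tinv a = (a + s) / (a + 2 + s) := by
    unfold tinv
    rw [eq_div_iff h3.ne', sub_mul, div_mul_cancel₀ _ h3.ne']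
    ring
  unfold tau
  rw [h5]
  unfold tinv
  rw [one_div_div, one_div_div, div_sub_div _ _ (by norm_num) h4.ne', div_eq_iff (by positivity)]
  nlinarith [h2]

theorem tinv_tau {r : ℝ} (h0 : 0 < r) (h1 : r < 1) : tinv (tau r) = r := by
  have h2 : 0 < 1 - r := by linarith
  have hs : √((tau r) ^ 2 + 4) = r / (1 - r) + (1 - r) / r := by
    rw [Real.sqrt_eq_iff_mul_self_eq (by positivity) (by positivity)]
    unfold tau
    field_simp
    ring
  have h3 : tau r + 2 + (r / (1 - r) + (1 - r) / r) = 2 / r := by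
    unfold tau
    field_simp
    ring
  unfold tinv
  rw [hs, h3]
  field_simp

theorem continuousOn_tau : ContinuousOn tau (Ioo 0 1) := by
  unfold tau
  refine ContinuousOn.sub ?_ ?_
  · exact continuousOn_const.div continuousOn_id fun r hr => hr.1.ne'
  · refine continuousOn_const.div (by fun_prop) fun r hr => ?_
    have := hr.2
    intro h
    linarith

/-- inverse of `psi` -/
noncomputable def pinv (d : ℝ) : ℝ := min d (d / 4)

theorem psi_pinv (d : ℝ) : psi (pinv d) = d := by
  unfold psi pinv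
  rcases le_total d 0 with h | h
  · rw [min_eq_left (by linarith), max_eq_left (by linarith)]
  · rw [min_eq_right (by linarith), max_eq_right (by linarith)]
    ring

theorem pinv_psi (u : ℝ) : pinv (psi u) = u := by
  unfold psi pinv
  rcases le_total u 0 with h | h
  · rw [max_eq_left (by linarith), min_eq_left (by linarith)]
  · rw [max_eq_right (by linarith), min_eq_right (by linarith)]
    ring

theorem continuous_psi : Continuous psi := by unfold psi; fun_prop

theorem continuous_pinv : Continuous pinv := by unfold pinv; fun_prop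

theorem strip_frac {j : ℕ} {p : ℝ × ℝ} (hp : p ∈ strip j) : 1 / p.2 - j ∈ Ioo (0 : ℝ) 1 :=
  ⟨by linarith [hp.2.1], by linarith [hp.2.2]⟩

/-- inverse of `embG` -/
noncomputable def einv (b : ℕ → Bool) (j : ℕ) (q : ℝ × ℝ) : ℝ × ℝ :=
  (pinv (q.2 + theta b * |q.1|), 1 / (j + tinv q.1))

theorem continuous_einv (b : ℕ → Bool) (j : ℕ) : Continuous (einv b j) := by
  unfold einv
  refine Continuous.prodMk ?_ ?_
  · exact continuous_pinv.comp (by fun_prop)
  · refine continuous_const.div (continuous_const.add (continuous_tinv.comp continuous_fst))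
      fun q => ?_
    have := (tinv_mem q.1).1
    positivity

theorem einv_mem (b : ℕ → Bool) (j : ℕ) (q : ℝ × ℝ) : einv b j q ∈ strip j := by
  have h := tinv_mem q.1
  have h1 : (0 : ℝ) < j + tinv q.1 := by have := h.1; positivity
  refine ⟨by simp only [einv]; positivity, ?_, ?_⟩
  · simp only [einv, one_div_one_div]; linarith
  · simp only [einv, one_div_one_div]; linarith

theorem embG_einv (b : ℕ → Bool) (j : ℕ) (q : ℝ × ℝ) : embG b j (einv b j q) = q := by
  unfold embG emb einv
  simp only [one_div_one_div, add_sub_cancel_left, tau_tinv, psi_pinv]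
  ext <;> simp

theorem einv_embG (b : ℕ → Bool) (j : ℕ) {p : ℝ × ℝ} (hp : p ∈ strip j) :
    einv b j (embG b j p) = p := by
  have h := strip_frac hp
  unfold embG emb einv
  simp only [sub_add_cancel, pinv_psi]
  rw [tinv_tau h.1 h.2]
  ext <;> simp

theorem continuousOn_embG (b : ℕ → Bool) (j : ℕ) : ContinuousOn (embG b j) (strip j) := by
  have h1 : ContinuousOn (fun p : ℝ × ℝ => tau (1 / p.2 - j)) (strip j) := by
    refine continuousOn_tau.comp ?_ (fun p hp => strip_frac hp)
    exact (continuousOn_const.div continuousOn_snd fun p hp => hp.1.ne').sub continuousOn_const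
  unfold embG emb
  refine ContinuousOn.prodMk h1 ?_
  exact ((continuous_psi.comp continuous_fst).continuousOn).sub (continuousOn_const.mul h1.abs)

theorem injOn_embG (b : ℕ → Bool) (j : ℕ) : InjOn (embG b j) (strip j) := by
  intro p hp q hq h
  rw [← einv_embG b j hp, ← einv_embG b j hq, h]

theorem exists_embG_eq (b : ℕ → Bool) (j : ℕ) (q : ℝ × ℝ) : ∃ p ∈ strip j, embG b j p = q :=
  ⟨einv b j q, einv_mem b j q, embG_einv b j q⟩

theorem isOpen_image_embG (b : ℕ → Bool) (j : ℕ) {O : Set (ℝ × ℝ)} (hO : IsOpen O) :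
    IsOpen (embG b j '' (O ∩ strip j)) := by
  have h : embG b j '' (O ∩ strip j) = einv b j ⁻¹' O := by
    ext q
    constructor
    · rintro ⟨p, ⟨hp, hs⟩, rfl⟩
      rw [mem_preimage, einv_embG b j hs]
      exact hp
    · intro hq
      exact ⟨einv b j q, ⟨hq, einv_mem b j q⟩, embG_einv b j q⟩
  rw [h]
  exact hO.preimage (continuous_einv b j)

theorem sig_den (n : ℕ) (s : ℝ) : 0 < 1 + (n : ℝ) * max s 0 := by
  have : 0 ≤ max s 0 := le_max_right _ _
  positivity

theorem continuous_sig (n : ℕ) : Continuous (sig n) := by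
  unfold sig
  refine continuous_fst.prodMk (continuous_snd.div (by fun_prop) fun q => (sig_den n q.2).ne')

/-- inverse of `sig` -/
noncomputable def siginv (n : ℕ) (q : ℝ × ℝ) : ℝ × ℝ := (q.1, q.2 / (1 - n * max q.2 0))

theorem siginv_sig (n : ℕ) (q : ℝ × ℝ) :
    0 < 1 - n * max (sig n q).2 0 ∧ siginv n (sig n q) = q := by
  have hd := sig_den n q.2
  rcases le_total q.2 0 with h | h
  · have h1 : sig n q = q := by simp [sig, max_eq_right h]
    rw [h1]
    simp [siginv, max_eq_right h]
  · rw [max_eq_left h] at hd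
    have h1 : (sig n q).2 = q.2 / (1 + n * q.2) := by simp [sig, max_eq_left h]
    have h2 : 0 ≤ (sig n q).2 := by rw [h1]; positivity
    have h3 : 1 - n * max (sig n q).2 0 = 1 / (1 + n * q.2) := by
      rw [max_eq_left h2, h1, eq_div_iff hd.ne', sub_mul, mul_assoc, div_mul_cancel₀ _ hd.ne']
      ring
    refine ⟨by rw [h3]; positivity, ?_⟩
    unfold siginv
    rw [h3, h1]
    refine Prod.ext rfl ?_
    simp only
    field_simp

theorem sig_injective (n : ℕ) : Function.Injective (sig n) := by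
  intro p q h
  rw [← (siginv_sig n p).2, ← (siginv_sig n q).2, h]

theorem isOpen_image_sig (n : ℕ) {O : Set (ℝ × ℝ)} (hO : IsOpen O) : IsOpen (sig n '' O) := by
  have hD : IsOpen {q : ℝ × ℝ | 0 < 1 - n * max q.2 0} :=
    isOpen_lt continuous_const (by fun_prop)
  have hc : ContinuousOn (siginv n) {q : ℝ × ℝ | 0 < 1 - n * max q.2 0} := by
    unfold siginv
    refine continuousOn_fst.prodMk (continuousOn_snd.div (by fun_prop) fun q hq => ne_of_gt hq)
  have h : sig n '' O = {q : ℝ × ℝ | 0 < 1 - n * max q.2 0} ∩ siginv n ⁻¹' O := by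
    ext q
    constructor
    · rintro ⟨p, hp, rfl⟩
      refine ⟨(siginv_sig n p).1, ?_⟩
      rw [mem_preimage, (siginv_sig n p).2]
      exact hp
    · rintro ⟨hq, hO'⟩
      refine ⟨siginv n q, hO', ?_⟩
      simp only [mem_ofPred_eq] at hq
      rcases le_total q.2 0 with h | h
      · simp [siginv, sig, max_eq_right h]
      · rw [max_eq_left h] at hq
        have h1 : 0 ≤ q.2 / (1 - n * q.2) := by positivity
        unfold siginv sig
        simp only [max_eq_left h, max_eq_left h1]
        refine Prod.ext rfl ?_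
        simp only
        have h4 : 1 + (n : ℝ) * (q.2 / (1 - n * q.2)) = 1 / (1 - n * q.2) := by
          rw [eq_div_iff hq.ne', add_mul, mul_assoc, div_mul_cancel₀ _ hq.ne']
          ring
        rw [h4, div_div_eq_mul_div, div_mul_cancel₀ _ hq.ne', div_one]
  rw [h]
  exact hc.isOpen_inter_preimage hD hO

theorem sig_zero (q : ℝ × ℝ) : sig 0 q = q := by
  simp [sig]

theorem sig_low (n : ℕ) {q : ℝ × ℝ} (h : q.2 ≤ 0) : sig n q = q := by
  simp [sig, max_eq_right h]

theorem sig_high (n : ℕ) {q : ℝ × ℝ} (h : 0 < q.2) :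
    0 < (sig n q).2 ∧ 1 / (sig n q).2 = 1 / q.2 + n ∧ (sig n q).1 = q.1 := by
  have h1 : (sig n q).2 = q.2 / (1 + n * q.2) := by simp [sig, max_eq_left h.le]
  have h2 : 0 < 1 + (n : ℝ) * q.2 := by positivity
  refine ⟨?_, ?_, rfl⟩
  · rw [h1]; positivity
  · rw [h1]; field_simp

theorem exists_sig_eq {n : ℕ} {q : ℝ × ℝ} (h : q.2 ≤ 0 ∨ (n : ℝ) < 1 / q.2) :
    ∃ p, sig n p = q := by
  rcases le_or_gt q.2 0 with h0 | h0
  · exact ⟨q, sig_low n h0⟩
  · have h1 : (n : ℝ) < 1 / q.2 := h.resolve_left (not_le.2 h0)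
    have h2 : 0 < 1 - n * q.2 := by
      rw [lt_div_iff₀ h0] at h1; linarith
    refine ⟨(q.1, q.2 / (1 - n * q.2)), ?_⟩
    have h3 : 0 < q.2 / (1 - n * q.2) := by positivity
    refine Prod.ext rfl ?_
    simp only [sig, max_eq_left h3.le]
    have h4 : 1 + (n : ℝ) * (q.2 / (1 - n * q.2)) = 1 / (1 - n * q.2) := by
      rw [eq_div_iff h2.ne', add_mul, mul_assoc, div_mul_cancel₀ _ h2.ne']
      ring
    rw [h4, div_div_eq_mul_div, div_mul_cancel₀ _ h2.ne', div_one]

/-- every point of the plane is low, on a line, or in a strip -/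
theorem cases3 (q : ℝ × ℝ) :
    q.2 ≤ 0 ∨ (∃ k : ℕ, 1 ≤ k ∧ 0 < q.2 ∧ 1 / q.2 = k) ∨ ∃ j, q ∈ strip j := by
  rcases le_or_gt q.2 0 with h | h
  · exact Or.inl h
  · right
    have h1 : 0 < 1 / q.2 := by positivity
    have h2 := Nat.floor_le h1.le
    have h3 := Nat.lt_floor_add_one (1 / q.2)
    rcases h2.eq_or_lt with h4 | h4
    · left
      refine ⟨⌊1 / q.2⌋₊, ?_, h, h4.symm⟩
      rw [← h4] at h1
      have : 0 < ⌊1 / q.2⌋₊ := by exact_mod_cast h1
      omega
    · right
      exact ⟨⌊1 / q.2⌋₊, h, h4, h3⟩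

end QDMan
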