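import Pool.Agent.Lib.QDMan.Pes
import Pool.Agent.Lib.QDMan.CardCode

/-!
# Chunk S4: the universal ladder assignment

PROOF. Take `Φ : (ℕ → Bool) → List ℕ × (List Bool → Code)` from `exists_pes mk_system_le`.
For `b` with `Φ b = (t, S)` let `m 0 = 0`, `m (j+1) = max (m j) (co (S (b|m j)) t.length) + 1`
where `b|n = (List.range n).map b` is the list of the first `n` digits, `x j = S (b|m j)` and
`Ψ b = (t, x)`.

Given `t` and an antitone family `A` as in the theorem, put `T = {σ : List Bool | ∃ x ∈ A σ.length,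
the first σ.length digits of pos x are σ}`, choose `S σ ∈ A σ.length` with these digits for `σ ∈ T`
(anything for the others).  `P = {b | ∀ n, ∃ x ∈ A n, Agree n (pos x) b}` is closed (for each `n`
the set is clopen: it depends on the first `n` digits of `b` only), uncountable by hypothesis. So
there is `b ∈ P` with `Φ b = (t, S)`. All `b|n ∈ T`, `x j = S (b|m j) ∈ A (m j) ⊆ A j ∩ Thin t (m j)`,
`m j ≥ j`, `Agree (m j) (pos (x j)) b`, and
`co (x (j+1)) t.length ≥ m (j+1) > co (x j) t.length`.
-/

set_option autoImplicit false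

open Set Cardinal

namespace QDMan

open Code

/-- the stopping levels -/
def psiM (b : ℕ → Bool) (t : List ℕ) (S : List Bool → Code) : ℕ → ℕ
  | 0 => 0
  | j + 1 => max (psiM b t S j) (co (S ((List.range (psiM b t S j)).map b)) t.length) + 1

/-- the ladder -/
def psiX (b : ℕ → Bool) (t : List ℕ) (S : List Bool → Code) (j : ℕ) : Code :=
  S ((List.range (psiM b t S j)).map b)

lemma le_psiM (b : ℕ → Bool) (t : List ℕ) (S : List Bool → Code) (j : ℕ) : j ≤ psiM b t S j := by
  induction j with
  | zero => exact Nat.zero_le _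
  | succ j ih =>
    have h : psiM b t S (j + 1) =
      max (psiM b t S j) (co (S ((List.range (psiM b t S j)).map b)) t.length) + 1 := rfl
    rw [h]
    have := le_max_left (psiM b t S j) (co (S ((List.range (psiM b t S j)).map b)) t.length)
    omega

lemma psi_getD (b : ℕ → Bool) {n i : ℕ} (hi : i < n) :
    ((List.range n).map b).getD i false = b i := by
  simp [List.getD_eq_getElem?_getD, hi]

theorem exists_psi : ∃ Ψ : (ℕ → Bool) → List ℕ × (ℕ → Code),
    ∀ (t : List ℕ) (A : ℕ → Set Code), Antitone A → (∀ n, A n ⊆ Thin t n) →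
      ¬ {b : ℕ → Bool | ∀ n, ∃ x ∈ A n, Agree n (pos x) b}.Countable →
      ∃ (b : ℕ → Bool) (x : ℕ → Code), Ψ b = (t, x) ∧ LadOK b t x ∧ ∀ j, x j ∈ A j := by
  classical
  let c₀ : Code := iso (fun _ => 0) (fun _ => false)
  have : Nonempty (List ℕ × (List Bool → Code)) := ⟨([], fun _ => c₀)⟩
  obtain ⟨Φ, hΦ⟩ := exists_pes mk_system_le
  refine ⟨fun b => ((Φ b).1, psiX b (Φ b).1 (Φ b).2), ?_⟩
  intro t A hA hT hu
  let S : List Bool → Code := fun σ =>
    if h : ∃ x ∈ A σ.length, ∀ i < σ.length, pos x i = σ.getD i false then h.choose else c₀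
  have hS : ∀ σ : List Bool, (∃ x ∈ A σ.length, ∀ i < σ.length, pos x i = σ.getD i false) →
      S σ ∈ A σ.length ∧ ∀ i < σ.length, pos (S σ) i = σ.getD i false := by
    intro σ h
    simp only [S]
    rw [dif_pos h]
    exact h.choose_spec
  have hP : IsClosed {b : ℕ → Bool | ∀ n, ∃ x ∈ A n, Agree n (pos x) b} := by
    rw [Set.ofPred_forall]
    refine isClosed_iInter fun n => ?_
    have h1 : {b : ℕ → Bool | ∃ x ∈ A n, Agree n (pos x) b} =
        (fun (b : ℕ → Bool) (i : Fin n) => b i) ⁻¹'
          {z : Fin n → Bool | ∃ x ∈ A n, ∀ i : Fin n, pos x i = z i} := by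
      ext b
      simp only [Set.mem_ofPred_eq, Set.mem_preimage]
      refine exists_congr fun x => and_congr_right fun _ => ?_
      exact ⟨fun h i => h i i.2, fun h i hi => h ⟨i, hi⟩⟩
    rw [h1]
    exact (isClosed_discrete _).preimage (continuous_pi fun i => continuous_apply _)
  obtain ⟨b, hb, hΦb⟩ := hΦ _ hP hu (t, S)
  have hb' : ∀ n, ∃ x ∈ A n, Agree n (pos x) b := hb
  have hSb : ∀ n, S ((List.range n).map b) ∈ A n ∧ Agree n (pos (S ((List.range n).map b))) b := by
    intro n
    obtain ⟨x, hx, hxa⟩ := hb' n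
    have hlen : ((List.range n).map b).length = n := by simp
    have h1 := hS ((List.range n).map b) (by
      rw [hlen]
      refine ⟨x, hx, fun i hi => ?_⟩
      rw [psi_getD b hi]
      exact hxa i hi)
    rw [hlen] at h1
    refine ⟨h1.1, fun i hi => ?_⟩
    rw [h1.2 i hi, psi_getD b hi]
  refine ⟨b, psiX b t S, ?_, ⟨fun j => ⟨?_, ?_⟩, ?_⟩, fun j => ?_⟩
  · simp only [hΦb]
  · exact hT j (hA (le_psiM b t S j) (hSb _).1)
  · exact (hSb (psiM b t S j)).2.mono (le_psiM b t S j)
  · refine strictMono_nat_of_lt_succ fun j => ?_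
    have h1 := (hT _ (hSb (psiM b t S (j + 1))).1).2.2.2
    have h2 : psiM b t S (j + 1) =
      max (psiM b t S j) (co (S ((List.range (psiM b t S j)).map b)) t.length) + 1 := rfl
    have h3 := le_max_right (psiM b t S j) (co (S ((List.range (psiM b t S j)).map b)) t.length)
    show co (S ((List.range (psiM b t S j)).map b)) t.length <
      co (S ((List.range (psiM b t S (j + 1))).map b)) t.length
    omega
  · exact hA (le_psiM b t S j) (hSb _).1

end QDMan
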