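import Pool.Agent.Lib.QDMan.VLem

/-!
# Chunk K1: countable sets have point-finite neighbourhood assignments

PROOF. Enumerate `Q` as `q 0, q 1, ...` (injectively or not; if `Q` is empty nothing to do). The set
`W = ⋃ q ∈ Q, V q 0` is countable (`countable_V`), enumerate it as `v 0, v 1, ...`.  For `q ∈ Q`
let `i` be its (least) index and choose `m q` so large that `v l ∉ V q (m q)` for all `l ≤ i` with
`v l ≠ q` (`exists_not_mem_V` and `V_antitone`, finitely many conditions).  If `x ∈ V q (m q)` then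
`x ∈ W`, say `x = v l`, and either `x = q` or the index of `q` is smaller than `l`.
-/

set_option autoImplicit false

open Set

namespace QDMan

open Code

theorem finite_lt_of_injOn {α : Type*} {Q : Set α} {f : α → ℕ} (hf : InjOn f Q) (N : ℕ) :
    {q | q ∈ Q ∧ f q < N}.Finite := by
  refine Set.Finite.of_finite_image (f := f) ((Set.finite_lt_nat N).subset ?_)
    (hf.mono fun q hq => hq.1)
  rintro _ ⟨q, hq, rfl⟩
  exact hq.2

theorem exists_pointFinite (Q : Set Code) (hQ : Q.Countable) (hL : ∀ q ∈ Q, Legit q) :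
    ∃ m : Code → ℕ, ∀ x, {q | q ∈ Q ∧ x ∈ V q (m q)}.Finite := by
  obtain ⟨f, hf⟩ := Set.countable_iff_exists_injOn.1 hQ
  have hW : (⋃ q ∈ Q, V q 0).Countable := hQ.biUnion fun q _ => countable_V q 0
  obtain ⟨e, he⟩ := Set.countable_iff_exists_injOn.1 hW
  have h1 : ∀ q : Code, ∃ m : ℕ, q ∈ Q → ∀ x, x ∈ (⋃ q ∈ Q, V q 0) → e x < f q + 1 → x ≠ q →
      x ∉ V q m := by
    intro q
    by_cases hq : q ∈ Q
    · have hfin := finite_lt_of_injOn he (f q + 1)
      have h2 : ∀ x : Code, ∃ n, x ≠ q → x ∉ V q n := by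
        intro x
        by_cases hx : x = q
        · exact ⟨0, fun h => absurd hx h⟩
        · obtain ⟨n, hn⟩ := exists_not_mem_V (hL q hq) hx
          exact ⟨n, fun _ => hn⟩
      choose n hn using h2
      refine ⟨hfin.toFinset.sup n, fun _ x hx hex hxq hxV => hn x hxq ?_⟩
      refine V_antitone q (Finset.le_sup (f := n) ?_) hxV
      rw [Set.Finite.mem_toFinset]
      exact ⟨hx, hex⟩
    · exact ⟨0, fun h => absurd h hq⟩
  choose m hm using h1
  refine ⟨m, fun x => ?_⟩
  refine ((finite_lt_of_injOn hf (e x)).union (Set.finite_singleton x)).subset ?_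
  rintro q ⟨hq, hx⟩
  by_cases hxq : x = q
  · exact Or.inr hxq.symm
  · left
    refine ⟨hq, ?_⟩
    by_contra hlt
    rw [not_lt] at hlt
    exact hm q hq x (mem_biUnion hq (V_antitone q (Nat.zero_le _) hx))
      (Nat.lt_succ_of_le hlt) hxq hx

end QDMan
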