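import Pool.Agent.Lib.QDMan.Defs

/-!
# Chunk S1: transversals (transfinite selection of distinct representatives)

PROOF. Let `o = Cardinal.continuum.ord` (or any well-order on `I` of type `(#I).ord`: every proper
initial segment has cardinality `< #I ≤ 𝔠`; see `Cardinal.ord_eq`, `Cardinal.card_typein_lt`,
or use `Cardinal.exists_ord_eq_type_lt` / `WellOrderingRel`).  Define `f` by well-founded recursion
(`WellFounded.fix`): `f i ∈ A i \ {f j | j < i}`, which is nonempty because
`#{f j | j < i} < 𝔠 ≤ #(A i)`.
-/

set_option autoImplicit false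

open Set Cardinal

namespace QDMan

/-- a family of at most continuum many sets of size at least continuum has an injective choice
function -/
theorem exists_sdr {I B : Type} (A : I → Set B) (hI : #I ≤ 𝔠) (hA : ∀ i, 𝔠 ≤ #(A i)) :
    ∃ f : I → B, Function.Injective f ∧ ∀ i, f i ∈ A i := by
  classical
  obtain ⟨r, hwo, hr⟩ := Cardinal.exists_ord_eq I
  have hne : ∀ i, (A i).Nonempty := by
    intro i
    rw [← Set.nonempty_coe_sort, ← Cardinal.mk_ne_zero_iff]
    intro h0
    have := hA i
    rw [h0] at this
    exact absurd this (not_le.2 (lt_of_lt_of_le Cardinal.aleph0_pos Cardinal.aleph0_le_continuum))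
  have hlt : ∀ i, #{j // r j i} < 𝔠 := by
    intro i
    have h1 := Cardinal.card_typein_lt (r := r) i hr
    rw [Ordinal.card_typein] at h1
    exact h1.trans_le hI
  have hwf : WellFounded r := hwo.wf
  let F : ∀ i, (∀ j, r j i → B) → B := fun i g =>
    if h : ∃ b ∈ A i, ∀ j (hj : r j i), g j hj ≠ b then h.choose else (hne i).some
  let f : I → B := hwf.fix F
  have hf : ∀ i, f i = F i (fun j _ => f j) := fun i => hwf.fix_eq F i
  have hex : ∀ i, ∃ b ∈ A i, ∀ j (_ : r j i), f j ≠ b := by
    intro i
    by_contra hcon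
    push Not at hcon
    have h1 : A i ⊆ Set.range (fun j : {j // r j i} => f j) := by
      intro b hb
      obtain ⟨j, hj, hjb⟩ := hcon b hb
      exact ⟨⟨j, hj⟩, hjb⟩
    have h2 : #(A i) ≤ #{j // r j i} := (Cardinal.mk_le_mk_of_subset h1).trans Cardinal.mk_range_le
    exact absurd ((hA i).trans h2) (not_le.2 (hlt i))
  have hspec : ∀ i, f i ∈ A i ∧ ∀ j, r j i → f j ≠ f i := by
    intro i
    have h1 : f i = (hex i).choose := by
      rw [hf i]
      simp only [F]
      rw [dif_pos (hex i)]
    have h2 := (hex i).choose_spec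
    rw [← h1] at h2
    exact h2
  refine ⟨f, ?_, fun i => (hspec i).1⟩
  intro i j hij
  rcases trichotomous_of r i j with h | h | h
  · exact absurd hij ((hspec j).2 i h)
  · exact h
  · exact absurd hij.symm ((hspec i).2 j h)

end QDMan
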